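import Pool.Agent.Helper76.SobDiff.Defs

/-!
# Passing between smoothness on the sphere and smoothness in the ambient space
-/

open scoped Manifold ContDiff ENNReal RealInnerProductSpace Topology
open MeasureTheory Set

noncomputable section

namespace Pool.Agent.Helper76.SobDiff

variable {n : ℕ}

lemma coe_sph_ne_zero (x : Sph n) : (x : Amb n) ≠ 0 := by
  intro h
  have := norm_coe_sph x
  rw [h, norm_zero] at this
  exact zero_ne_one this

/-- a base point -/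
def basePt (n : ℕ) : Sph n := ⟨EuclideanSpace.single 0 1, by simp⟩

/-- radial projection to the sphere -/
def nrm (x : Amb n) : Sph n :=
  if h : x = 0 then basePt n else ⟨‖x‖⁻¹ • x, by
    simp [norm_smul, norm_ne_zero_iff.mpr h]⟩

lemma coe_nrm {x : Amb n} (h : x ≠ 0) : (nrm x : Amb n) = ‖x‖⁻¹ • x := by
  simp [nrm, h]

@[simp] lemma nrm_coe (x : Sph n) : nrm (x : Amb n) = x := by
  apply Subtype.ext
  rw [coe_nrm (coe_sph_ne_zero x), norm_coe_sph]
  simp

lemma norm_smul_nrm {x : Amb n} (h : x ≠ 0) : ‖x‖ • (nrm x : Amb n) = x := by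
  rw [coe_nrm h, smul_smul, mul_inv_cancel₀ (norm_ne_zero_iff.mpr h), one_smul]

lemma nrm_smul {c : ℝ} (hc : 0 < c) (x : Amb n) : nrm (c • x) = nrm x := by
  by_cases h : x = 0
  · simp [h]
  · apply Subtype.ext
    rw [coe_nrm h, coe_nrm (smul_ne_zero hc.ne' h), norm_smul, Real.norm_of_nonneg hc.le,
      smul_smul]
    congr 1
    field_simp

lemma nrm_smul_coe {c : ℝ} (hc : 0 < c) (x : Sph n) : nrm (c • (x : Amb n)) = x := by
  rw [nrm_smul hc, nrm_coe]

lemma contMDiffAt_nrm {x : Amb n} (hx : x ≠ 0) :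
    ContMDiffAt 𝓘(ℝ, Amb n) (𝓡 n) ∞ (nrm : Amb n → Sph n) x := by
  let U : TopologicalSpace.Opens (Amb n) := ⟨{0}ᶜ, isOpen_compl_singleton⟩
  have hfact : Fact (Module.finrank ℝ (Amb n) = n + 1) := ⟨by simp⟩
  have h1 : ContMDiff 𝓘(ℝ, Amb n) 𝓘(ℝ, Amb n) ∞
      (fun y : U => ‖(y : Amb n)‖⁻¹ • (y : Amb n)) := by
    intro y
    have hy : (y : Amb n) ≠ 0 := y.2
    have : ContMDiffAt 𝓘(ℝ, Amb n) 𝓘(ℝ, Amb n) ∞ (fun z : Amb n => ‖z‖⁻¹ • z) (y : Amb n) := by
      rw [contMDiffAt_iff_contDiffAt]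
      exact ((contDiffAt_norm ℝ hy).inv (norm_ne_zero_iff.mpr hy)).smul contDiffAt_id
    exact contMDiffAt_subtype_iff.mpr this
  have hmem : ∀ y : U, ‖(y : Amb n)‖⁻¹ • (y : Amb n) ∈ Metric.sphere (0 : Amb n) 1 := by
    intro y
    have hy : (y : Amb n) ≠ 0 := y.2
    simp [norm_smul, norm_ne_zero_iff.mpr hy]
  have h2 := ContMDiff.codRestrict_sphere (n := n) h1 hmem
  have h3 : (Set.codRestrict (fun y : U => ‖(y : Amb n)‖⁻¹ • (y : Amb n)) _ hmem) =
      fun y : U => nrm (y : Amb n) := by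
    ext1 y
    have hy : (y : Amb n) ≠ 0 := y.2
    apply Subtype.ext
    rw [coe_nrm hy]
    rfl
  rw [h3] at h2
  have h4 := h2 ⟨x, hx⟩
  exact contMDiffAt_subtype_iff.mp h4

variable {P F : Type*} [NormedAddCommGroup P] [NormedSpace ℝ P] [NormedAddCommGroup F]
  [NormedSpace ℝ F]

/-- smooth maps `P × S^n → F` are smooth in the ambient coordinates -/
lemma contDiffAt_ambient {f : P × Sph n → F}
    (hf : ContMDiff (𝓘(ℝ, P).prod (𝓡 n)) 𝓘(ℝ, F) ∞ f) {p : P} {x : Amb n} (hx : x ≠ 0) :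
    ContDiffAt ℝ ∞ (fun q : P × Amb n => f (q.1, nrm q.2)) (p, x) := by
  rw [← contMDiffAt_iff_contDiffAt]
  have h1 : ContMDiffAt 𝓘(ℝ, P × Amb n) (𝓘(ℝ, P).prod (𝓡 n)) ∞
      (fun q : P × Amb n => (q.1, nrm q.2)) (p, x) := by
    apply ContMDiffAt.prodMk
    · exact contDiff_fst.contMDiff.contMDiffAt
    · exact (contMDiffAt_nrm (x := ((p, x) : P × Amb n).2) hx).comp (p, x)
        contDiff_snd.contMDiff.contMDiffAt
  exact (hf _).comp (p, x) h1

/-- smooth functions in the ambient space restrict to smooth maps on `P × S^n` -/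
lemma contMDiff_of_ambient {f : P × Sph n → F} {g : P × Amb n → F}
    (hg : ∀ (p : P) (x : Sph n), ContDiffAt ℝ ∞ g (p, (x : Amb n)))
    (hfg : ∀ (p : P) (x : Sph n), f (p, x) = g (p, (x : Amb n))) :
    ContMDiff (𝓘(ℝ, P).prod (𝓡 n)) 𝓘(ℝ, F) ∞ f := by
  have hfact : Fact (Module.finrank ℝ (Amb n) = n + 1) := ⟨by simp⟩
  have h1 : ContMDiff (𝓘(ℝ, P).prod (𝓡 n)) 𝓘(ℝ, P × Amb n) ∞
      (fun q : P × Sph n => (q.1, (q.2 : Amb n))) := by
    apply ContMDiff.prodMk_space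
    · exact contMDiff_fst
    · exact contMDiff_coe_sphere.comp contMDiff_snd
  intro q
  have h2 : ContMDiffAt 𝓘(ℝ, P × Amb n) 𝓘(ℝ, F) ∞ g (q.1, (q.2 : Amb n)) :=
    contMDiffAt_iff_contDiffAt.mpr (hg q.1 q.2)
  have h3 := ContMDiffAt.comp (g := g) (f := fun q : P × Sph n => (q.1, (q.2 : Amb n))) q h2 (h1 q)
  have h4 : f = g ∘ fun q : P × Sph n => (q.1, (q.2 : Amb n)) := by
    funext q
    exact hfg q.1 q.2
  rw [h4]
  exact h3

/-- a map into the sphere is smooth iff it is smooth as a map into the ambient space -/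
lemma contMDiff_sph_iff {f : P × Sph n → Sph n} :
    ContMDiff (𝓘(ℝ, P).prod (𝓡 n)) (𝓡 n) ∞ f ↔
      ContMDiff (𝓘(ℝ, P).prod (𝓡 n)) 𝓘(ℝ, Amb n) ∞ (fun q => (f q : Amb n)) := by
  have hfact : Fact (Module.finrank ℝ (Amb n) = n + 1) := ⟨by simp⟩
  constructor
  · intro h
    exact contMDiff_coe_sphere.comp h
  · intro h
    have := ContMDiff.codRestrict_sphere (n := n) h (fun q => (f q).2)
    exact this

/-- a map of the sphere is smooth iff it is smooth as a map into the ambient space -/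
lemma contMDiff_sph_iff' {f : Sph n → Sph n} :
    ContMDiff (𝓡 n) (𝓡 n) ∞ f ↔
      ContMDiff (𝓡 n) 𝓘(ℝ, Amb n) ∞ (fun q => (f q : Amb n)) := by
  have hfact : Fact (Module.finrank ℝ (Amb n) = n + 1) := ⟨by simp⟩
  constructor
  · intro h
    exact contMDiff_coe_sphere.comp h
  · intro h
    have := ContMDiff.codRestrict_sphere (n := n) h (fun q => (f q).2)
    exact this

end Pool.Agent.Helper76.SobDiff
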