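import Pool.Agent.Helper76.SobDiff.SobEst

/-!
# Scaled bounds of the Sobolev norm: final form
-/

open scoped Manifold ContDiff ENNReal RealInnerProductSpace
open MeasureTheory Set

noncomputable section

namespace Pool.Agent.Helper76.SobDiff

lemma floor_add_fract' {s : ℝ} (hs : 0 ≤ s) : (⌊s⌋₊ : ℝ) + Int.fract s = s := by
  have := natCast_floor_eq_intCast_floor hs
  rw [this]
  exact Int.floor_add_fract s

theorem sobolevNorm_le {n : ℕ} (hn : 1 ≤ n) {s p : ℝ} (hp : 1 ≤ p) (hs : 0 ≤ s) {R : ℝ}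
    (hR : 0 ≤ R) :
    ∃ C : ℝ, 0 ≤ C ∧ ∀ (M l : ℝ) (f : Euc n → Euc n) (c : Euc n), 0 ≤ M → 0 < l → l ≤ 1 →
      ContDiff ℝ ∞ f → (∀ x, R * l < ‖x - c‖ → f x = 0) →
      (∀ j ≤ ⌊s⌋₊ + 1, ∀ x, ‖iteratedFDeriv ℝ j f x‖ ≤ M * l ^ (1 - (j : ℝ))) →
      sobolevNorm s p f ≤ ENNReal.ofReal (C * M * l ^ (1 - s + n / p)) := by
  have hp0 : 0 < p := by linarith
  set k := ⌊s⌋₊ with hk
  set σ := Int.fract s with hσ
  have hks : (k : ℝ) + σ = s := floor_add_fract' hs
  have hσ0 : 0 ≤ σ := Int.fract_nonneg s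
  have hσ1 : σ < 1 := Int.fract_lt_one s
  have hω := omega_nonneg n
  set C1 : ℝ := ((k + 1 : ℝ) * (R ^ n * omega n)) ^ (1 / p) with hC1
  set I : ℝ := ∫ z, ker n p σ 1 z with hI
  have hI0 : 0 ≤ I := integral_nonneg fun z => ker_nonneg n p σ 1 zero_le_one z
  set C2 : ℝ := (2 * (R ^ n * omega n) * I) ^ (1 / p) with hC2
  have hC1' : 0 ≤ C1 := by positivity
  have hC2' : 0 ≤ C2 := by positivity
  refine ⟨C1 + C2, by positivity, ?_⟩
  intro M l f c hM hl hl1 hf hsupp hder
  -- the powers of `l`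
  have hlpow : ∀ j ≤ k, l ^ (1 - (j : ℝ)) ≤ l ^ (1 - (k : ℝ)) := by
    intro j hj
    apply Real.rpow_le_rpow_of_exponent_ge hl hl1
    have : (j : ℝ) ≤ k := by exact_mod_cast hj
    linarith
  have hrl : (0 : ℝ) ≤ R * l := by positivity
  -- first part
  have part1 : (∑ j ∈ Finset.range (k + 1), ∫⁻ x, ‖iteratedFDeriv ℝ j f x‖ₑ ^ p) ^ (1 / p) ≤
      ENNReal.ofReal (C1 * M * l ^ (1 - s + n / p)) := by
    have hterm : ∀ j ∈ Finset.range (k + 1), ∫⁻ x, ‖iteratedFDeriv ℝ j f x‖ₑ ^ p ≤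
        ENNReal.ofReal ((M * l ^ (1 - (k : ℝ))) ^ p * ((R * l) ^ n * omega n)) := by
      intro j hj
      have hj' : j ≤ k := by simpa [Nat.lt_succ_iff] using hj
      apply lintegral_bound_of_support (c := c) hp0 hrl (by positivity)
      · intro x hx
        exact iteratedFDeriv_eq_zero_of_far hsupp j hx
      · intro x
        refine (hder j (by omega) x).trans ?_
        exact mul_le_mul_of_nonneg_left (hlpow j hj') hM
    have hsum := Finset.sum_le_sum hterm
    rw [Finset.sum_const, Finset.card_range, nsmul_eq_mul] at hsum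
    have hcast : ((k + 1 : ℕ) : ℝ≥0∞) = ENNReal.ofReal (k + 1 : ℝ) := by
      rw [ENNReal.ofReal_add (by positivity) (by norm_num)]
      simp
    rw [hcast, ← ENNReal.ofReal_mul (by positivity)] at hsum
    refine (ENNReal.rpow_le_rpow hsum (by positivity)).trans ?_
    rw [ENNReal.ofReal_rpow_of_nonneg (by positivity) (by positivity)]
    apply ENNReal.ofReal_le_ofReal
    have e1 : (k + 1 : ℝ) * ((M * l ^ (1 - (k : ℝ))) ^ p * ((R * l) ^ n * omega n)) =
        ((k + 1 : ℝ) * (R ^ n * omega n)) * (M * l ^ (1 - (k : ℝ)) * l ^ ((n : ℝ) / p)) ^ p := by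
      rw [Real.mul_rpow (x := M * l ^ (1 - (k : ℝ))) (by positivity) (by positivity),
        ← Real.rpow_mul hl.le, div_mul_cancel₀ _ hp0.ne', Real.rpow_natCast, mul_pow]
      ring
    rw [e1, Real.mul_rpow (by positivity) (by positivity), ← Real.rpow_mul (by positivity),
      mul_one_div_cancel hp0.ne', Real.rpow_one, mul_assoc M, ← Real.rpow_add hl, ← mul_assoc]
    apply mul_le_mul_of_nonneg_left _ (by positivity)
    apply Real.rpow_le_rpow_of_exponent_ge hl hl1
    linarith
  -- second part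
  have part2 : (if σ = 0 then 0 else
      (∫⁻ x, ∫⁻ y, ‖iteratedFDeriv ℝ k f x - iteratedFDeriv ℝ k f y‖ₑ ^ p /
        ‖x - y‖ₑ ^ ((n : ℝ) + σ * p)) ^ (1 / p)) ≤
      ENNReal.ofReal (C2 * M * l ^ (1 - s + n / p)) := by
    split_ifs with h0
    · exact bot_le
    have hσpos : 0 < σ := lt_of_le_of_ne hσ0 (Ne.symm h0)
    have hKl : M * l ^ (-(k : ℝ)) * l = M * l ^ (1 - (k : ℝ)) := by
      rw [mul_assoc]
      congr 1
      nth_rewrite 2 [← Real.rpow_one l]
      rw [← Real.rpow_add hl]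
      congr 1
      ring
    have hdiff : Differentiable ℝ (iteratedFDeriv ℝ k f) :=
      hf.differentiable_iteratedFDeriv (by exact_mod_cast WithTop.coe_lt_top _)
    have hb := gagliardo_bound hn (g := iteratedFDeriv ℝ k f) (c := c) (r := R * l)
      (K := M * l ^ (-(k : ℝ))) hp0 hσpos hσ1 hrl (by positivity) hl
      (fun x hx => iteratedFDeriv_eq_zero_of_far hsupp k hx)
      (fun x => by rw [hKl]; exact hder k (by omega) x)
      (fun x y => by
        refine Convex.norm_image_sub_le_of_norm_fderiv_le (s := univ) (𝕜 := ℝ)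
          (fun z _ => hdiff z) (fun z _ => ?_) convex_univ (mem_univ y) (mem_univ x)
        rw [norm_fderiv_iteratedFDeriv]
        refine (hder (k + 1) le_rfl z).trans (le_of_eq ?_)
        congr 2
        push_cast
        ring)
    refine (ENNReal.rpow_le_rpow hb (by positivity)).trans ?_
    rw [ENNReal.ofReal_rpow_of_nonneg (by positivity) (by positivity)]
    apply ENNReal.ofReal_le_ofReal
    have e1 : 2 * ((R * l) ^ n * omega n) *
          ((M * l ^ (-(k : ℝ))) ^ p * (l ^ ((1 - σ) * p) * I)) =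
        (2 * (R ^ n * omega n) * I) * (M * l ^ (1 - s + n / p)) ^ p := by
      rw [Real.mul_rpow hM (by positivity), Real.mul_rpow hM (by positivity),
        ← Real.rpow_mul hl.le, ← Real.rpow_mul hl.le, mul_pow]
      have : l ^ ((1 - s + n / p) * p) = l ^ n * (l ^ (-(k : ℝ) * p) * l ^ ((1 - σ) * p)) := by
        rw [← Real.rpow_natCast l n, ← Real.rpow_add hl, ← Real.rpow_add hl]
        congr 1
        rw [← hks]
        field_simp
        ring
      rw [this]
      ring
    rw [e1, Real.mul_rpow (by positivity) (by positivity), ← Real.rpow_mul (by positivity),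
      mul_one_div_cancel hp0.ne', Real.rpow_one, ← mul_assoc]
  rw [sobolevNorm_eq]
  rw [← hk, ← hσ]
  refine (add_le_add part1 part2).trans (le_of_eq ?_)
  rw [← ENNReal.ofReal_add (by positivity) (by positivity)]
  congr 1
  ring

end Pool.Agent.Helper76.SobDiff
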