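import Pool.Agent.Helper76.SobDiff.ExpMap
import Pool.Agent.Helper76.SobDiff.SobNorm

/-!
# Vector fields in the exponential charts
-/

open scoped Manifold ContDiff ENNReal RealInnerProductSpace Topology
open MeasureTheory Set Filter

noncomputable section

namespace Pool.Agent.Helper76.SobDiff

variable {n : ℕ}

section leftinverse

/-- the adjoint as a continuous linear map -/
def adjL (n : ℕ) : (Euc n →L[ℝ] Amb n) →L[ℝ] (Amb n →L[ℝ] Euc n) :=
  LinearMap.mkContinuous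
    { toFun := fun A => ContinuousLinearMap.adjoint A
      map_add' := fun A B => by simp
      map_smul' := fun c A => by simp } 1 (fun A => by simp)

lemma adjL_apply (A : Euc n →L[ℝ] Amb n) : adjL n A = ContinuousLinearMap.adjoint A := rfl

/-- a left inverse of an injective linear map -/
def leftInv (A : Euc n →L[ℝ] Amb n) : Amb n →L[ℝ] Euc n :=
  (Ring.inverse ((adjL n A).comp A)).comp (adjL n A)

lemma isUnit_adj_comp {A : Euc n →L[ℝ] Amb n} (hA : Function.Injective A) :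
    IsUnit ((adjL n A).comp A) := by
  rw [ContinuousLinearMap.isUnit_iff_isUnit_toLinearMap, LinearMap.isUnit_iff_ker_eq_bot,
    LinearMap.ker_eq_bot']
  intro h hh
  have h1 : (adjL n A) (A h) = 0 := hh
  have h2 : ⟪(adjL n A) (A h), h⟫ = 0 := by rw [h1, inner_zero_left]
  rw [adjL_apply, ContinuousLinearMap.adjoint_inner_left, inner_self_eq_zero] at h2
  exact hA (by rw [h2, map_zero])

lemma leftInv_apply {A : Euc n →L[ℝ] Amb n} (hA : Function.Injective A) (h : Euc n) :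
    leftInv A (A h) = h := by
  have h1 := Ring.inverse_mul_cancel _ (isUnit_adj_comp hA)
  have h2 := congrArg (fun T : Euc n →L[ℝ] Euc n => T h) h1
  simpa [leftInv] using h2

lemma contDiffAt_leftInv {A : Euc n →L[ℝ] Amb n} (hA : Function.Injective A) :
    ContDiffAt ℝ ∞ (leftInv (n := n)) A := by
  unfold leftInv
  have h1 : ContDiffAt ℝ ∞ (fun A : Euc n →L[ℝ] Amb n => (adjL n A).comp A) A :=
    ((adjL n).contDiff.contDiffAt).clm_comp contDiffAt_id
  obtain ⟨u, hu⟩ := isUnit_adj_comp hA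
  have h2 : ContDiffAt ℝ ∞ (Ring.inverse : (Euc n →L[ℝ] Euc n) → (Euc n →L[ℝ] Euc n))
      ((adjL n A).comp A) := by
    rw [← hu]
    exact contDiffAt_ringInverse ℝ u
  have h3 : ContDiffAt ℝ ∞ (fun A : Euc n →L[ℝ] Amb n => Ring.inverse ((adjL n A).comp A)) A :=
    ContDiffAt.comp (g := Ring.inverse)
      (f := fun A : Euc n →L[ℝ] Amb n => (adjL n A).comp A) A h2 h1
  exact h3.clm_comp ((adjL n).contDiff.contDiffAt)

end leftinverse

variable {F : Type*} [NormedAddCommGroup F] [NormedSpace ℝ F]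

lemma contDiffAt_ambient' {f : Sph n → F} (hf : ContMDiff (𝓡 n) 𝓘(ℝ, F) ∞ f) {x : Amb n}
    (hx : x ≠ 0) : ContDiffAt ℝ ∞ (fun x : Amb n => f (nrm x)) x := by
  rw [← contMDiffAt_iff_contDiffAt]
  exact (hf _).comp x (contMDiffAt_nrm hx)

/-- smooth tangent vector fields -/
def SmoothField (X : Sph n → Amb n) : Prop :=
  ContMDiff (𝓡 n) 𝓘(ℝ, Amb n) ∞ X ∧ ∀ y : Sph n, ⟪(y : Amb n), X y⟫ = 0

lemma expMap_ne_zero (x : Sph n) (e : Euc n →ₗᵢ[ℝ] Amb n) (he : ∀ v, ⟪(x : Amb n), e v⟫ = 0)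
    (v : Euc n) : expMap x e v ≠ 0 := by
  intro h
  have := norm_expMap x e he v
  rw [h, norm_zero] at this
  exact zero_ne_one this

namespace ChartData

variable (𝒜 : ChartData n)

lemma coe_exp (α : 𝒜.ι) (v : Euc n) :
    (𝒜.exp α v : Amb n) = expMap (𝒜.centre α) (𝒜.frame α) v := rfl

lemma nrm_expMap (α : 𝒜.ι) (v : Euc n) :
    nrm (expMap (𝒜.centre α) (𝒜.frame α) v) = 𝒜.exp α v := by
  rw [← coe_exp, nrm_coe]

lemma contDiff_comp_exp {f : Sph n → F} (hf : ContMDiff (𝓡 n) 𝓘(ℝ, F) ∞ f) (α : 𝒜.ι) :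
    ContDiff ℝ ∞ (fun v => f (𝒜.exp α v)) := by
  rw [contDiff_iff_contDiffAt]
  intro v
  have h1 := contDiffAt_ambient' hf
    (expMap_ne_zero (𝒜.centre α) (𝒜.frame α) (𝒜.frame_orth α) v)
  have h2 := h1.comp v (contDiff_expMap (𝒜.centre α) (𝒜.frame α)).contDiffAt
  refine h2.congr_of_eventuallyEq (Eventually.of_forall fun w => ?_)
  simp only [Function.comp_apply, nrm_expMap]

/-- the coefficient `ρ_α (d exp)⁻¹` -/
def coef (α : 𝒜.ι) (v : Euc n) : Amb n →L[ℝ] Euc n :=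
  𝒜.ρ α (𝒜.exp α v) • leftInv (fderiv ℝ (expMap (𝒜.centre α) (𝒜.frame α)) v)

lemma contDiffOn_coef (α : 𝒜.ι) : ContDiffOn ℝ ∞ (𝒜.coef α) (Metric.ball 0 Real.pi) := by
  intro v hv
  apply ContDiffAt.contDiffWithinAt
  have hv' : ‖v‖ < Real.pi := by simpa using hv
  unfold coef
  apply ContDiffAt.fun_smul
  · exact (𝒜.contDiff_comp_exp (𝒜.ρ α).contMDiff α).contDiffAt
  · have h1 : ContDiffAt ℝ ∞ (fderiv ℝ (expMap (𝒜.centre α) (𝒜.frame α))) v :=
      ((contDiff_expMap (𝒜.centre α) (𝒜.frame α)).fderiv_right (m := ∞) le_rfl).contDiffAt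
    exact (contDiffAt_leftInv (fderiv_expMap_injective (𝒜.frame_orth α) hv')).comp v h1

lemma comp_eq_coef {X : Sph n → Amb n} (hX : ∀ y : Sph n, ⟪(y : Amb n), X y⟫ = 0) (α : 𝒜.ι)
    {v : Euc n} (hv : ‖v‖ < 𝒜.radius) : 𝒜.comp α X v = 𝒜.coef α v (X (𝒜.exp α v)) := by
  have hpi : ‖v‖ < Real.pi := hv.trans 𝒜.radius_lt
  have hinj := fderiv_expMap_injective (𝒜.frame_orth α) hpi
  obtain ⟨w, hw⟩ := range_fderiv_expMap (𝒜.frame_orth α) hpi (y := X (𝒜.exp α v)) (by
    rw [← coe_exp]; exact hX _)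
  rw [comp_eq']
  unfold coef
  rw [if_pos hv, ← hw, Function.leftInverse_invFun hinj w, _root_.smul_apply,
    leftInv_apply hinj]

/-- the partition of unity is supported in a smaller ball -/
lemma exists_small_radius (α : 𝒜.ι) : ∃ r, 0 ≤ r ∧ r < 𝒜.radius ∧
    ∀ v : Euc n, r < ‖v‖ → ‖v‖ < 𝒜.radius → 𝒜.ρ α (𝒜.exp α v) = 0 := by
  set K : Set (Sph n) := tsupport (𝒜.ρ α) with hK
  have hKc : IsCompact K := (isClosed_tsupport _).isCompact
  have hsub : K ⊆ geodBall (𝒜.centre α) 𝒜.radius := 𝒜.subordinate α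
  have hcont : ContinuousOn (fun y : Sph n =>
      InnerProductGeometry.angle (𝒜.centre α : Amb n) (y : Amb n)) K := by
    apply Continuous.continuousOn
    unfold InnerProductGeometry.angle
    simp only [norm_coe_sph, mul_one, div_one]
    exact Real.continuous_arccos.comp (continuous_const.inner continuous_subtype_val)
  rcases K.eq_empty_or_nonempty with hemp | hne
  · refine ⟨0, le_rfl, 𝒜.radius_pos, fun v _ _ => ?_⟩
    have : 𝒜.exp α v ∉ tsupport (𝒜.ρ α) := by rw [← hK, hemp]; exact notMem_empty _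
    exact image_eq_zero_of_notMem_tsupport this
  · obtain ⟨y0, hy0, hmax⟩ := hKc.exists_isMaxOn hne hcont
    refine ⟨InnerProductGeometry.angle (𝒜.centre α : Amb n) (y0 : Amb n),
      InnerProductGeometry.angle_nonneg _ _, hsub hy0, fun v hv1 hv2 => ?_⟩
    apply image_eq_zero_of_notMem_tsupport
    intro hmem
    have h1 := hmax hmem
    simp only [mem_ofPred_eq] at h1
    rw [coe_exp, angle_base_expMap (𝒜.centre α) (𝒜.frame α) (𝒜.frame_orth α)
      (hv2.le.trans 𝒜.radius_lt.le)] at h1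
    linarith

/-- a common smaller radius -/
lemma exists_small_radius' : ∃ r, 0 ≤ r ∧ r < 𝒜.radius ∧
    ∀ α, ∀ v : Euc n, r < ‖v‖ → ‖v‖ < 𝒜.radius → 𝒜.ρ α (𝒜.exp α v) = 0 := by
  choose r h0 h1 h2 using 𝒜.exists_small_radius
  rcases isEmpty_or_nonempty 𝒜.ι with hE | hN
  · exact ⟨0, le_rfl, 𝒜.radius_pos, fun α => (hE.false α).elim⟩
  · refine ⟨Finset.univ.sup' Finset.univ_nonempty r, ?_, ?_, ?_⟩
    · obtain ⟨α⟩ := hN
      exact (h0 α).trans (Finset.le_sup' r (Finset.mem_univ α))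
    · rw [Finset.sup'_lt_iff]
      intro α _
      exact h1 α
    · intro α v hv1 hv2
      exact h2 α v (lt_of_le_of_lt (Finset.le_sup' r (Finset.mem_univ α)) hv1) hv2

/-- the fixed inner radius -/
def inner : ℝ := 𝒜.exists_small_radius'.choose

lemma inner_nonneg : 0 ≤ 𝒜.inner := 𝒜.exists_small_radius'.choose_spec.1
lemma inner_lt : 𝒜.inner < 𝒜.radius := 𝒜.exists_small_radius'.choose_spec.2.1
lemma rho_eq_zero (α : 𝒜.ι) {v : Euc n} (h1 : 𝒜.inner < ‖v‖) (h2 : ‖v‖ < 𝒜.radius) :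
    𝒜.ρ α (𝒜.exp α v) = 0 := 𝒜.exists_small_radius'.choose_spec.2.2 α v h1 h2

lemma comp_eq_zero (X : Sph n → Amb n) (α : 𝒜.ι) {v : Euc n} (h : 𝒜.inner < ‖v‖) :
    𝒜.comp α X v = 0 := by
  rw [comp_eq']
  split_ifs with h2
  · rw [𝒜.rho_eq_zero α h h2, zero_smul]
  · rfl

lemma contDiff_comp {X : Sph n → Amb n} (hX : SmoothField X) (α : 𝒜.ι) :
    ContDiff ℝ ∞ (𝒜.comp α X) := by
  rw [contDiff_iff_contDiffAt]
  intro v
  by_cases hv : ‖v‖ < 𝒜.radius
  · have h1 : ContDiffAt ℝ ∞ (fun v => 𝒜.coef α v (X (𝒜.exp α v))) v := by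
      apply ContDiffAt.clm_apply
      · apply (𝒜.contDiffOn_coef α).contDiffAt
        exact Metric.isOpen_ball.mem_nhds (by simpa using hv.trans 𝒜.radius_lt)
      · exact (𝒜.contDiff_comp_exp hX.1 α).contDiffAt
    refine h1.congr_of_eventuallyEq ?_
    have hopen : IsOpen {w : Euc n | ‖w‖ < 𝒜.radius} := isOpen_lt continuous_norm continuous_const
    filter_upwards [hopen.mem_nhds hv] with w hw
    exact 𝒜.comp_eq_coef hX.2 α hw
  · have h1 : ContDiffAt ℝ ∞ (fun _ : Euc n => (0 : Euc n)) v := contDiffAt_const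
    refine h1.congr_of_eventuallyEq ?_
    have hopen : IsOpen {w : Euc n | 𝒜.inner < ‖w‖} := isOpen_lt continuous_const continuous_norm
    have hv' : 𝒜.inner < ‖v‖ := lt_of_lt_of_le 𝒜.inner_lt (not_lt.mp hv)
    filter_upwards [hopen.mem_nhds hv'] with w hw
    exact 𝒜.comp_eq_zero X α hw

end ChartData

end Pool.Agent.Helper76.SobDiff
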