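import Pool.Agent.Helper76.SobDiff.TimeCut

/-!
# Fragmentation of diffeomorphisms of the sphere
-/

open scoped Manifold ContDiff ENNReal RealInnerProductSpace Topology
open MeasureTheory Set Filter

noncomputable section

namespace Pool.Agent.Helper76.SobDiff

variable {n : ℕ}

/-- `ψ` is isotopic to the identity through diffeomorphisms that are the identity near `y` -/
def NearId (y : Sph n) (ψ : Diffeo n) : Prop :=
  ∃ γ : ℝ → Diffeo n, SmoothFam γ ∧ γ 0 = Diffeo.one n ∧ γ 1 = ψ ∧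
    ∃ U ∈ 𝓝 y, ∀ t, ∀ x ∈ U, γ t x = x

lemma cmp_assoc (a b c : Diffeo n) : cmp (cmp a b) c = cmp a (cmp b c) := rfl

lemma one_cmp (a : Diffeo n) : cmp (Diffeo.one n) a = a := by ext x; rfl
lemma cmp_one (a : Diffeo n) : cmp a (Diffeo.one n) = a := by ext x; rfl

lemma cmp_symm_self (a : Diffeo n) : cmp a a.symm = Diffeo.one n :=
  Diffeomorph.ext fun x => a.apply_symm_apply x
lemma symm_cmp_self (a : Diffeo n) : cmp a.symm a = Diffeo.one n :=
  Diffeomorph.ext fun x => a.symm_apply_apply x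

lemma NearId.one (y : Sph n) : NearId y (Diffeo.one n) :=
  ⟨fun _ => Diffeo.one n, SmoothFam.const _, rfl, rfl, univ, univ_mem, fun _ _ _ => rfl⟩

lemma NearId.comp {y : Sph n} {a b : Diffeo n} (ha : NearId y a) (hb : NearId y b) :
    NearId y (cmp a b) := by
  obtain ⟨α, a1, a2, a3, U, hU, a4⟩ := ha
  obtain ⟨β, b1, b2, b3, V, hV, b4⟩ := hb
  refine ⟨fun t => cmp (α t) (β t), a1.comp b1, ?_, ?_, U ∩ V, inter_mem hU hV, ?_⟩
  · simp only [a2, b2]
    rfl
  · simp only [a3, b3]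
  · intro t x hx
    rw [cmp_apply, b4 t x hx.2, a4 t x hx.1]

lemma NearId.conj {y : Sph n} {a : Diffeo n} (ha : NearId y a) (b : Diffeo n) :
    NearId (b y) (cmp b (cmp a b.symm)) := by
  obtain ⟨α, a1, a2, a3, U, hU, a4⟩ := ha
  refine ⟨fun t => cmp b (cmp (α t) b.symm),
    (SmoothFam.const b).comp (a1.comp (SmoothFam.const b.symm)), ?_, ?_, b.symm ⁻¹' U, ?_, ?_⟩
  · simp only [a2]
    rw [one_cmp, cmp_symm_self]
  · simp only [a3]
  · apply b.symm.continuous.continuousAt.preimage_mem_nhds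
    rw [b.symm_apply_apply]
    exact hU
  · intro t x hx
    rw [cmp_apply, cmp_apply, a4 t _ hx, b.apply_symm_apply]

lemma NearId.apply_self {y : Sph n} {a : Diffeo n} (ha : NearId y a) : a y = y := by
  obtain ⟨α, _, _, a3, U, hU, a4⟩ := ha
  rw [← a3]
  exact a4 1 y (mem_of_mem_nhds hU)

/-- a curve of points does not fill the sphere of dimension at least two -/
lemma exists_off_path (hn : 2 ≤ n) {γ : ℝ → Diffeo n} (hγ : SmoothFam γ) (x0 : Sph n) :
    ∃ y0 : Sph n, ∀ t, γ t x0 ≠ y0 := by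
  have h1 : ContDiff ℝ 1 (fun q : ℝ × ℝ => q.2 • (γ q.1 x0 : Amb n)) := by
    have h2 : ContDiff ℝ ∞ (fun t : ℝ => (γ t x0 : Amb n)) := by
      rw [contDiff_iff_contDiffAt]
      intro t
      have h3 := (contDiffAt_amb hγ t (coe_sph_ne_zero x0)).comp t
        (contDiffAt_id.prodMk contDiffAt_const : ContDiffAt ℝ ∞ (fun t : ℝ => (t, (x0 : Amb n))) t)
      refine h3.congr_of_eventuallyEq (Eventually.of_forall fun τ => ?_)
      simp [amb]
    exact contDiff_snd.smul ((h2.of_le (by exact_mod_cast le_top)).comp contDiff_fst)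
  have hdense := h1.dense_compl_range_of_finrank_lt_finrank (by
    simp
    omega)
  have hne : ({0}ᶜ : Set (Amb n)).Nonempty := ⟨(x0 : Amb n), coe_sph_ne_zero x0⟩
  obtain ⟨z, hz1, hz2⟩ := hdense.inter_open_nonempty {0}ᶜ isOpen_compl_singleton hne
  have hz0 : z ≠ 0 := hz1
  refine ⟨nrm z, fun t ht => hz2 ⟨(t, ‖z‖), ?_⟩⟩
  simp only
  rw [ht]
  exact norm_smul_nrm hz0

/-- smooth cut-off functions -/
lemma exists_cutoff {K : Set (Sph n)} (hK : IsCompact K) {y0 : Sph n} (hy : y0 ∉ K) :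
    ∃ κ : Sph n → ℝ, ContMDiff (𝓡 n) 𝓘(ℝ, ℝ) ∞ κ ∧ (∃ U ∈ 𝓝 y0, ∀ x ∈ U, κ x = 0) ∧
      ∀ x ∈ K, ∀ᶠ z in 𝓝 x, κ z = 1 := by
  have hfact : Fact (Module.finrank ℝ (Amb n) = n + 1) := ⟨by simp⟩
  have hKc : IsClosed ((fun x : Sph n => (x : Amb n)) '' K) :=
    (hK.image continuous_subtype_val).isClosed
  have hy' : (y0 : Amb n) ∈ ((fun x : Sph n => (x : Amb n)) '' K)ᶜ := by
    rintro ⟨x, hx, hxy⟩
    exact hy (by rwa [← Subtype.ext hxy])
  obtain ⟨r, hr, hball⟩ := Metric.isOpen_iff.mp hKc.isOpen_compl (y0 : Amb n) hy'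
  let f : ContDiffBump (y0 : Amb n) := ⟨r / 3, r / 2, by positivity, by linarith⟩
  refine ⟨fun x => 1 - f (x : Amb n), ?_, ?_, ?_⟩
  · have h1 : ContDiff ℝ ∞ (fun z : Amb n => 1 - f z) := contDiff_const.sub f.contDiff
    exact h1.contMDiff.comp contMDiff_coe_sphere
  · refine ⟨(fun x : Sph n => (x : Amb n)) ⁻¹' Metric.ball (y0 : Amb n) (r / 3), ?_, ?_⟩
    · exact continuous_subtype_val.continuousAt.preimage_mem_nhds
        (Metric.ball_mem_nhds _ (by positivity))
    · intro x hx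
      have : f (x : Amb n) = 1 := f.one_of_mem_closedBall (Metric.ball_subset_closedBall hx)
      simp only [this, sub_self]
  · intro x hx
    have hd : r ≤ dist (x : Amb n) (y0 : Amb n) := by
      by_contra hcon
      push Not at hcon
      exact hball (Metric.mem_ball.mpr hcon) ⟨x, hx, rfl⟩
    have hcont : ContinuousAt (fun z : Sph n => dist (z : Amb n) (y0 : Amb n)) x := by fun_prop
    have hev := hcont.eventually (lt_mem_nhds (show r / 2 < dist (x : Amb n) (y0 : Amb n) by linarith))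
    filter_upwards [hev] with z hz
    have : f (z : Amb n) = 0 := f.zero_of_le_dist (le_of_lt hz)
    simp only [this, sub_zero]

/-- one step of the fragmentation -/
lemma fragment_step {γ : ℝ → Diffeo n} (hγ : SmoothFam γ) {x0 y0 : Sph n} {κ : Sph n → ℝ}
    (hκ0 : ∃ U ∈ 𝓝 y0, ∀ x ∈ U, κ x = 0) {t h : ℝ} (hκ1 : ∀ᶠ z in 𝓝 (γ t x0), κ z = 1)
    {θ : ℝ → Diffeo n} (hθ : SmoothFam θ)
    (hθe : ∀ σ x, θ σ x = γ (t + h * Real.smoothTransition σ * κ x) ((γ t).symm x))
    (hind : ∃ a b : Diffeo n, NearId x0 a ∧ NearId y0 b ∧ γ t = cmp b a) :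
    ∃ a b : Diffeo n, NearId x0 a ∧ NearId y0 b ∧ γ (t + h) = cmp b a := by
  obtain ⟨a, b, ha, hb, hab⟩ := hind
  have hθ0 : θ 0 = Diffeo.one n := by
    apply Diffeomorph.ext
    intro x
    rw [hθe]
    simp
  have h1 : NearId y0 (θ 1) := by
    obtain ⟨U, hU, hU0⟩ := hκ0
    refine ⟨θ, hθ, hθ0, rfl, U, hU, fun σ x hx => ?_⟩
    rw [hθe, hU0 x hx]
    simp
  set r : Diffeo n := cmp (θ 1).symm (cmp (γ (t + h)) (γ t).symm) with hr
  have h2 : NearId (γ t x0) r := by
    have hS : ContDiff ℝ ∞ (fun σ : ℝ => t + h * Real.smoothTransition σ) :=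
      contDiff_const.add (contDiff_const.mul (Real.smoothTransition.contDiff (n := ⊤)))
    refine ⟨fun σ => cmp (θ σ).symm (cmp (γ (t + h * Real.smoothTransition σ)) (γ t).symm),
      hθ.symm.comp ((hγ.reparam hS).comp (SmoothFam.const _)), ?_, ?_, _, hκ1, ?_⟩
    · simp only [hθ0, Real.smoothTransition.zero, mul_zero, add_zero]
      rw [cmp_symm_self]
      rfl
    · simp only [Real.smoothTransition.one, mul_one]
      rfl
    · intro σ x hx
      have hx' : κ x = 1 := hx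
      rw [cmp_apply, cmp_apply]
      have h3 := hθe σ x
      rw [hx', mul_one] at h3
      rw [← h3, (θ σ).symm_apply_apply]
  have h3 : NearId x0 (cmp b.symm (cmp r b)) := by
    have h4 := h2.conj b.symm
    have h5 : b.symm (γ t x0) = x0 := by
      rw [hab, cmp_apply, ha.apply_self, b.symm_apply_apply]
    rw [h5] at h4
    exact h4
  refine ⟨cmp (cmp b.symm (cmp r b)) a, cmp (θ 1) b, h3.comp ha, h1.comp hb, ?_⟩
  apply Diffeomorph.ext
  intro x
  simp only [cmp_apply, b.apply_symm_apply]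
  have h6 : b (a x) = γ t x := by rw [hab]; rfl
  rw [h6, hr]
  simp only [cmp_apply, (γ t).symm_apply_apply, (θ 1).apply_symm_apply]

theorem fragmentation (hn : 2 ≤ n) {γ : ℝ → Diffeo n} (hγ : SmoothFam γ)
    (h0 : γ 0 = Diffeo.one n) (x0 : Sph n) :
    ∃ (y0 : Sph n) (a b : Diffeo n), NearId x0 a ∧ NearId y0 b ∧ γ 1 = cmp b a := by
  obtain ⟨y0, hy0⟩ := exists_off_path hn hγ x0
  have hcurve : Continuous (fun t : ℝ => γ t x0) := by
    have h1 : Continuous (fun q : ℝ × Sph n => γ q.1 q.2) := ContMDiff.continuous hγ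
    exact h1.comp (continuous_id.prodMk continuous_const)
  have hK : IsCompact ((fun t : ℝ => γ t x0) '' Icc 0 1) := isCompact_Icc.image hcurve
  obtain ⟨κ, hκs, hκ0, hκ1⟩ := exists_cutoff hK (y0 := y0) (by
    rintro ⟨t, _, ht⟩
    exact hy0 t ht)
  obtain ⟨h', hh', hsmall⟩ := small_time hγ hκs
  obtain ⟨m, hm⟩ := exists_nat_gt (1 / h')
  have hm0 : 0 < (m : ℝ) := lt_trans (by positivity) hm
  set h : ℝ := 1 / m with hh
  have hhpos : 0 < h := by positivity
  have hhlt : h < h' := by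
    rw [hh, div_lt_iff₀ hm0]
    rw [div_lt_iff₀ hh'] at hm
    linarith
  have hind : ∀ i : ℕ, i ≤ m →
      ∃ a b : Diffeo n, NearId x0 a ∧ NearId y0 b ∧ γ (i * h) = cmp b a := by
    intro i
    induction i with
    | zero =>
      intro _
      refine ⟨Diffeo.one n, Diffeo.one n, NearId.one _, NearId.one _, ?_⟩
      simp only [Nat.cast_zero, zero_mul]
      rw [h0]
      rfl
    | succ i ih =>
      intro hi
      have ht : (i * h : ℝ) ∈ Icc (0 : ℝ) 1 := by
        constructor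
        · positivity
        · have : (i : ℝ) ≤ m := by exact_mod_cast (by omega : i ≤ m)
          rw [hh, mul_one_div, div_le_one hm0]
          exact this
      obtain ⟨θ, hθ, hθe⟩ := hsmall h hhpos.le hhlt (i * h) ht
      have := fragment_step hγ hκ0 (hκ1 _ ⟨_, ht, rfl⟩) hθ hθe (ih (by omega))
      have e : ((i + 1 : ℕ) : ℝ) * h = i * h + h := by push_cast; ring
      rw [e]
      exact this
  obtain ⟨a, b, h1, h2, h3⟩ := hind m le_rfl
  have e : (m : ℝ) * h = 1 := by rw [hh, mul_one_div_cancel hm0.ne']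
  rw [e] at h3
  exact ⟨y0, a, b, h1, h2, h3⟩

end Pool.Agent.Helper76.SobDiff
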