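import Pool.Agent.Helper76.SobDiff.Cost

/-!
# Rotations of the sphere
-/

open scoped Manifold ContDiff ENNReal RealInnerProductSpace Topology
open MeasureTheory Set Filter

noncomputable section

namespace Pool.Agent.Helper76.SobDiff

variable {n : ℕ}

/-- rotation by the angle `θ` in the plane of `v` and `w` -/
def rfun (v w x : Amb n) (θ : ℝ) : Amb n :=
  x + ((Real.cos θ - 1) * ⟪v, x⟫ - Real.sin θ * ⟪w, x⟫) • v +
    (Real.sin θ * ⟪v, x⟫ + (Real.cos θ - 1) * ⟪w, x⟫) • w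

/-- the generator of the rotations, as a continuous linear map -/
def rgen (v w : Amb n) : Amb n →L[ℝ] Amb n :=
  (innerSL ℝ v).smulRight w - (innerSL ℝ w).smulRight v

lemma rgen_apply (v w y : Amb n) : rgen v w y = ⟪v, y⟫ • w - ⟪w, y⟫ • v := by
  simp [rgen]

lemma norm_rgen_le (v w : Sph n) : ‖rgen (v : Amb n) (w : Amb n)‖ ≤ 2 := by
  apply ContinuousLinearMap.opNorm_le_bound _ (by norm_num)
  intro y
  rw [rgen_apply]
  have h1 := abs_real_inner_le_norm (v : Amb n) y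
  have h2 := abs_real_inner_le_norm (w : Amb n) y
  rw [norm_coe_sph, one_mul] at h1 h2
  calc ‖⟪(v : Amb n), y⟫ • (w : Amb n) - ⟪(w : Amb n), y⟫ • (v : Amb n)‖
      ≤ ‖⟪(v : Amb n), y⟫ • (w : Amb n)‖ + ‖⟪(w : Amb n), y⟫ • (v : Amb n)‖ := norm_sub_le _ _
    _ ≤ ‖y‖ + ‖y‖ := by
        rw [norm_smul, norm_smul, norm_coe_sph, norm_coe_sph, mul_one, mul_one]
        exact add_le_add h1 h2
    _ = 2 * ‖y‖ := by ring

section

variable {v w : Sph n} (hvw : ⟪(v : Amb n), (w : Amb n)⟫ = 0)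

lemma inner_self_sph' (v : Sph n) : ⟪(v : Amb n), (v : Amb n)⟫ = 1 := by
  rw [real_inner_self_eq_norm_sq, norm_coe_sph]; norm_num

include hvw

lemma inner_v_rfun (x : Amb n) (θ : ℝ) : ⟪(v : Amb n), rfun (v : Amb n) (w : Amb n) x θ⟫ =
    Real.cos θ * ⟪(v : Amb n), x⟫ - Real.sin θ * ⟪(w : Amb n), x⟫ := by
  unfold rfun
  rw [inner_add_right, inner_add_right, real_inner_smul_right, real_inner_smul_right,
    inner_self_sph', hvw]
  ring

lemma inner_w_rfun (x : Amb n) (θ : ℝ) : ⟪(w : Amb n), rfun (v : Amb n) (w : Amb n) x θ⟫ =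
    Real.sin θ * ⟪(v : Amb n), x⟫ + Real.cos θ * ⟪(w : Amb n), x⟫ := by
  have hwv : ⟪(w : Amb n), (v : Amb n)⟫ = 0 := by rw [real_inner_comm]; exact hvw
  unfold rfun
  rw [inner_add_right, inner_add_right, real_inner_smul_right, real_inner_smul_right,
    inner_self_sph', hwv]
  ring

lemma rfun_rfun (x : Amb n) (θ φ : ℝ) :
    rfun (v : Amb n) (w : Amb n) (rfun (v : Amb n) (w : Amb n) x φ) θ =
      rfun (v : Amb n) (w : Amb n) x (θ + φ) := by
  have h1 := inner_v_rfun hvw x φ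
  have h2 := inner_w_rfun hvw x φ
  have h3 : rfun (v : Amb n) (w : Amb n) (rfun (v : Amb n) (w : Amb n) x φ) θ =
      rfun (v : Amb n) (w : Amb n) x φ +
      ((Real.cos θ - 1) * ⟪(v : Amb n), rfun (v : Amb n) (w : Amb n) x φ⟫ -
        Real.sin θ * ⟪(w : Amb n), rfun (v : Amb n) (w : Amb n) x φ⟫) • (v : Amb n) +
      (Real.sin θ * ⟪(v : Amb n), rfun (v : Amb n) (w : Amb n) x φ⟫ +
        (Real.cos θ - 1) * ⟪(w : Amb n), rfun (v : Amb n) (w : Amb n) x φ⟫) • (w : Amb n) := rfl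
  rw [h3, h1, h2]
  unfold rfun
  rw [Real.cos_add, Real.sin_add]
  match_scalars <;> ring

omit hvw in
lemma rfun_zero (x : Amb n) : rfun (v : Amb n) (w : Amb n) x 0 = x := by
  unfold rfun
  simp

lemma norm_rfun (x : Amb n) (θ : ℝ) : ‖rfun (v : Amb n) (w : Amb n) x θ‖ = ‖x‖ := by
  have hwv : ⟪(w : Amb n), (v : Amb n)⟫ = 0 := by rw [real_inner_comm]; exact hvw
  have hxv : ⟪x, (v : Amb n)⟫ = ⟪(v : Amb n), x⟫ := real_inner_comm _ _
  have hxw : ⟪x, (w : Amb n)⟫ = ⟪(w : Amb n), x⟫ := real_inner_comm _ _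
  have h1 : ⟪rfun (v : Amb n) (w : Amb n) x θ, rfun (v : Amb n) (w : Amb n) x θ⟫ = ⟪x, x⟫ := by
    unfold rfun
    simp only [real_inner_smul_left, real_inner_smul_right, inner_add_left, inner_add_right,
      inner_self_sph', hwv, hvw, hxv, hxw]
    have := Real.sin_sq_add_cos_sq θ
    have h2 : Real.cos θ ^ 2 = 1 - Real.sin θ ^ 2 := by linarith
    ring_nf
    rw [h2]
    ring
  rw [real_inner_self_eq_norm_sq, real_inner_self_eq_norm_sq] at h1
  have h2 := norm_nonneg (rfun (v : Amb n) (w : Amb n) x θ)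
  have h3 := norm_nonneg x
  nlinarith [sq_nonneg (‖rfun (v : Amb n) (w : Amb n) x θ‖ - ‖x‖),
    sq_nonneg (‖rfun (v : Amb n) (w : Amb n) x θ‖ + ‖x‖)]

omit hvw in
lemma hasDerivAt_rfun (x : Amb n) (θ : ℝ) :
    HasDerivAt (fun θ => rfun (v : Amb n) (w : Amb n) x θ)
      ((-Real.sin θ * ⟪(v : Amb n), x⟫ - Real.cos θ * ⟪(w : Amb n), x⟫) • (v : Amb n) +
        (Real.cos θ * ⟪(v : Amb n), x⟫ - Real.sin θ * ⟪(w : Amb n), x⟫) • (w : Amb n)) θ := by
  have hc := Real.hasDerivAt_cos θ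
  have hs := Real.hasDerivAt_sin θ
  have h1 : HasDerivAt (fun θ => (Real.cos θ - 1) * ⟪(v : Amb n), x⟫ -
      Real.sin θ * ⟪(w : Amb n), x⟫)
      (-Real.sin θ * ⟪(v : Amb n), x⟫ - Real.cos θ * ⟪(w : Amb n), x⟫) θ :=
    ((hc.sub_const 1).mul_const _).sub (hs.mul_const _)
  have h2 : HasDerivAt (fun θ => Real.sin θ * ⟪(v : Amb n), x⟫ +
      (Real.cos θ - 1) * ⟪(w : Amb n), x⟫)
      (Real.cos θ * ⟪(v : Amb n), x⟫ - Real.sin θ * ⟪(w : Amb n), x⟫) θ := by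
    have h3 : HasDerivAt (fun θ => Real.sin θ * ⟪(v : Amb n), x⟫ +
      (Real.cos θ - 1) * ⟪(w : Amb n), x⟫)
      (Real.cos θ * ⟪(v : Amb n), x⟫ + -Real.sin θ * ⟪(w : Amb n), x⟫) θ :=
      (hs.mul_const _).add ((hc.sub_const 1).mul_const _)
    convert h3 using 1
    ring
  have h3 := ((h1.smul_const (v : Amb n)).const_add x).add (h2.smul_const (w : Amb n))
  exact h3

lemma hasDerivAt_rfun' (x : Amb n) (θ : ℝ) :
    HasDerivAt (fun θ => rfun (v : Amb n) (w : Amb n) x θ)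
      (rgen (v : Amb n) (w : Amb n) (rfun (v : Amb n) (w : Amb n) x θ)) θ := by
  have h := hasDerivAt_rfun (v := v) (w := w) x θ
  convert h using 1
  rw [rgen_apply, inner_v_rfun hvw, inner_w_rfun hvw]
  match_scalars <;> ring

end

/-- rotation as a map of the sphere -/
def rotS {v w : Sph n} (hvw : ⟪(v : Amb n), (w : Amb n)⟫ = 0) (θ : ℝ) (x : Sph n) : Sph n :=
  ⟨rfun (v : Amb n) (w : Amb n) (x : Amb n) θ, by
    simp [norm_rfun hvw]⟩

lemma coe_rotS {v w : Sph n} (hvw : ⟪(v : Amb n), (w : Amb n)⟫ = 0) (θ : ℝ) (x : Sph n) :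
    (rotS hvw θ x : Amb n) = rfun (v : Amb n) (w : Amb n) (x : Amb n) θ := rfl

lemma rotS_rotS {v w : Sph n} (hvw : ⟪(v : Amb n), (w : Amb n)⟫ = 0) (θ φ : ℝ) (x : Sph n) :
    rotS hvw θ (rotS hvw φ x) = rotS hvw (θ + φ) x := by
  apply Subtype.ext
  rw [coe_rotS, coe_rotS, coe_rotS, rfun_rfun hvw]

lemma rotS_zero {v w : Sph n} (hvw : ⟪(v : Amb n), (w : Amb n)⟫ = 0) (x : Sph n) :
    rotS hvw 0 x = x := by
  apply Subtype.ext
  rw [coe_rotS, rfun_zero]

lemma contMDiff_rotS {v w : Sph n} (hvw : ⟪(v : Amb n), (w : Amb n)⟫ = 0) :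
    ContMDiff (𝓘(ℝ, ℝ).prod (𝓡 n)) (𝓡 n) ∞ (fun q : ℝ × Sph n => rotS hvw q.1 q.2) := by
  rw [contMDiff_sph_iff]
  refine contMDiff_of_ambient
    (g := fun q : ℝ × Amb n => rfun (v : Amb n) (w : Amb n) q.2 q.1) ?_ (fun p x => rfl)
  intro t x
  have hv : ContDiff ℝ ∞ (fun q : ℝ × Amb n => ⟪(v : Amb n), q.2⟫) :=
    contDiff_const.inner ℝ contDiff_snd
  have hw : ContDiff ℝ ∞ (fun q : ℝ × Amb n => ⟪(w : Amb n), q.2⟫) :=
    contDiff_const.inner ℝ contDiff_snd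
  have hc : ContDiff ℝ ∞ (fun q : ℝ × Amb n => Real.cos q.1) :=
    Real.contDiff_cos.comp contDiff_fst
  have hs : ContDiff ℝ ∞ (fun q : ℝ × Amb n => Real.sin q.1) :=
    Real.contDiff_sin.comp contDiff_fst
  unfold rfun
  apply ContDiff.contDiffAt
  apply ContDiff.add
  · apply ContDiff.add contDiff_snd
    exact (((hc.sub contDiff_const).mul hv).sub (hs.mul hw)).smul contDiff_const
  · exact ((hs.mul hv).add ((hc.sub contDiff_const).mul hw)).smul contDiff_const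

/-- rotation as a diffeomorphism -/
def rot {v w : Sph n} (hvw : ⟪(v : Amb n), (w : Amb n)⟫ = 0) (θ : ℝ) : Diffeo n where
  toFun := rotS hvw θ
  invFun := rotS hvw (-θ)
  left_inv x := by rw [rotS_rotS]; simp [rotS_zero]
  right_inv x := by rw [rotS_rotS]; simp [rotS_zero]
  contMDiff_toFun := by
    have h1 : ContMDiff (𝓡 n) (𝓘(ℝ, ℝ).prod (𝓡 n)) ∞ (fun y : Sph n => (θ, y)) :=
      contMDiff_const.prodMk contMDiff_id
    exact (contMDiff_rotS hvw).comp h1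
  contMDiff_invFun := by
    have h1 : ContMDiff (𝓡 n) (𝓘(ℝ, ℝ).prod (𝓡 n)) ∞ (fun y : Sph n => (-θ, y)) :=
      contMDiff_const.prodMk contMDiff_id
    exact (contMDiff_rotS hvw).comp h1

lemma smoothFam_rot {v w : Sph n} (hvw : ⟪(v : Amb n), (w : Amb n)⟫ = 0) :
    SmoothFam (rot hvw) := contMDiff_rotS hvw

lemma vel_rot {v w : Sph n} (hvw : ⟪(v : Amb n), (w : Amb n)⟫ = 0) (θ t : ℝ) (y : Sph n) :
    vel (fun t => rot hvw (θ * t)) t y = θ • rgen (v : Amb n) (w : Amb n) (y : Amb n) := by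
  set x : Sph n := (rot hvw (θ * t)).symm y with hx
  have hxy : rot hvw (θ * t) x = y := (rot hvw (θ * t)).apply_symm_apply y
  have h1 := hasDerivAt_rfun' hvw (x : Amb n) (θ * t)
  have h2 : HasDerivAt (fun t : ℝ => θ * t) θ t := by
    simpa using (hasDerivAt_id t).const_mul θ
  have h3 := h1.scomp t h2
  have h4 : rfun (v : Amb n) (w : Amb n) (x : Amb n) (θ * t) = (y : Amb n) := by
    have := congrArg (fun z : Sph n => (z : Amb n)) hxy
    exact this
  rw [h4] at h3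
  exact h3.deriv

/-- uniform bound of the derivatives of the exponential charts on the inner ball -/
lemma ChartData.exists_exp_bound (𝒜 : ChartData n) (k : ℕ) : ∃ B : ℝ, 0 ≤ B ∧ ∀ α, ∀ i ≤ k,
    ∀ v : Euc n, ‖v‖ ≤ 𝒜.inner → ‖iteratedFDeriv ℝ i (fun w => (𝒜.exp α w : Amb n)) v‖ ≤ B := by
  have h : ∀ (α : 𝒜.ι) (i : ℕ), ∃ B : ℝ, ∀ v : Euc n, ‖v‖ ≤ 𝒜.inner →
      ‖iteratedFDeriv ℝ i (fun w => (𝒜.exp α w : Amb n)) v‖ ≤ B := by
    intro α i
    have hc : ContDiff ℝ ∞ (fun w => (𝒜.exp α w : Amb n)) :=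
      contDiff_expMap (𝒜.centre α) (𝒜.frame α)
    have hcont := hc.continuous_iteratedFDeriv (m := i) (by exact_mod_cast le_top)
    have hK : IsCompact (Metric.closedBall (0 : Euc n) 𝒜.inner) := isCompact_closedBall _ _
    obtain ⟨B, hB⟩ := hK.exists_bound_of_continuousOn hcont.continuousOn
    exact ⟨B, fun v hv => hB v (by simpa using hv)⟩
  choose B hB using h
  refine ⟨∑ α, ∑ i ∈ Finset.range (k + 1), |B α i|, by positivity, ?_⟩
  intro α i hi v hv
  calc ‖iteratedFDeriv ℝ i (fun w => (𝒜.exp α w : Amb n)) v‖ ≤ B α i := hB α i v hv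
    _ ≤ |B α i| := le_abs_self _
    _ ≤ ∑ i ∈ Finset.range (k + 1), |B α i| :=
        Finset.single_le_sum (f := fun i => |B α i|) (fun i _ => abs_nonneg _)
          (Finset.mem_range.mpr (by omega))
    _ ≤ ∑ α, ∑ i ∈ Finset.range (k + 1), |B α i| :=
        Finset.single_le_sum (f := fun α => ∑ i ∈ Finset.range (k + 1), |B α i|)
          (fun α _ => Finset.sum_nonneg fun i _ => abs_nonneg _) (Finset.mem_univ α)

lemma ChartData.inner_nonneg_or (𝒜 : ChartData n) : 0 ≤ |𝒜.inner| := abs_nonneg _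

theorem rot_cost (𝒜 : ChartData n) (hn : 1 ≤ n) {s p : ℝ} (hp : 1 ≤ p) (hs : 0 ≤ s) :
    ∃ C : ℝ, 0 ≤ C ∧ ∀ (v w : Sph n) (hvw : ⟪(v : Amb n), (w : Amb n)⟫ = 0) (θ : ℝ),
      0 ≤ θ → θ ≤ Real.pi → HasCost 𝒜 s p (rot hvw θ) C := by
  obtain ⟨CG, hCG0, hfield⟩ := 𝒜.fieldNorm_le hn hp hs (abs_nonneg 𝒜.inner)
  obtain ⟨B, hB0, hB⟩ := 𝒜.exists_exp_bound (⌊s⌋₊ + 1)
  have hpi := Real.pi_pos
  refine ⟨CG * (Real.pi * (2 * B)), by positivity, ?_⟩
  intro v w hvw θ hθ0 hθ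
  have hγ : SmoothFam (fun t => rot hvw (θ * t)) :=
    (smoothFam_rot hvw).reparam (contDiff_const.mul contDiff_id)
  have h0 : (fun t => rot hvw (θ * t)) 0 = Diffeo.one n := by
    apply Diffeomorph.ext
    intro x
    simp only [mul_zero]
    exact rotS_zero hvw x
  have h1 : (fun t => rot hvw (θ * t)) 1 = rot hvw θ := by simp
  rw [← h1]
  apply hasCost_of_bound hγ h0 (by positivity)
  intro t ht
  have key := hfield (Real.pi * (2 * B)) 1 _ (smoothField_vel hγ t) (by positivity) one_pos le_rfl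
    ?_ ?_
  · simpa using key
  · intro α
    refine ⟨0, fun x hx _ => ?_⟩
    rw [sub_zero, mul_one]
    exact hx.trans (le_abs_self _)
  · intro α j hj x hx
    rw [Real.one_rpow, mul_one]
    have he : (fun z => vel (fun t => rot hvw (θ * t)) t (𝒜.exp α z)) =
        (θ • rgen (v : Amb n) (w : Amb n)) ∘ (fun z => (𝒜.exp α z : Amb n)) := by
      funext z
      rw [vel_rot hvw]
      rfl
    have hc : ContDiff ℝ ∞ (fun w => (𝒜.exp α w : Amb n)) :=
      contDiff_expMap (𝒜.centre α) (𝒜.frame α)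
    rw [he, ContinuousLinearMap.iteratedFDeriv_comp_left _ hc.contDiffAt
      (by exact_mod_cast le_top)]
    refine (ContinuousLinearMap.norm_compContinuousMultilinearMap_le _ _).trans ?_
    have hg : ‖θ • rgen (v : Amb n) (w : Amb n)‖ ≤ Real.pi * 2 := by
      rw [norm_smul, Real.norm_of_nonneg hθ0]
      exact mul_le_mul hθ (norm_rgen_le v w) (norm_nonneg _) hpi.le
    calc ‖θ • rgen (v : Amb n) (w : Amb n)‖ *
          ‖iteratedFDeriv ℝ j (fun z => (𝒜.exp α z : Amb n)) x‖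
        ≤ (Real.pi * 2) * B := mul_le_mul hg (hB α j hj x hx) (norm_nonneg _) (by positivity)
      _ = Real.pi * (2 * B) := by ring

/-- existence of a unit vector orthogonal to a given one -/
lemma exists_orth (hn : 1 ≤ n) (v : Sph n) : ∃ w : Sph n, ⟪(v : Amb n), (w : Amb n)⟫ = 0 := by
  have h1 : Module.finrank ℝ (ℝ ∙ (v : Amb n))ᗮ = n := by
    have := (ℝ ∙ (v : Amb n)).finrank_add_finrank_orthogonal
    rw [finrank_span_singleton (coe_sph_ne_zero v)] at this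
    simp at this
    omega
  have h2 : 0 < Module.finrank ℝ (ℝ ∙ (v : Amb n))ᗮ := by omega
  have : Nontrivial (ℝ ∙ (v : Amb n))ᗮ := Module.finrank_pos_iff.mp h2
  obtain ⟨w, hw⟩ := exists_norm_eq (ℝ ∙ (v : Amb n))ᗮ (c := 1) zero_le_one
  refine ⟨⟨(w : Amb n), by simpa using hw⟩, ?_⟩
  exact Submodule.mem_orthogonal_singleton_iff_inner_right.mp w.2

theorem exists_rot (𝒜 : ChartData n) (hn : 1 ≤ n) {s p : ℝ} (hp : 1 ≤ p) (hs : 0 ≤ s) :
    ∃ C : ℝ, 0 ≤ C ∧ ∀ v y : Sph n, ∃ r : Diffeo n, r v = y ∧ HasCost 𝒜 s p r C := by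
  obtain ⟨C, hC0, hC⟩ := rot_cost 𝒜 hn hp hs
  refine ⟨C, hC0, fun v y => ?_⟩
  set c := ⟪(v : Amb n), (y : Amb n)⟫ with hc
  have hb := abs_real_inner_le_norm (v : Amb n) (y : Amb n)
  rw [norm_coe_sph, norm_coe_sph, mul_one, ← hc] at hb
  obtain ⟨hb1, hb2⟩ := abs_le.mp hb
  have hcos : Real.cos (Real.arccos c) = c := Real.cos_arccos hb1 hb2
  have hsin : Real.sin (Real.arccos c) = Real.sqrt (1 - c ^ 2) := Real.sin_arccos c
  have hnorm : ‖(y : Amb n) - c • (v : Amb n)‖ ^ 2 = 1 - c ^ 2 := by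
    rw [← real_inner_self_eq_norm_sq]
    simp only [inner_sub_left, inner_sub_right, real_inner_smul_left, real_inner_smul_right,
      inner_self_sph']
    rw [real_inner_comm (v : Amb n) (y : Amb n), ← hc]
    ring
  have hnorm' : ‖(y : Amb n) - c • (v : Amb n)‖ = Real.sqrt (1 - c ^ 2) := by
    rw [← hnorm, Real.sqrt_sq (norm_nonneg _)]
  have hex : ∃ w : Sph n, ⟪(v : Amb n), (w : Amb n)⟫ = 0 ∧
      (y : Amb n) = c • (v : Amb n) + Real.sqrt (1 - c ^ 2) • (w : Amb n) := by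
    by_cases h0 : (y : Amb n) - c • (v : Amb n) = 0
    · obtain ⟨w, hw⟩ := exists_orth hn v
      refine ⟨w, hw, ?_⟩
      rw [h0, norm_zero] at hnorm'
      rw [← hnorm', zero_smul, add_zero]
      exact sub_eq_zero.mp h0
    · have hpos : 0 < ‖(y : Amb n) - c • (v : Amb n)‖ := norm_pos_iff.mpr h0
      refine ⟨⟨‖(y : Amb n) - c • (v : Amb n)‖⁻¹ • ((y : Amb n) - c • (v : Amb n)), ?_⟩, ?_, ?_⟩
      · simp [norm_smul, hpos.ne']
      · simp only
        rw [real_inner_smul_right, inner_sub_right, real_inner_smul_right, inner_self_sph', ← hc]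
        ring
      · simp only
        rw [← hnorm', smul_smul, mul_inv_cancel₀ hpos.ne', one_smul]
        abel
  obtain ⟨w, hvw, hy⟩ := hex
  refine ⟨rot hvw (Real.arccos c), ?_, hC v w hvw _ (Real.arccos_nonneg c) (Real.arccos_le_pi c)⟩
  apply Subtype.ext
  change rfun (v : Amb n) (w : Amb n) (v : Amb n) (Real.arccos c) = (y : Amb n)
  have hwv : ⟪(w : Amb n), (v : Amb n)⟫ = 0 := by rw [real_inner_comm]; exact hvw
  unfold rfun
  rw [inner_self_sph', hwv, hcos, hsin, hy]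
  match_scalars <;> ring

end Pool.Agent.Helper76.SobDiff
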