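import Pool.Agent.Helper76.SobDiff.ScaledMain
import Pool.Agent.Helper76.SobDiff.Rotation
import Pool.Agent.Helper76.SobDiff.Fragment

/-!
# Contractions of a hemisphere with uniformly bounded cost
-/

open scoped Manifold ContDiff ENNReal RealInnerProductSpace Topology
open MeasureTheory Set Filter

noncomputable section

namespace Pool.Agent.Helper76.SobDiff

variable {n : ℕ}

lemma fieldNorm_zero (𝒜 : ChartData n) {s p : ℝ} (hp : 0 < p) {X : Sph n → Amb n}
    (hX : ∀ y, X y = 0) : 𝒜.fieldNorm s p X = 0 := by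
  have hs : SmoothField (vel (fun _ : ℝ => Diffeo.one n) 0) :=
    smoothField_vel (SmoothFam.const _) 0
  have h := 𝒜.fieldNorm_smul (s := s) hp hs 0
  have h2 : X = fun y => (0 : ℝ) • vel (fun _ : ℝ => Diffeo.one n) 0 y := by
    funext y
    rw [hX, zero_smul]
  rw [h2, h]
  simp

lemma hasCost_one (𝒜 : ChartData n) {s p : ℝ} (hp : 0 < p) :
    HasCost 𝒜 s p (Diffeo.one n) 0 := by
  have h := hasCost_of_bound (𝒜 := 𝒜) (s := s) (p := p) (γ := fun _ => Diffeo.one n)
    (SmoothFam.const _) rfl le_rfl ?_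
  · exact h
  · intro t _
    rw [fieldNorm_zero 𝒜 hp]
    · simp
    · intro y
      unfold vel
      simp

/-- the cut-off in space used for the contraction -/
def kap (v : Sph n) (x : Sph n) : ℝ :=
  Real.smoothTransition (1 - 5 / 3 * ⟪(v : Amb n), (x : Amb n)⟫)

lemma contMDiff_kap (v : Sph n) : ContMDiff (𝓡 n) 𝓘(ℝ, ℝ) ∞ (kap v) := by
  have hfact : Fact (Module.finrank ℝ (Amb n) = n + 1) := ⟨by simp⟩
  have h1 : ContDiff ℝ ∞ (fun z : Amb n =>
      Real.smoothTransition (1 - 5 / 3 * ⟪(v : Amb n), z⟫)) :=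
    contDiff_smoothTransition.comp
      (contDiff_const.sub (contDiff_const.mul (contDiff_const.inner ℝ contDiff_id)))
  exact h1.contMDiff.comp contMDiff_coe_sphere

lemma kap_eq_one {v x : Sph n} (h : ⟪(v : Amb n), (x : Amb n)⟫ ≤ 0) : kap v x = 1 :=
  Real.smoothTransition.one_of_one_le (by linarith)

lemma kap_eq_zero {v x : Sph n} (h : 3 / 5 ≤ ⟪(v : Amb n), (x : Amb n)⟫) : kap v x = 0 :=
  Real.smoothTransition.zero_of_nonpos (by linarith)

/-- the basic contraction -/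
lemma exists_basic (v : Sph n) : ∃ h : ℝ, 0 < h ∧ ∃ θ : ℝ → Diffeo n, SmoothFam θ ∧
    θ 0 = Diffeo.one n ∧
    (∀ x : Sph n, ⟪(v : Amb n), (x : Amb n)⟫ ≤ 0 → θ 1 x = dilS v h x) ∧
    (∀ (t : ℝ) (x : Sph n), 3 / 5 ≤ ⟪(v : Amb n), (x : Amb n)⟫ → θ t x = x) := by
  obtain ⟨h0, hh0, hsmall⟩ := small_time (smoothFam_dil v) (contMDiff_kap v)
  obtain ⟨θ, hθ, hθe⟩ := hsmall (h0 / 2) (by positivity) (by linarith) 0 (by simp)
  refine ⟨h0 / 2, by positivity, θ, hθ, ?_, ?_, ?_⟩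
  · apply Diffeomorph.ext
    intro x
    rw [hθe, dil_symm_apply, dil_apply, dilS_dilS]
    simp [dilS_zero]
  · intro x hx
    rw [hθe, dil_symm_apply, dil_apply, dilS_dilS, kap_eq_one hx, Real.smoothTransition.one]
    simp
  · intro t x hx
    rw [hθe, dil_symm_apply, dil_apply, dilS_dilS, kap_eq_zero hx]
    simp [dilS_zero]

lemma vel_eq_zero_of_fixed {γ : ℝ → Diffeo n} {x : Sph n} (h : ∀ t, γ t x = x) (t : ℝ) :
    vel γ t x = 0 := by
  have h2 : (γ t).symm x = x := by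
    have h3 := (γ t).symm_apply_apply x
    rwa [h t] at h3
  unfold vel
  rw [h2]
  simp only [h]
  simp

lemma inner_sig_ge {v : Sph n} {w : W v} (hw : 4 ≤ ‖w‖) :
    3 / 5 ≤ ⟪(v : Amb n), (sig v w : Amb n)⟫ := by
  rw [inner_sig, div_le_div_iff₀ (by norm_num) (by positivity)]
  nlinarith

lemma inner_sig_nonneg {v : Sph n} {w : W v} (hw : 2 ≤ ‖w‖) :
    0 ≤ ⟪(v : Amb n), (sig v w : Amb n)⟫ := by
  rw [inner_sig]
  apply div_nonneg _ (by positivity)
  nlinarith

lemma exp_neg_mul_rpow (h δ : ℝ) (j : ℕ) :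
    Real.exp (-((j : ℝ) * h)) ^ δ = (Real.exp (-(h * δ))) ^ j := by
  rw [← Real.exp_mul, ← Real.exp_nat_mul]
  congr 1
  ring

theorem exists_contraction (𝒜 : ChartData n) (hn : 1 ≤ n) {s p : ℝ} (hp : 1 ≤ p) (hs : 0 ≤ s)
    (hsp : s < 1 + n / p) (v : Sph n) :
    ∃ (h C : ℝ) (Φ : ℕ → Diffeo n), 0 < h ∧ 0 ≤ C ∧ (∀ J, HasCost 𝒜 s p (Φ J) C) ∧
      ∀ (J : ℕ) (x : Sph n), ⟪(v : Amb n), (x : Amb n)⟫ ≤ 0 → Φ J x = dilS v (J * h) x := by
  have hp0 : 0 < p := by linarith
  obtain ⟨h, hh, θ, hθ, hθ0, hθ1, hθfix⟩ := exists_basic v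
  have hpole : ∀ t, θ t v = v := fun t => hθfix t v (by rw [inner_self_sph]; norm_num)
  obtain ⟨M, hM0, hM⟩ := 𝒜.scaled_bound v hn hp hs hθ (R := 4) (by norm_num)
    (fun t w hw => vel_eq_zero_of_fixed (fun τ => hθfix τ _ (inner_sig_ge hw)) t) hpole
  set δ : ℝ := 1 - s + n / p with hδ
  have hδ0 : 0 < δ := by rw [hδ]; linarith
  set q : ℝ := Real.exp (-(h * δ)) with hq
  have hq0 : 0 < q := Real.exp_pos _
  have hq1 : q < 1 := by
    rw [hq, Real.exp_lt_one_iff]
    have : 0 < h * δ := by positivity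
    linarith
  have hstep : ∀ j : ℕ, HasCost 𝒜 s p (conjFam v (j * h) θ 1) (M * q ^ j) := by
    intro j
    apply hasCost_of_bound (smoothFam_conjFam v _ hθ) (conjFam_zero v _ hθ0) (by positivity)
    intro t ht
    have hr : 0 ≤ (j : ℝ) * h := by positivity
    have hle : Real.exp (-((j : ℝ) * h)) * 4 ≤ 4 := by
      have := Real.exp_le_one_iff.mpr (show -((j : ℝ) * h) ≤ 0 by linarith)
      linarith
    have := hM _ hr hle t ht
    rwa [exp_neg_mul_rpow] at this
  let Φ : ℕ → Diffeo n := fun J => Nat.rec (Diffeo.one n)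
    (fun j φ => cmp (conjFam v (j * h) θ 1) φ) J
  have hΦ0 : Φ 0 = Diffeo.one n := rfl
  have hΦs : ∀ J, Φ (J + 1) = cmp (conjFam v (J * h) θ 1) (Φ J) := fun J => rfl
  have hcost : ∀ J, HasCost 𝒜 s p (Φ J) (∑ j ∈ Finset.range J, M * q ^ j) := by
    intro J
    induction J with
    | zero =>
      rw [hΦ0, Finset.sum_range_zero]
      exact hasCost_one 𝒜 hp0
    | succ J ih =>
      rw [hΦs, Finset.sum_range_succ, add_comm]
      exact (hstep J).comp hp0 ih
  refine ⟨h, M * (1 - q)⁻¹, Φ, hh, ?_, ?_, ?_⟩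
  · have : 0 < 1 - q := by linarith
    positivity
  · intro J
    apply (hcost J).mono
    rw [← Finset.mul_sum]
    apply mul_le_mul_of_nonneg_left _ hM0
    have hs1 : Summable fun j : ℕ => q ^ j := summable_geometric_of_lt_one hq0.le hq1
    rw [← tsum_geometric_of_lt_one hq0.le hq1]
    exact hs1.sum_le_tsum _ (fun j _ => by positivity)
  · intro J
    induction J with
    | zero =>
      intro x _
      rw [hΦ0]
      simp [dilS_zero]
    | succ J ih =>
      intro x hx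
      rw [hΦs, cmp_apply, ih x hx]
      unfold conjFam
      rw [cmp_apply, cmp_apply, dil_symm_apply, dilS_dilS, neg_add_cancel, dilS_zero,
        hθ1 x hx, dil_apply, dilS_dilS]
      congr 1
      push_cast
      ring

/-- dilations are contractions of the lower hemisphere towards the antipode of the pole -/
lemma dist_dilS_le {v x : Sph n} (hx : ⟪(v : Amb n), (x : Amb n)⟫ ≤ 0) (t : ℝ) :
    ‖(dilS v t x : Amb n) - (-(v : Amb n))‖ ≤ 2 * Real.exp (-t) := by
  have hl := Real.exp_pos (-t)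
  set l := Real.exp (-t) with hldef
  have hd := dden_pos v x hl
  have hin := inner_dfun v x (l := l)
  have hb := (inner_bounds v x).1
  set a := ⟪(v : Amb n), (x : Amb n)⟫ with ha
  have hdl : dden (v : Amb n) (x : Amb n) l = l ^ 2 * (1 + a) + (1 - a) := rfl
  have h1 : ‖(dilS v t x : Amb n) - (-(v : Amb n))‖ ^ 2 =
      4 * l ^ 2 * (1 + a) / (l ^ 2 * (1 + a) + (1 - a)) := by
    have hc : ((dilS v t x : Sph n) : Amb n) = dfun (v : Amb n) (x : Amb n) l := rfl
    rw [sub_neg_eq_add, norm_add_sq_real, norm_coe_sph, norm_coe_sph, real_inner_comm, hc, hin,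
      hdl]
    rw [hdl] at hd
    field_simp
    ring
  have h2 : ‖(dilS v t x : Amb n) - (-(v : Amb n))‖ ^ 2 ≤ (2 * l) ^ 2 := by
    rw [h1, div_le_iff₀ (by rw [← hdl]; exact hd)]
    have h3 : 0 < l ^ 2 := by positivity
    have h4 : 0 ≤ 1 + a := by linarith
    have h5 : 1 ≤ l ^ 2 * (1 + a) + (1 - a) := by
      have : 0 ≤ l ^ 2 * (1 + a) := by positivity
      linarith
    have h6 : 1 + a ≤ 1 := by linarith
    nlinarith [mul_nonneg h3.le h4]
  exact le_trans (le_abs_self _) (abs_le_of_sq_le_sq h2 (by positivity))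

end Pool.Agent.Helper76.SobDiff
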