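import Pool.Agent.Helper76.SobDiff.Family

/-!
# The cost of a diffeomorphism
-/

open scoped Manifold ContDiff ENNReal RealInnerProductSpace Topology
open MeasureTheory Set Filter

noncomputable section

namespace Pool.Agent.Helper76.SobDiff

variable {n : ℕ}

/-- `φ` is joined to the identity by a globally defined smooth path with length at most `c`,
in a quantitative sense. -/
def HasCost (𝒜 : ChartData n) (s p : ℝ) (φ : Diffeo n) (c : ℝ) : Prop :=
  ∃ γ : ℝ → Diffeo n, SmoothFam γ ∧ γ 0 = Diffeo.one n ∧ γ 1 = φ ∧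
    ∃ g : ℝ → ℝ, Continuous g ∧ (∀ t, 0 ≤ g t) ∧
      (∀ t ∈ Icc (0 : ℝ) 1, 𝒜.fieldNorm s p (vel γ t) ≤ ENNReal.ofReal (g t)) ∧
      ∫ t in (0 : ℝ)..1, g t ≤ c

variable {𝒜 : ChartData n} {s p : ℝ}

lemma HasCost.mono {φ : Diffeo n} {c c' : ℝ} (h : HasCost 𝒜 s p φ c) (hc : c ≤ c') :
    HasCost 𝒜 s p φ c' := by
  obtain ⟨γ, h1, h2, h3, g, h4, h5, h6, h7⟩ := h
  exact ⟨γ, h1, h2, h3, g, h4, h5, h6, h7.trans hc⟩

lemma hasCost_of_bound {γ : ℝ → Diffeo n} (hγ : SmoothFam γ) (h0 : γ 0 = Diffeo.one n) {K : ℝ}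
    (hK : 0 ≤ K)
    (h : ∀ t ∈ Icc (0 : ℝ) 1, 𝒜.fieldNorm s p (vel γ t) ≤ ENNReal.ofReal K) :
    HasCost 𝒜 s p (γ 1) K :=
  ⟨γ, hγ, h0, rfl, fun _ => K, continuous_const, fun _ => hK, h, by simp⟩

lemma SmoothFam.isPath {γ : ℝ → Diffeo n} (hγ : SmoothFam γ) : IsPath γ :=
  ContMDiff.contMDiffOn hγ

lemma velocity_eq_vel {γ : ℝ → Diffeo n} (hγ : SmoothFam γ) {t : ℝ} (ht : t ∈ Icc (0 : ℝ) 1) :
    velocity γ t = vel γ t := by
  funext y
  rw [velocity_eq']
  unfold vel
  exact (hasDerivAt_fam hγ t _).differentiableAt.derivWithin (uniqueDiffOn_Icc_zero_one t ht)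

lemma HasCost.dist_le {φ : Diffeo n} {c : ℝ} (h : HasCost 𝒜 s p φ c) :
    𝒜.dist s p (Diffeo.one n) φ ≤ ENNReal.ofReal c := by
  obtain ⟨γ, h1, h2, h3, g, h4, h5, h6, h7⟩ := h
  unfold ChartData.dist
  refine (iInf₂_le γ ⟨h1.isPath, h2, h3⟩).trans ?_
  unfold ChartData.length
  calc ∫⁻ t in Icc (0 : ℝ) 1, 𝒜.fieldNorm s p (velocity γ t)
      ≤ ∫⁻ t in Icc (0 : ℝ) 1, ENNReal.ofReal (g t) := by
        apply setLIntegral_mono' measurableSet_Icc
        intro t ht
        rw [velocity_eq_vel h1 ht]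
        exact h6 t ht
    _ = ENNReal.ofReal (∫ t in Icc (0 : ℝ) 1, g t) := by
        rw [ofReal_integral_eq_lintegral_ofReal]
        · exact h4.integrableOn_Icc
        · exact Eventually.of_forall h5
    _ ≤ ENNReal.ofReal c := by
        apply ENNReal.ofReal_le_ofReal
        rw [integral_Icc_eq_integral_Ioc, ← intervalIntegral.integral_of_le zero_le_one]
        exact h7

/-- first time change -/
def S1 (t : ℝ) : ℝ := Real.smoothTransition (3 * t)
/-- second time change -/
def S2 (t : ℝ) : ℝ := Real.smoothTransition (3 * t - 2)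

lemma contDiff_smoothTransition : ContDiff ℝ ∞ Real.smoothTransition :=
  Real.smoothTransition.contDiff (n := ⊤)

lemma contDiff_S1 : ContDiff ℝ ∞ S1 :=
  contDiff_smoothTransition.comp (contDiff_const.mul contDiff_id)

lemma contDiff_S2 : ContDiff ℝ ∞ S2 :=
  contDiff_smoothTransition.comp ((contDiff_const.mul contDiff_id).sub contDiff_const)

lemma S1_eq_one {t : ℝ} (h : 1 / 3 ≤ t) : S1 t = 1 :=
  Real.smoothTransition.one_of_one_le (by linarith)

lemma S2_eq_zero {t : ℝ} (h : t ≤ 2 / 3) : S2 t = 0 :=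
  Real.smoothTransition.zero_of_nonpos (by linarith)

lemma S1_zero : S1 0 = 0 := by simp [S1]
lemma S2_one : S2 1 = 1 := Real.smoothTransition.one_of_one_le (by norm_num)

lemma monotone_S1 : Monotone S1 := fun a b h =>
  Real.smoothTransition.monotone (by linarith)
lemma monotone_S2 : Monotone S2 := fun a b h =>
  Real.smoothTransition.monotone (by linarith)

lemma S1_mem (t : ℝ) : S1 t ∈ Icc (0 : ℝ) 1 :=
  ⟨Real.smoothTransition.nonneg _, Real.smoothTransition.le_one _⟩
lemma S2_mem (t : ℝ) : S2 t ∈ Icc (0 : ℝ) 1 :=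
  ⟨Real.smoothTransition.nonneg _, Real.smoothTransition.le_one _⟩

lemma hasDerivAt_reparam {γ : ℝ → Diffeo n} (hγ : SmoothFam γ) {S : ℝ → ℝ} (hS : ContDiff ℝ ∞ S)
    (t : ℝ) (x : Sph n) :
    HasDerivAt (fun τ => (γ (S τ) x : Amb n)) (deriv S t • vel γ (S t) (γ (S t) x)) t := by
  have h1 := hasDerivAt_vel hγ (S t) x
  have h2 : HasDerivAt S (deriv S t) t :=
    ((hS.differentiable (by simp)).differentiableAt).hasDerivAt
  exact h1.scomp t h2

lemma fieldNorm_smul_le {X : Sph n → Amb n} (hp : 0 < p) (hX : SmoothField X) {c K : ℝ}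
    (hc : 0 ≤ c) (h : 𝒜.fieldNorm s p X ≤ ENNReal.ofReal K) :
    𝒜.fieldNorm s p (fun y => c • X y) ≤ ENNReal.ofReal (c * K) := by
  rw [𝒜.fieldNorm_smul hp hX, ENNReal.ofReal_mul hc]
  have : ‖c‖ₑ = ENNReal.ofReal c := by
    rw [← ofReal_norm, Real.norm_of_nonneg hc]
  rw [this]
  exact mul_le_mul_right h _

theorem HasCost.comp (hp : 0 < p) {a b : Diffeo n} {c₁ c₂ : ℝ} (ha : HasCost 𝒜 s p a c₁)
    (hb : HasCost 𝒜 s p b c₂) : HasCost 𝒜 s p (cmp a b) (c₁ + c₂) := by
  obtain ⟨α, a1, a2, a3, gα, a4, a5, a6, a7⟩ := ha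
  obtain ⟨β, b1, b2, b3, gβ, b4, b5, b6, b7⟩ := hb
  set γ : ℝ → Diffeo n := fun t => cmp (α (S2 t)) (β (S1 t)) with hγdef
  have hγ : SmoothFam γ := (a1.reparam contDiff_S2).comp (b1.reparam contDiff_S1)
  have hd1 : ∀ t, 0 ≤ deriv S1 t := fun t => monotone_S1.deriv_nonneg
  have hd2 : ∀ t, 0 ≤ deriv S2 t := fun t => monotone_S2.deriv_nonneg
  have hc1 : Continuous (deriv S1) := contDiff_S1.continuous_deriv (by simp)
  have hc2 : Continuous (deriv S2) := contDiff_S2.continuous_deriv (by simp)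
  refine ⟨γ, hγ, ?_, ?_, fun t => gβ (S1 t) * deriv S1 t + gα (S2 t) * deriv S2 t, ?_, ?_, ?_, ?_⟩
  · rw [hγdef]
    simp only
    rw [S2_eq_zero (by norm_num), S1_zero, a2, b2]
    rfl
  · rw [hγdef]
    simp only
    rw [S2_one, S1_eq_one (by norm_num), a3, b3]
  · exact ((b4.comp contDiff_S1.continuous).mul hc1).add ((a4.comp contDiff_S2.continuous).mul hc2)
  · intro t
    have := b5 (S1 t); have := a5 (S2 t); have := hd1 t; have := hd2 t
    positivity
  · intro t _
    rcases lt_or_ge t (2 / 3) with ht | ht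
    · -- only `β` moves
      have hvel : vel γ t = fun y => deriv S1 t • vel β (S1 t) y := by
        funext y
        have h1 := hasDerivAt_reparam b1 contDiff_S1 t ((γ t).symm y)
        have hval : β (S1 t) ((γ t).symm y) = y := by
          have h2 : γ t ((γ t).symm y) = y := (γ t).apply_symm_apply y
          have h3 : γ t = cmp (α (S2 t)) (β (S1 t)) := rfl
          nth_rewrite 1 [h3] at h2
          rw [cmp_apply, S2_eq_zero ht.le, a2] at h2
          exact h2
        rw [hval] at h1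
        have hev : (fun τ => (γ τ ((γ t).symm y) : Amb n)) =ᶠ[𝓝 t]
            fun τ => (β (S1 τ) ((γ t).symm y) : Amb n) := by
          filter_upwards [gt_mem_nhds ht] with τ hτ
          have h3 : γ τ = cmp (α (S2 τ)) (β (S1 τ)) := rfl
          rw [h3, cmp_apply, S2_eq_zero (le_of_lt hτ), a2]
          rfl
        exact (h1.congr_of_eventuallyEq hev).deriv
      rw [hvel]
      refine (fieldNorm_smul_le hp (smoothField_vel b1 _) (hd1 t) (b6 _ (S1_mem t))).trans ?_
      apply ENNReal.ofReal_le_ofReal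
      have := a5 (S2 t); have := hd2 t
      have : 0 ≤ gα (S2 t) * deriv S2 t := by positivity
      linarith
    · -- only `α` moves
      have ht' : 1 / 3 < t := by linarith
      have hvel : vel γ t = fun y => deriv S2 t • vel α (S2 t) y := by
        funext y
        have h1 := hasDerivAt_reparam a1 contDiff_S2 t (b ((γ t).symm y))
        have hval : α (S2 t) (b ((γ t).symm y)) = y := by
          have h2 : γ t ((γ t).symm y) = y := (γ t).apply_symm_apply y
          have h3 : γ t = cmp (α (S2 t)) (β (S1 t)) := rfl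
          nth_rewrite 1 [h3] at h2
          rw [cmp_apply, S1_eq_one ht'.le, b3] at h2
          exact h2
        rw [hval] at h1
        have hev : (fun τ => (γ τ ((γ t).symm y) : Amb n)) =ᶠ[𝓝 t]
            fun τ => (α (S2 τ) (b ((γ t).symm y)) : Amb n) := by
          filter_upwards [lt_mem_nhds ht'] with τ hτ
          have h3 : γ τ = cmp (α (S2 τ)) (β (S1 τ)) := rfl
          rw [h3, cmp_apply, S1_eq_one (le_of_lt hτ), b3]
        exact (h1.congr_of_eventuallyEq hev).deriv
      rw [hvel]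
      refine (fieldNorm_smul_le hp (smoothField_vel a1 _) (hd2 t) (a6 _ (S2_mem t))).trans ?_
      apply ENNReal.ofReal_le_ofReal
      have := b5 (S1 t); have := hd1 t
      have : 0 ≤ gβ (S1 t) * deriv S1 t := by positivity
      linarith
  · have hS1 : ∀ x ∈ uIcc (0 : ℝ) 1, HasDerivAt S1 (deriv S1 x) x := fun x _ =>
      ((contDiff_S1.differentiable (by simp)).differentiableAt).hasDerivAt
    have hS2 : ∀ x ∈ uIcc (0 : ℝ) 1, HasDerivAt S2 (deriv S2 x) x := fun x _ =>
      ((contDiff_S2.differentiable (by simp)).differentiableAt).hasDerivAt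
    have i1 := intervalIntegral.integral_comp_mul_deriv hS1 hc1.continuousOn b4
    have i2 := intervalIntegral.integral_comp_mul_deriv hS2 hc2.continuousOn a4
    rw [S1_zero, S1_eq_one (by norm_num)] at i1
    rw [S2_eq_zero (by norm_num), S2_one] at i2
    rw [intervalIntegral.integral_add]
    · have e1 : ∫ x in (0 : ℝ)..1, gβ (S1 x) * deriv S1 x = ∫ x in (0 : ℝ)..1, gβ x := i1
      have e2 : ∫ x in (0 : ℝ)..1, gα (S2 x) * deriv S2 x = ∫ x in (0 : ℝ)..1, gα x := i2
      rw [e1, e2]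
      linarith
    · exact ((b4.comp contDiff_S1.continuous).mul hc1).intervalIntegrable _ _
    · exact ((a4.comp contDiff_S2.continuous).mul hc2).intervalIntegrable _ _

theorem HasCost.symm (hp : 0 < p) {a : Diffeo n} {c : ℝ} (ha : HasCost 𝒜 s p a c) :
    HasCost 𝒜 s p a.symm c := by
  obtain ⟨α, a1, a2, a3, gα, a4, a5, a6, a7⟩ := ha
  have hS : ContDiff ℝ ∞ (fun t : ℝ => 1 - t) := contDiff_const.sub contDiff_id
  set γ : ℝ → Diffeo n := fun t => cmp (α (1 - t)) a.symm with hγdef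
  have hγ : SmoothFam γ := (a1.reparam hS).comp (SmoothFam.const a.symm)
  refine ⟨γ, hγ, ?_, ?_, fun t => gα (1 - t), ?_, fun t => a5 _, ?_, ?_⟩
  · rw [hγdef]
    simp only [sub_zero]
    rw [a3]
    ext x
    simp
  · rw [hγdef]
    simp only [sub_self]
    rw [a2]
    ext x
    simp
  · exact a4.comp (continuous_const.sub continuous_id)
  · intro t ht
    have hvel : vel γ t = fun y => (-1 : ℝ) • vel α (1 - t) y := by
      funext y
      have h1 := hasDerivAt_reparam a1 hS t (a.symm ((γ t).symm y))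
      have hd : deriv (fun t : ℝ => 1 - t) t = -1 := by
        simpa using ((hasDerivAt_const t (1 : ℝ)).sub (hasDerivAt_id t)).deriv
      have hval : α (1 - t) (a.symm ((γ t).symm y)) = y := (γ t).apply_symm_apply y
      rw [hval, hd] at h1
      exact h1.deriv
    rw [hvel, 𝒜.fieldNorm_smul hp (smoothField_vel a1 _)]
    have : ‖(-1 : ℝ)‖ₑ = 1 := by simp
    rw [this, one_mul]
    exact a6 _ ⟨by linarith [ht.2], by linarith [ht.1]⟩
  · rw [intervalIntegral.integral_comp_sub_left (fun t => gα t) 1]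
    simpa using a7

end Pool.Agent.Helper76.SobDiff
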