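import Mathlib

/-!
# Right-invariant `W^{s,p}` metrics on the diffeomorphism group of the round sphere: definitions

`S^n` is the unit sphere of `ℝ^{n+1}` with the smooth structure of Mathlib, its diffeomorphisms
are Mathlib's `Diffeomorph`s of class `C^∞`.  Vector fields along the sphere are maps
`X : S^n → ℝ^{n+1}`; the ones that occur (velocity fields of paths of diffeomorphisms) are tangent
to the sphere.
-/

open scoped Manifold ContDiff ENNReal RealInnerProductSpace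
open MeasureTheory Set

noncomputable section

namespace Pool.Agent.Helper76.SobDiff

section Generic

variable {E F : Type} [NormedAddCommGroup E] [NormedSpace ℝ E] [NormedAddCommGroup F]
  [NormedSpace ℝ F]

/-- `∫ |D^j f|^p dx`, with the operator norm of the multilinear map `D^j f(x)`. -/
def derivIntegral [MeasureSpace E] (p : ℝ) (j : ℕ) (f : E → F) : ℝ≥0∞ :=
  ∫⁻ x, ‖iteratedFDeriv ℝ j f x‖ₑ ^ p

/-- `∬ |D^k f(x) - D^k f(y)|^p / |x - y|^a dx dy`. -/
def gagliardoIntegral [MeasureSpace E] (p a : ℝ) (k : ℕ) (f : E → F) : ℝ≥0∞ :=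
  ∫⁻ x, ∫⁻ y, ‖iteratedFDeriv ℝ k f x - iteratedFDeriv ℝ k f y‖ₑ ^ p / ‖x - y‖ₑ ^ a

/-- The vector `w` with `df_v w = y` (unique if `df_v` is injective). -/
def pullbackVec (f : E → F) (v : E) (y : F) : E := Function.invFun (fderiv ℝ f v) y

variable {ι H M : Type} [TopologicalSpace H] [TopologicalSpace M] [ChartedSpace H M]

/-- Smoothness of a map `[0,1] × M → M` (its values outside of `[0,1] × M` are irrelevant). -/
def SmoothOnInterval (I : ModelWithCorners ℝ E H) (Φ : ℝ × M → M) : Prop :=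
  ContMDiffOn (𝓘(ℝ, ℝ).prod I) I ∞ Φ (Icc (0 : ℝ) 1 ×ˢ univ)

/-- The value `φ(x)` of a diffeomorphism. -/
def value {I : ModelWithCorners ℝ E H} (φ : Diffeomorph I I M M ∞) (x : M) : M := φ x

/-- The value `φ⁻¹(y)` of the inverse of a diffeomorphism. -/
def inverseValue {I : ModelWithCorners ℝ E H} (φ : Diffeomorph I I M M ∞) (y : M) : M := φ.symm y

/-- The value `ρ_i(x)` of a function of a smooth partition of unity. -/
def weight {I : ModelWithCorners ℝ E H} (ρ : SmoothPartitionOfUnity ι I M univ) (i : ι) (x : M) :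
    ℝ := ρ i x

end Generic

/-- Euclidean space `ℝ^{n+1}`. -/
abbrev Amb (n : ℕ) : Type := EuclideanSpace ℝ (Fin (n + 1))

/-- Euclidean space `ℝ^n`. -/
abbrev Euc (n : ℕ) : Type := EuclideanSpace ℝ (Fin n)

/-- The unit sphere `S^n` in `ℝ^{n+1}`, with the smooth structure of Mathlib. -/
abbrev Sph (n : ℕ) : Type := Metric.sphere (0 : Amb n) 1

/-- The smooth diffeomorphisms of `S^n`. -/
abbrev Diffeo (n : ℕ) : Type := Diffeomorph (𝓡 n) (𝓡 n) (Sph n) (Sph n) ∞

/-- The identity diffeomorphism of `S^n`. -/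
abbrev Diffeo.one (n : ℕ) : Diffeo n := Diffeomorph.refl (𝓡 n) (Sph n) ∞

/-- The open geodesic ball of radius `r` about `x` in the round sphere: the geodesic distance
of two points is the angle between them. -/
def geodBall {n : ℕ} (x : Sph n) (r : ℝ) : Set (Sph n) :=
  {y | InnerProductGeometry.angle (x : Amb n) (y : Amb n) < r}

/-- The (fractional) Sobolev norm `W^{s,p}` of a map `f : ℝ^n → ℝ^n`, with values in `[0, ∞]`.
Write `s = k + σ` with `k` a natural number and `0 ≤ σ < 1`.  The first summand is the norm of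
`W^{k,p}`; the second one, present only for `σ > 0`, is the Gagliardo seminorm of `D^k f`. -/
def sobolevNorm {n : ℕ} (s p : ℝ) (f : Euc n → Euc n) : ℝ≥0∞ :=
  (∑ j ∈ Finset.range (⌊s⌋₊ + 1), derivIntegral p j f) ^ (1 / p) +
    if Int.fract s = 0 then 0 else
      (gagliardoIntegral p ((n : ℝ) + Int.fract s * p) ⌊s⌋₊ f) ^ (1 / p)

lemma sobolevNorm_eq {n : ℕ} (s p : ℝ) (f : Euc n → Euc n) : sobolevNorm s p f =
  (∑ j ∈ Finset.range (⌊s⌋₊ + 1), ∫⁻ x, ‖iteratedFDeriv ℝ j f x‖ₑ ^ p) ^ (1 / p) +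
    if Int.fract s = 0 then 0 else
      (∫⁻ x, ∫⁻ y, ‖iteratedFDeriv ℝ ⌊s⌋₊ f x - iteratedFDeriv ℝ ⌊s⌋₊ f y‖ₑ ^ p /
        ‖x - y‖ₑ ^ ((n : ℝ) + Int.fract s * p)) ^ (1 / p) := rfl

/-- The Riemannian exponential map of the round sphere at `x`, in the orthonormal frame
`e : ℝ^n → T_x S^n = x^⊥` of the tangent space, as a map `ℝ^n → ℝ^{n+1}`:
`v ↦ cos |v| x + (sin |v| / |v|) e v`. -/
def expMap {n : ℕ} (x : Sph n) (e : Euc n →ₗᵢ[ℝ] Amb n) (v : Euc n) : Amb n :=
  Real.cos ‖v‖ • (x : Amb n) + Real.sinc ‖v‖ • e v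

lemma norm_coe_sph {n : ℕ} (x : Sph n) : ‖(x : Amb n)‖ = 1 := by
  simp

lemma sinc_mul_self (r : ℝ) : Real.sinc r * r = Real.sin r := by
  rcases eq_or_ne r 0 with rfl | hr
  · simp
  · rw [Real.sinc_of_ne_zero hr, div_mul_cancel₀ _ hr]

/-- inner product of two points in normal coordinates -/
lemma inner_expMap {n : ℕ} (x : Sph n) (e : Euc n →ₗᵢ[ℝ] Amb n)
    (he : ∀ v, ⟪(x : Amb n), e v⟫ = 0) (v w : Euc n) :
    ⟪expMap x e v, expMap x e w⟫ =
      Real.cos ‖v‖ * Real.cos ‖w‖ + Real.sinc ‖v‖ * Real.sinc ‖w‖ * ⟪v, w⟫ := by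
  have he' : ∀ v, ⟪e v, (x : Amb n)⟫ = 0 := fun v => by rw [real_inner_comm]; exact he v
  have hx : ⟪(x : Amb n), (x : Amb n)⟫ = 1 := by
    rw [real_inner_self_eq_norm_sq, norm_coe_sph]; norm_num
  unfold expMap
  simp only [inner_add_left, inner_add_right, real_inner_smul_left, real_inner_smul_right, he,
    he', hx, e.inner_map_map]
  ring

/-- the exponential map takes values in the sphere -/
lemma norm_expMap {n : ℕ} (x : Sph n) (e : Euc n →ₗᵢ[ℝ] Amb n)
    (he : ∀ v, ⟪(x : Amb n), e v⟫ = 0) (v : Euc n) : ‖expMap x e v‖ = 1 := by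
  have h := inner_expMap x e he v v
  rw [real_inner_self_eq_norm_sq, real_inner_self_eq_norm_sq] at h
  have h2 : Real.cos ‖v‖ * Real.cos ‖v‖ + Real.sinc ‖v‖ * Real.sinc ‖v‖ * ‖v‖ ^ 2 = 1 := by
    have h3 := sinc_mul_self ‖v‖
    have h4 := Real.sin_sq_add_cos_sq ‖v‖
    rw [← h3] at h4
    linarith [h4, mul_pow (Real.sinc ‖v‖) ‖v‖ 2]
  rw [h2] at h
  have h5 : (0 : ℝ) ≤ ‖expMap x e v‖ := norm_nonneg _
  nlinarith [h, h5]

/-- A finite cover of `S^n` by small geodesic balls (of radius `0 < r < π`), with a subordinate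
smooth partition of unity and an orthonormal frame of the tangent space at every centre. -/
structure ChartData (n : ℕ) where
  /-- the finite index type -/
  ι : Type
  /-- it is finite -/
  fintype : Fintype ι
  /-- the centres of the balls -/
  centre : ι → Sph n
  /-- the radius of the balls -/
  radius : ℝ
  radius_pos : 0 < radius
  radius_lt : radius < Real.pi
  /-- orthonormal frames of the tangent spaces at the centres -/
  frame : ι → (Euc n →ₗᵢ[ℝ] Amb n)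
  frame_orth : ∀ α v, ⟪(centre α : Amb n), frame α v⟫ = 0
  /-- the partition of unity -/
  ρ : SmoothPartitionOfUnity ι (𝓡 n) (Sph n) univ
  subordinate : ρ.IsSubordinate fun α => geodBall (centre α) radius

attribute [instance] ChartData.fintype

variable {n : ℕ}

namespace ChartData

/-- The exponential chart `exp_{x_α} : ℝ^n → S^n`. -/
def exp (𝒜 : ChartData n) (α : 𝒜.ι) (v : Euc n) : Sph n :=
  ⟨expMap (𝒜.centre α) (𝒜.frame α) v, by
    simpa using norm_expMap (𝒜.centre α) (𝒜.frame α) (𝒜.frame_orth α) v⟩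

/-- The components of `ρ_α X` in the exponential chart `exp_{x_α}`, extended by zero outside of
the ball of radius `r`: for `‖v‖ < r` this is `ρ_α(exp v) w`, where `w` is the vector with
`d(exp)_v w = X(exp v)`. -/
def comp (𝒜 : ChartData n) (α : 𝒜.ι) (X : Sph n → Amb n) (v : Euc n) : Euc n :=
  if ‖v‖ < 𝒜.radius then
    weight 𝒜.ρ α (𝒜.exp α v) •
      pullbackVec (expMap (𝒜.centre α) (𝒜.frame α)) v (X (𝒜.exp α v))
  else 0

lemma comp_eq' (𝒜 : ChartData n) (α : 𝒜.ι) (X : Sph n → Amb n) (v : Euc n) : 𝒜.comp α X v =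
  if ‖v‖ < 𝒜.radius then
    𝒜.ρ α (𝒜.exp α v) •
      Function.invFun (fderiv ℝ (expMap (𝒜.centre α) (𝒜.frame α)) v) (X (𝒜.exp α v))
  else 0 := rfl

/-- The `W^{s,p}` norm of a vector field on `S^n`:
`‖X‖^2 = ∑_α ‖components of ρ_α X in the chart exp_{x_α}‖^2`. -/
def fieldNorm (𝒜 : ChartData n) (s p : ℝ) (X : Sph n → Amb n) : ℝ≥0∞ :=
  (∑ α, sobolevNorm s p (𝒜.comp α X) ^ 2) ^ (1 / 2 : ℝ)

end ChartData

/-- Smooth paths `[0,1] → Diff(S^n)`: the map `(t, x) ↦ φ_t(x)` is smooth on `[0,1] × S^n`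
(the values of `φ` outside of `[0,1]` are irrelevant). -/
def IsPath (φ : ℝ → Diffeo n) : Prop :=
  SmoothOnInterval (𝓡 n) (fun q : ℝ × Sph n => value (φ q.1) q.2)

/-- The velocity field `∂_t φ_t ∘ φ_t⁻¹` of a path of diffeomorphisms at time `t ∈ [0,1]`. -/
def velocity (φ : ℝ → Diffeo n) (t : ℝ) (y : Sph n) : Amb n :=
  derivWithin (fun τ => ((value (φ τ) (inverseValue (φ t) y) : Sph n) : Amb n))
    (Icc (0 : ℝ) 1) t

lemma velocity_eq' (φ : ℝ → Diffeo n) (t : ℝ) (y : Sph n) : velocity φ t y =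
  derivWithin (fun τ => (φ τ ((φ t).symm y) : Amb n)) (Icc (0 : ℝ) 1) t := rfl

/-- The group `Diff_0(S^n)`: the diffeomorphisms that a smooth path connects to the identity. -/
def Diff0 (n : ℕ) : Set (Diffeo n) :=
  {ψ | ∃ φ : ℝ → Diffeo n, IsPath φ ∧ φ 0 = Diffeo.one n ∧ φ 1 = ψ}

/-- The length `∫_0^1 ‖∂_t φ ∘ φ⁻¹‖_{W^{s,p}} dt` of a path. -/
def ChartData.length (𝒜 : ChartData n) (s p : ℝ) (φ : ℝ → Diffeo n) : ℝ≥0∞ :=
  ∫⁻ t in Icc (0 : ℝ) 1, 𝒜.fieldNorm s p (velocity φ t)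

/-- The geodesic distance of the right-invariant `W^{s,p}` metric on `Diff_0(S^n)`: the infimum of
the lengths of the smooth paths from `φ₀` to `φ₁`. -/
def ChartData.dist (𝒜 : ChartData n) (s p : ℝ) (φ₀ φ₁ : Diffeo n) : ℝ≥0∞ :=
  ⨅ (φ : ℝ → Diffeo n) (_ : IsPath φ ∧ φ 0 = φ₀ ∧ φ 1 = φ₁), 𝒜.length s p φ

/-- The diameter of `Diff_0(S^n)`. -/
def ChartData.diam (𝒜 : ChartData n) (s p : ℝ) : ℝ≥0∞ :=
  ⨆ φ ∈ Diff0 n, 𝒜.dist s p (Diffeo.one n) φ

end Pool.Agent.Helper76.SobDiff
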