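import Pool.Agent.Helper76.SobDiff.Family

/-!
# Conformal dilations of the sphere
-/

open scoped Manifold ContDiff ENNReal RealInnerProductSpace Topology
open MeasureTheory Set Filter

noncomputable section

namespace Pool.Agent.Helper76.SobDiff

variable {n : ℕ}

/-- denominator of the dilation -/
def dden (v x : Amb n) (l : ℝ) : ℝ := l ^ 2 * (1 + ⟪v, x⟫) + (1 - ⟪v, x⟫)

/-- the conformal dilation by `l` in stereographic coordinates from `v` -/
def dfun (v x : Amb n) (l : ℝ) : Amb n :=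
  (dden v x l)⁻¹ • ((2 * l) • (x - ⟪v, x⟫ • v) + (l ^ 2 * (1 + ⟪v, x⟫) - (1 - ⟪v, x⟫)) • v)

lemma inner_bounds (v x : Sph n) : -1 ≤ ⟪(v : Amb n), (x : Amb n)⟫ ∧
    ⟪(v : Amb n), (x : Amb n)⟫ ≤ 1 := by
  have h := abs_real_inner_le_norm (v : Amb n) (x : Amb n)
  rw [norm_coe_sph, norm_coe_sph, mul_one] at h
  exact abs_le.mp h

lemma dden_pos (v x : Sph n) {l : ℝ} (hl : 0 < l) : 0 < dden (v : Amb n) (x : Amb n) l := by
  obtain ⟨h1, h2⟩ := inner_bounds v x
  unfold dden
  rcases lt_or_eq_of_le h2 with h | h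
  · have : 0 ≤ l ^ 2 * (1 + ⟪(v : Amb n), (x : Amb n)⟫) := mul_nonneg (by positivity) (by linarith)
    linarith
  · rw [h]
    have : 0 < l ^ 2 := by positivity
    linarith

lemma inner_self_sph (v : Sph n) : ⟪(v : Amb n), (v : Amb n)⟫ = 1 := by
  rw [real_inner_self_eq_norm_sq, norm_coe_sph]; norm_num

lemma inner_dfun (v x : Sph n) {l : ℝ} :
    ⟪(v : Amb n), dfun (v : Amb n) (x : Amb n) l⟫ = (dden (v : Amb n) (x : Amb n) l)⁻¹ *
      (l ^ 2 * (1 + ⟪(v : Amb n), (x : Amb n)⟫) - (1 - ⟪(v : Amb n), (x : Amb n)⟫)) := by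
  unfold dfun
  rw [real_inner_smul_right, inner_add_right, real_inner_smul_right, inner_sub_right,
    real_inner_smul_right, real_inner_smul_right, inner_self_sph]
  ring

lemma norm_dfun (v x : Sph n) {l : ℝ} (hl : 0 < l) : ‖dfun (v : Amb n) (x : Amb n) l‖ = 1 := by
  have hd := dden_pos v x hl
  have hx := inner_self_sph x
  have hv := inner_self_sph v
  have hc : ⟪(x : Amb n), (v : Amb n)⟫ = ⟪(v : Amb n), (x : Amb n)⟫ := real_inner_comm _ _
  have h1 : ⟪dfun (v : Amb n) (x : Amb n) l, dfun (v : Amb n) (x : Amb n) l⟫ = 1 := by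
    unfold dfun
    simp only [real_inner_smul_left, real_inner_smul_right, inner_add_left, inner_add_right,
      inner_sub_left, inner_sub_right, hx, hv, hc]
    have hne := hd.ne'
    field_simp
    unfold dden
    ring
  rw [real_inner_self_eq_norm_sq] at h1
  have := norm_nonneg (dfun (v : Amb n) (x : Amb n) l)
  nlinarith

/-- dilation as a map of the sphere -/
def dilS (v : Sph n) (t : ℝ) (x : Sph n) : Sph n :=
  ⟨dfun (v : Amb n) (x : Amb n) (Real.exp (-t)), by
    simpa using norm_dfun v x (Real.exp_pos _)⟩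

lemma coe_dilS (v : Sph n) (t : ℝ) (x : Sph n) :
    (dilS v t x : Amb n) = dfun (v : Amb n) (x : Amb n) (Real.exp (-t)) := rfl

lemma dfun_dfun (v x : Sph n) {l m : ℝ} (hl : 0 < l) (hm : 0 < m) :
    dfun (v : Amb n) (dfun (v : Amb n) (x : Amb n) l) m = dfun (v : Amb n) (x : Amb n) (m * l) := by
  have hd := dden_pos v x hl
  have hd2 := dden_pos v x (mul_pos hm hl)
  have hin := inner_dfun v x (l := l)
  set a := ⟪(v : Amb n), (x : Amb n)⟫ with ha
  have hdl : dden (v : Amb n) (x : Amb n) l = l ^ 2 * (1 + a) + (1 - a) := rfl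
  have hdml : dden (v : Amb n) (x : Amb n) (m * l) = (m * l) ^ 2 * (1 + a) + (1 - a) := rfl
  have hden : dden (v : Amb n) (dfun (v : Amb n) (x : Amb n) l) m =
      2 * dden (v : Amb n) (x : Amb n) (m * l) / dden (v : Amb n) (x : Amb n) l := by
    have h0 : dden (v : Amb n) (dfun (v : Amb n) (x : Amb n) l) m =
      m ^ 2 * (1 + ⟪(v : Amb n), dfun (v : Amb n) (x : Amb n) l⟫) +
        (1 - ⟪(v : Amb n), dfun (v : Amb n) (x : Amb n) l⟫) := rfl
    rw [h0, hin, hdml]
    have hne := hd.ne'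
    field_simp
    rw [hdl]
    ring
  have h1 : dfun (v : Amb n) (dfun (v : Amb n) (x : Amb n) l) m =
      (dden (v : Amb n) (dfun (v : Amb n) (x : Amb n) l) m)⁻¹ •
      ((2 * m) • (dfun (v : Amb n) (x : Amb n) l -
        ⟪(v : Amb n), dfun (v : Amb n) (x : Amb n) l⟫ • (v : Amb n)) +
      (m ^ 2 * (1 + ⟪(v : Amb n), dfun (v : Amb n) (x : Amb n) l⟫) -
        (1 - ⟪(v : Amb n), dfun (v : Amb n) (x : Amb n) l⟫)) • (v : Amb n)) := rfl
  have h2 : dfun (v : Amb n) (x : Amb n) l = (dden (v : Amb n) (x : Amb n) l)⁻¹ •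
      ((2 * l) • ((x : Amb n) - a • (v : Amb n)) + (l ^ 2 * (1 + a) - (1 - a)) • (v : Amb n)) := rfl
  have h3 : dfun (v : Amb n) (x : Amb n) (m * l) = (dden (v : Amb n) (x : Amb n) (m * l))⁻¹ •
      ((2 * (m * l)) • ((x : Amb n) - a • (v : Amb n)) +
        ((m * l) ^ 2 * (1 + a) - (1 - a)) • (v : Amb n)) := rfl
  rw [h1, hden, hin, h2, h3]
  have hne := hd.ne'
  have hne2 := hd2.ne'
  set d := dden (v : Amb n) (x : Amb n) l with hdd
  set d2 := dden (v : Amb n) (x : Amb n) (m * l) with hdd2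
  match_scalars
  · field_simp
  · field_simp
    rw [hdl]
    ring

lemma dilS_dilS (v : Sph n) (s t : ℝ) (x : Sph n) : dilS v s (dilS v t x) = dilS v (s + t) x := by
  apply Subtype.ext
  rw [coe_dilS, coe_dilS, coe_dilS, dfun_dfun v x (Real.exp_pos _) (Real.exp_pos _),
    ← Real.exp_add]
  congr 2
  ring

lemma dilS_zero (v : Sph n) (x : Sph n) : dilS v 0 x = x := by
  apply Subtype.ext
  rw [coe_dilS]
  unfold dfun dden
  simp only [neg_zero, Real.exp_zero]
  match_scalars <;> ring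

lemma contMDiff_dilS (v : Sph n) :
    ContMDiff (𝓘(ℝ, ℝ).prod (𝓡 n)) (𝓡 n) ∞ (fun q : ℝ × Sph n => dilS v q.1 q.2) := by
  rw [contMDiff_sph_iff]
  refine contMDiff_of_ambient
    (g := fun q : ℝ × Amb n => dfun (v : Amb n) q.2 (Real.exp (-q.1))) ?_ (fun p x => rfl)
  intro t x
  have hd := (dden_pos v x (Real.exp_pos (-t))).ne'
  have hin : ContDiff ℝ ∞ (fun q : ℝ × Amb n => ⟪(v : Amb n), q.2⟫) :=
    contDiff_const.inner ℝ contDiff_snd
  have hexp : ContDiff ℝ ∞ (fun q : ℝ × Amb n => Real.exp (-q.1)) :=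
    Real.contDiff_exp.comp contDiff_fst.neg
  unfold dfun
  apply ContDiffAt.fun_smul
  · apply ContDiffAt.inv
    · unfold dden
      exact (((hexp.pow 2).mul (contDiff_const.add hin)).add
        (contDiff_const.sub hin)).contDiffAt
    · exact hd
  · apply ContDiff.contDiffAt
    apply ContDiff.add
    · exact (contDiff_const.mul hexp).smul (contDiff_snd.sub (hin.smul contDiff_const))
    · exact (((hexp.pow 2).mul (contDiff_const.add hin)).sub
        (contDiff_const.sub hin)).smul contDiff_const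

/-- dilation as a diffeomorphism -/
def dil (v : Sph n) (t : ℝ) : Diffeo n where
  toFun := dilS v t
  invFun := dilS v (-t)
  left_inv x := by rw [dilS_dilS]; simp [dilS_zero]
  right_inv x := by rw [dilS_dilS]; simp [dilS_zero]
  contMDiff_toFun := by
    have h1 : ContMDiff (𝓡 n) (𝓘(ℝ, ℝ).prod (𝓡 n)) ∞ (fun y : Sph n => (t, y)) :=
      contMDiff_const.prodMk contMDiff_id
    exact (contMDiff_dilS v).comp h1
  contMDiff_invFun := by
    have h1 : ContMDiff (𝓡 n) (𝓘(ℝ, ℝ).prod (𝓡 n)) ∞ (fun y : Sph n => (-t, y)) :=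
      contMDiff_const.prodMk contMDiff_id
    exact (contMDiff_dilS v).comp h1

@[simp] lemma dil_apply (v : Sph n) (t : ℝ) (x : Sph n) : dil v t x = dilS v t x := rfl
@[simp] lemma dil_symm_apply (v : Sph n) (t : ℝ) (x : Sph n) :
    (dil v t).symm x = dilS v (-t) x := rfl

lemma smoothFam_dil (v : Sph n) : SmoothFam (dil v) := contMDiff_dilS v

lemma dilS_pole (v : Sph n) (t : ℝ) : dilS v t v = v := by
  apply Subtype.ext
  rw [coe_dilS]
  unfold dfun dden
  rw [inner_self_sph]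
  have h := Real.exp_pos (-t)
  match_scalars
  field_simp
  ring

/-! ### stereographic coordinates -/

/-- the model space -/
abbrev W (v : Sph n) : Type := (ℝ ∙ (v : Amb n))ᗮ

/-- inverse stereographic projection -/
def sig (v : Sph n) (w : W v) : Sph n := stereoInvFun (norm_coe_sph v) w

/-- stereographic projection -/
def ster (v : Sph n) (x : Amb n) : W v := stereoToFun (v : Amb n) x

lemma coe_sig (v : Sph n) (w : W v) :
    (sig v w : Amb n) = (‖w‖ ^ 2 + 4)⁻¹ • ((4 : ℝ) • (w : Amb n) + (‖w‖ ^ 2 - 4) • (v : Amb n)) :=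
  rfl

lemma ster_sig (v : Sph n) (w : W v) : ster v (sig v w : Amb n) = w :=
  stereo_right_inv (norm_coe_sph v) w

lemma sig_ster (v : Sph n) {x : Sph n} (hx : x ≠ v) : sig v (ster v (x : Amb n)) = x :=
  stereo_left_inv (norm_coe_sph v) (fun h => hx (Subtype.ext h))

lemma inner_W (v : Sph n) (w : W v) : ⟪(v : Amb n), (w : Amb n)⟫ = 0 :=
  Submodule.mem_orthogonal_singleton_iff_inner_right.mp w.2

lemma inner_sig (v : Sph n) (w : W v) :
    ⟪(v : Amb n), (sig v w : Amb n)⟫ = (‖w‖ ^ 2 - 4) / (‖w‖ ^ 2 + 4) := by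
  rw [coe_sig, real_inner_smul_right, inner_add_right, real_inner_smul_right,
    real_inner_smul_right, inner_W, inner_self_sph]
  rw [mul_zero, zero_add, mul_one, div_eq_inv_mul]

lemma sig_ne (v : Sph n) (w : W v) : sig v w ≠ v := by
  intro h
  have h1 := inner_sig v w
  rw [h, inner_self_sph] at h1
  have h2 : 0 < ‖w‖ ^ 2 + 4 := by positivity
  rw [eq_div_iff h2.ne'] at h1
  linarith

lemma dilS_sig (v : Sph n) (t : ℝ) (w : W v) :
    dilS v t (sig v w) = sig v (Real.exp (-t) • w) := by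
  apply Subtype.ext
  rw [coe_dilS, coe_sig v (Real.exp (-t) • w)]
  have hl := Real.exp_pos (-t)
  set l := Real.exp (-t) with hldef
  have h2 : 0 < ‖w‖ ^ 2 + 4 := by positivity
  have h3 : 0 < (l * ‖w‖) ^ 2 + 4 := by positivity
  have hin := inner_sig v w
  have hn : ‖l • w‖ = l * ‖w‖ := by rw [norm_smul, Real.norm_of_nonneg hl.le]
  have hden : dden (v : Amb n) (sig v w : Amb n) l = 2 * ((l * ‖w‖) ^ 2 + 4) / (‖w‖ ^ 2 + 4) := by
    unfold dden
    rw [hin]
    field_simp
    ring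
  unfold dfun
  rw [hden, hin, hn, coe_sig]
  have hc : ((l • w : W v) : Amb n) = l • (w : Amb n) := rfl
  rw [hc]
  match_scalars
  · field_simp
  · field_simp
    ring

end Pool.Agent.Helper76.SobDiff
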