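import Pool.Agent.Helper76.SobDiff.Trig
import Pool.Agent.Helper76.SobDiff.Bridge

/-!
# The exponential map of the sphere
-/

open scoped Manifold ContDiff ENNReal RealInnerProductSpace Topology
open MeasureTheory Set Filter

noncomputable section

namespace Pool.Agent.Helper76.SobDiff

variable {n : ℕ}

lemma inner_base_expMap (x : Sph n) (e : Euc n →ₗᵢ[ℝ] Amb n)
    (he : ∀ v, ⟪(x : Amb n), e v⟫ = 0) (v : Euc n) :
    ⟪(x : Amb n), expMap x e v⟫ = Real.cos ‖v‖ := by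
  have hx : ⟪(x : Amb n), (x : Amb n)⟫ = 1 := by
    rw [real_inner_self_eq_norm_sq, norm_coe_sph]; norm_num
  unfold expMap
  simp only [inner_add_right, real_inner_smul_right, he, hx]
  ring

lemma angle_base_expMap (x : Sph n) (e : Euc n →ₗᵢ[ℝ] Amb n)
    (he : ∀ v, ⟪(x : Amb n), e v⟫ = 0) {v : Euc n} (hv : ‖v‖ ≤ Real.pi) :
    InnerProductGeometry.angle (x : Amb n) (expMap x e v) = ‖v‖ := by
  unfold InnerProductGeometry.angle
  rw [inner_base_expMap x e he, norm_coe_sph, norm_expMap x e he]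
  simp only [mul_one, div_one]
  exact Real.arccos_cos (norm_nonneg _) hv

lemma sinc_nonneg_of_le_pi {r : ℝ} (h0 : 0 ≤ r) (h : r ≤ Real.pi) : 0 ≤ Real.sinc r := by
  rcases eq_or_ne r 0 with rfl | hr
  · simp
  · rw [Real.sinc_of_ne_zero hr]
    exact div_nonneg (Real.sin_nonneg_of_nonneg_of_le_pi h0 h) h0

lemma sinc_pos_of_lt_pi {r : ℝ} (h0 : 0 ≤ r) (h : r < Real.pi) : 0 < Real.sinc r := by
  rcases eq_or_ne r 0 with rfl | hr
  · simp
  · rw [Real.sinc_of_ne_zero hr]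
    have : 0 < r := lt_of_le_of_ne h0 hr.symm
    exact div_pos (Real.sin_pos_of_pos_of_lt_pi this h) this

/-- a positive lower bound of `sinc` on `[0,r]`, `r < π` -/
lemma exists_sinc_lower {r : ℝ} (h : r < Real.pi) :
    ∃ c : ℝ, 0 < c ∧ ∀ t, 0 ≤ t → t ≤ r → c ≤ Real.sinc t := by
  rcases lt_or_ge r 0 with hr | hr
  · exact ⟨1, one_pos, fun t h0 h1 => by linarith⟩
  · have hc : IsCompact (Icc 0 r) := isCompact_Icc
    obtain ⟨t0, ht0, hmin⟩ := hc.exists_isMinOn ⟨0, by simp [hr]⟩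
      Real.continuous_sinc.continuousOn
    refine ⟨Real.sinc t0, sinc_pos_of_lt_pi ht0.1 (lt_of_le_of_lt ht0.2 h), ?_⟩
    intro t h0 h1
    exact hmin ⟨h0, h1⟩

/-- the exponential map is bi-Lipschitz from below on balls of radius `r < π` -/
lemma expMap_lower {r : ℝ} (hr : r < Real.pi) :
    ∃ c : ℝ, 0 < c ∧ ∀ (x : Sph n) (e : Euc n →ₗᵢ[ℝ] Amb n), (∀ v, ⟪(x : Amb n), e v⟫ = 0) →
      ∀ v w : Euc n, ‖v‖ ≤ r → ‖w‖ ≤ r → c * ‖v - w‖ ≤ ‖expMap x e v - expMap x e w‖ := by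
  obtain ⟨c0, hc0, hsinc⟩ := exists_sinc_lower hr
  have hpi := Real.pi_pos
  set c : ℝ := min (c0) (2 / Real.pi) with hc
  have hcpos : 0 < c := lt_min hc0 (by positivity)
  refine ⟨c, hcpos, ?_⟩
  intro x e he v w hv hw
  have hexp : ‖expMap x e v - expMap x e w‖ ^ 2 =
      2 - 2 * (Real.cos ‖v‖ * Real.cos ‖w‖ + Real.sinc ‖v‖ * Real.sinc ‖w‖ * ⟪v, w⟫) := by
    rw [norm_sub_sq_real, norm_expMap x e he, norm_expMap x e he, inner_expMap x e he]
    ring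
  have hvw : ‖v - w‖ ^ 2 = (‖v‖ - ‖w‖) ^ 2 + 2 * (‖v‖ * ‖w‖ - ⟪v, w⟫) := by
    rw [norm_sub_sq_real]; ring
  have hcs : 0 ≤ ‖v‖ * ‖w‖ - ⟪v, w⟫ := by
    have := real_inner_le_norm v w
    linarith
  have hcos : Real.cos (‖v‖ - ‖w‖) ≤ 1 - 2 / Real.pi ^ 2 * (‖v‖ - ‖w‖) ^ 2 := by
    apply Real.cos_le_one_sub_mul_cos_sq
    rw [abs_le]
    constructor <;> linarith [norm_nonneg v, norm_nonneg w]
  have hcos2 : Real.cos (‖v‖ - ‖w‖) = Real.cos ‖v‖ * Real.cos ‖w‖ +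
      (Real.sinc ‖v‖ * ‖v‖) * (Real.sinc ‖w‖ * ‖w‖) := by
    rw [Real.cos_sub, sinc_mul_self, sinc_mul_self]
  have hs1 := hsinc ‖v‖ (norm_nonneg v) hv
  have hs2 := hsinc ‖w‖ (norm_nonneg w) hw
  have hss : c ^ 2 ≤ Real.sinc ‖v‖ * Real.sinc ‖w‖ := by
    have h1 : c ≤ Real.sinc ‖v‖ := (min_le_left _ _).trans hs1
    have h2 : c ≤ Real.sinc ‖w‖ := (min_le_left _ _).trans hs2
    nlinarith
  have hc2 : c ^ 2 ≤ 4 / Real.pi ^ 2 := by
    have h1 : c ≤ 2 / Real.pi := min_le_right _ _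
    calc c ^ 2 ≤ (2 / Real.pi) ^ 2 := by gcongr
      _ = 4 / Real.pi ^ 2 := by rw [div_pow]; norm_num
  have key : (c * ‖v - w‖) ^ 2 ≤ ‖expMap x e v - expMap x e w‖ ^ 2 := by
    rw [hexp, mul_pow, hvw]
    have h1 : c ^ 2 * (‖v‖ - ‖w‖) ^ 2 ≤ 4 / Real.pi ^ 2 * (‖v‖ - ‖w‖) ^ 2 :=
      mul_le_mul_of_nonneg_right hc2 (sq_nonneg _)
    have h2 : c ^ 2 * (‖v‖ * ‖w‖ - ⟪v, w⟫) ≤
        Real.sinc ‖v‖ * Real.sinc ‖w‖ * (‖v‖ * ‖w‖ - ⟪v, w⟫) :=
      mul_le_mul_of_nonneg_right hss hcs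
    have h3 : 2 * (2 / Real.pi ^ 2 * (‖v‖ - ‖w‖) ^ 2) = 4 / Real.pi ^ 2 * (‖v‖ - ‖w‖) ^ 2 := by ring
    rw [hcos2] at hcos
    nlinarith [h1, h2, h3, hcos]
  exact le_of_sq_le_sq key (norm_nonneg _) 

/-- the differential of the exponential map is injective inside the ball of radius `π` -/
lemma fderiv_expMap_lower {x : Sph n} {e : Euc n →ₗᵢ[ℝ] Amb n} (he : ∀ v, ⟪(x : Amb n), e v⟫ = 0)
    {v : Euc n} (hv : ‖v‖ < Real.pi) :
    ∃ c : ℝ, 0 < c ∧ ∀ h, c * ‖h‖ ≤ ‖fderiv ℝ (expMap x e) v h‖ := by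
  obtain ⟨r, hr1, hr2⟩ := exists_between hv
  obtain ⟨c, hc, hlow⟩ := expMap_lower (n := n) hr2
  refine ⟨c, hc, ?_⟩
  intro h
  have hd : HasFDerivAt (expMap x e) (fderiv ℝ (expMap x e) v) v :=
    ((contDiff_expMap x e).differentiable (by simp)).differentiableAt.hasFDerivAt
  have hlim := hd.hasLineDerivAt h
  have h1 : Tendsto (fun t : ℝ => t⁻¹ • (expMap x e (v + t • h) - expMap x e v)) (𝓝[≠] 0)
      (𝓝 (fderiv ℝ (expMap x e) v h)) := hlim.tendsto_slope_zero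
  have h2 := h1.norm
  refine ge_of_tendsto h2 ?_
  have hball : ∀ᶠ t : ℝ in 𝓝[≠] (0 : ℝ), ‖v + t • h‖ ≤ r := by
    apply eventually_nhdsWithin_of_eventually_nhds
    have hcont : Continuous fun t : ℝ => ‖v + t • h‖ := by fun_prop
    have : Tendsto (fun t : ℝ => ‖v + t • h‖) (𝓝 0) (𝓝 ‖v‖) := by
      have := hcont.tendsto 0
      simpa using this
    filter_upwards [this.eventually (gt_mem_nhds hr1)] with t ht
    exact ht.le
  filter_upwards [hball, self_mem_nhdsWithin] with t ht ht0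
  have ht0' : t ≠ 0 := ht0
  have := hlow x e he (v + t • h) v ht hr1.le
  rw [add_sub_cancel_left, norm_smul] at this
  rw [norm_smul, norm_inv, ← div_eq_inv_mul, le_div_iff₀ (norm_pos_iff.mpr ht0')]
  linarith

lemma fderiv_expMap_injective {x : Sph n} {e : Euc n →ₗᵢ[ℝ] Amb n}
    (he : ∀ v, ⟪(x : Amb n), e v⟫ = 0) {v : Euc n} (hv : ‖v‖ < Real.pi) :
    Function.Injective (fderiv ℝ (expMap x e) v) := by
  obtain ⟨c, hc, hlow⟩ := fderiv_expMap_lower he hv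
  rw [injective_iff_map_eq_zero]
  intro h hh
  have := hlow h
  rw [hh, norm_zero] at this
  have h0 : ‖h‖ ≤ 0 := by
    by_contra hcon
    push Not at hcon
    have := mul_pos hc hcon
    linarith
  exact norm_le_zero_iff.mp h0

/-- the image of the differential of the exponential map is the tangent space -/
lemma range_fderiv_expMap {x : Sph n} {e : Euc n →ₗᵢ[ℝ] Amb n}
    (he : ∀ v, ⟪(x : Amb n), e v⟫ = 0) {v : Euc n} (hv : ‖v‖ < Real.pi) {y : Amb n}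
    (hy : ⟪expMap x e v, y⟫ = 0) : ∃ w, fderiv ℝ (expMap x e) v w = y := by
  set A := fderiv ℝ (expMap x e) v with hA
  have hd : HasFDerivAt (expMap x e) A v :=
    ((contDiff_expMap x e).differentiable (by simp)).differentiableAt.hasFDerivAt
  have horth : ∀ h, ⟪expMap x e v, A h⟫ = 0 := by
    intro h
    have h1 : HasFDerivAt (fun w => ⟪expMap x e w, expMap x e w⟫) _ v := hd.inner ℝ hd
    have h2 : (fun w => ⟪expMap x e w, expMap x e w⟫) = fun _ => (1 : ℝ) := by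
      funext w
      rw [real_inner_self_eq_norm_sq, norm_expMap x e he]; norm_num
    rw [h2] at h1
    have h3 := h1.unique (hasFDerivAt_const (1 : ℝ) v)
    have h4 := congrArg (fun T : Euc n →L[ℝ] ℝ => T h) h3
    simp [fderivInnerCLM_apply] at h4
    rw [real_inner_comm (expMap x e v) (A h)] at h4
    have h5 : ⟪A h, expMap x e v⟫ = ⟪expMap x e v, A h⟫ := real_inner_comm _ _
    linarith
  have hne : expMap x e v ≠ 0 := by
    intro h0
    have := norm_expMap x e he v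
    rw [h0, norm_zero] at this
    exact zero_ne_one this
  have hfact : Fact (Module.finrank ℝ (Amb n) = n + 1) := ⟨by simp⟩
  have hle : (LinearMap.range (A : Euc n →ₗ[ℝ] Amb n)) ≤ (ℝ ∙ expMap x e v)ᗮ := by
    rintro _ ⟨h, rfl⟩
    rw [Submodule.mem_orthogonal_singleton_iff_inner_right]
    exact horth h
  have hdim : Module.finrank ℝ (LinearMap.range (A : Euc n →ₗ[ℝ] Amb n)) =
      Module.finrank ℝ ((ℝ ∙ expMap x e v)ᗮ : Submodule ℝ (Amb n)) := by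
    rw [Submodule.finrank_orthogonal_span_singleton (n := n) hne,
      LinearMap.finrank_range_of_inj (fderiv_expMap_injective he hv)]
    simp
  have heq := Submodule.eq_of_le_of_finrank_eq hle hdim
  have hy' : y ∈ (ℝ ∙ expMap x e v)ᗮ :=
    Submodule.mem_orthogonal_singleton_iff_inner_right.mpr hy
  rw [← heq] at hy'
  exact hy'

end Pool.Agent.Helper76.SobDiff
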