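import Pool.Agent.Helper76.SobDiff.Chart

/-!
# Bounds for the norm of vector fields
-/

open scoped Manifold ContDiff ENNReal RealInnerProductSpace Topology
open MeasureTheory Set Filter

noncomputable section

namespace Pool.Agent.Helper76.SobDiff

variable {n : ℕ}

lemma sobolevNorm_smul {s p : ℝ} (hp : 0 < p) {f : Euc n → Euc n} (hf : ContDiff ℝ ∞ f) (c : ℝ) :
    sobolevNorm s p (fun x => c • f x) = ‖c‖ₑ * sobolevNorm s p f := by
  have hd : ∀ j x, iteratedFDeriv ℝ j (fun x => c • f x) x = c • iteratedFDeriv ℝ j f x := by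
    intro j x
    have h1 : ContDiffAt ℝ j f x := hf.contDiffAt.of_le (by exact_mod_cast le_top)
    exact iteratedFDeriv_const_smul_apply (a := c) h1
  have hcp : (‖c‖ₑ ^ p) ^ (1 / p) = ‖c‖ₑ := by
    rw [← ENNReal.rpow_mul, mul_one_div_cancel hp.ne', ENNReal.rpow_one]
  have hctop : ‖c‖ₑ ^ p ≠ ⊤ := ENNReal.rpow_ne_top_of_nonneg hp.le enorm_ne_top
  rw [sobolevNorm_eq, sobolevNorm_eq]
  simp_rw [hd]
  rw [mul_add]
  congr 1
  · have h1 : ∀ j, ∫⁻ x, ‖c • iteratedFDeriv ℝ j f x‖ₑ ^ p =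
        ‖c‖ₑ ^ p * ∫⁻ x, ‖iteratedFDeriv ℝ j f x‖ₑ ^ p := by
      intro j
      rw [← lintegral_const_mul' _ _ hctop]
      congr 1
      ext x
      rw [enorm_smul, ENNReal.mul_rpow_of_nonneg _ _ hp.le]
    simp_rw [h1]
    rw [← Finset.mul_sum, ENNReal.mul_rpow_of_nonneg _ _ (by positivity), hcp]
  · split_ifs with h0
    · simp
    · have h1 : ∀ x, ∫⁻ y, ‖c • iteratedFDeriv ℝ ⌊s⌋₊ f x - c • iteratedFDeriv ℝ ⌊s⌋₊ f y‖ₑ ^ p /
          ‖x - y‖ₑ ^ ((n : ℝ) + Int.fract s * p) = ‖c‖ₑ ^ p *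
          ∫⁻ y, ‖iteratedFDeriv ℝ ⌊s⌋₊ f x - iteratedFDeriv ℝ ⌊s⌋₊ f y‖ₑ ^ p /
          ‖x - y‖ₑ ^ ((n : ℝ) + Int.fract s * p) := by
        intro x
        rw [← lintegral_const_mul' _ _ hctop]
        congr 1
        ext y
        rw [← smul_sub, enorm_smul, ENNReal.mul_rpow_of_nonneg _ _ hp.le, mul_div_assoc]
      simp_rw [h1]
      rw [lintegral_const_mul' _ _ hctop, ENNReal.mul_rpow_of_nonneg _ _ (by positivity), hcp]

namespace ChartData

variable (𝒜 : ChartData n)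

lemma comp_smul {X : Sph n → Amb n} (hX : SmoothField X) (α : 𝒜.ι) (c : ℝ) :
    𝒜.comp α (fun y => c • X y) = fun v => c • 𝒜.comp α X v := by
  funext v
  by_cases hv : ‖v‖ < 𝒜.radius
  · rw [𝒜.comp_eq_coef hX.2 α hv, 𝒜.comp_eq_coef _ α hv, map_smul]
    intro y
    rw [real_inner_smul_right, hX.2, mul_zero]
  · rw [comp_eq', comp_eq']
    rw [if_neg hv, if_neg hv, smul_zero]

lemma fieldNorm_smul {s p : ℝ} (hp : 0 < p) {X : Sph n → Amb n} (hX : SmoothField X) (c : ℝ) :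
    𝒜.fieldNorm s p (fun y => c • X y) = ‖c‖ₑ * 𝒜.fieldNorm s p X := by
  unfold fieldNorm
  have h1 : ∀ α, sobolevNorm s p (𝒜.comp α (fun y => c • X y)) ^ 2 =
      ‖c‖ₑ ^ 2 * sobolevNorm s p (𝒜.comp α X) ^ 2 := by
    intro α
    rw [𝒜.comp_smul hX α c, sobolevNorm_smul hp (𝒜.contDiff_comp hX α), mul_pow]
  simp_rw [h1]
  rw [← Finset.mul_sum, ENNReal.mul_rpow_of_nonneg _ _ (by norm_num)]
  congr 1
  rw [← ENNReal.rpow_natCast, ← ENNReal.rpow_mul]
  norm_num

/-- uniform bound of the derivatives of the coefficients on the inner ball -/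
lemma exists_coef_bound (k : ℕ) : ∃ B : ℝ, 0 ≤ B ∧ ∀ α, ∀ i ≤ k, ∀ v : Euc n,
    ‖v‖ ≤ 𝒜.inner → ‖iteratedFDerivWithin ℝ i (𝒜.coef α) (Metric.ball 0 𝒜.radius) v‖ ≤ B := by
  have hopen : IsOpen (Metric.ball (0 : Euc n) 𝒜.radius) := Metric.isOpen_ball
  have h : ∀ (α : 𝒜.ι) (i : ℕ), ∃ B : ℝ, ∀ v : Euc n, ‖v‖ ≤ 𝒜.inner →
      ‖iteratedFDerivWithin ℝ i (𝒜.coef α) (Metric.ball 0 𝒜.radius) v‖ ≤ B := by
    intro α i
    have hc : ContDiffOn ℝ ∞ (𝒜.coef α) (Metric.ball 0 𝒜.radius) :=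
      (𝒜.contDiffOn_coef α).mono (Metric.ball_subset_ball 𝒜.radius_lt.le)
    have hcont := hc.continuousOn_iteratedFDerivWithin (m := i) (by exact_mod_cast le_top)
      hopen.uniqueDiffOn
    have hK : IsCompact (Metric.closedBall (0 : Euc n) 𝒜.inner) := isCompact_closedBall _ _
    have hsub : Metric.closedBall (0 : Euc n) 𝒜.inner ⊆ Metric.ball 0 𝒜.radius :=
      Metric.closedBall_subset_ball 𝒜.inner_lt
    obtain ⟨B, hB⟩ := hK.exists_bound_of_continuousOn (hcont.mono hsub)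
    exact ⟨B, fun v hv => hB v (by simpa using hv)⟩
  choose B hB using h
  refine ⟨∑ α, ∑ i ∈ Finset.range (k + 1), |B α i|, by positivity, ?_⟩
  intro α i hi v hv
  calc ‖iteratedFDerivWithin ℝ i (𝒜.coef α) (Metric.ball 0 𝒜.radius) v‖ ≤ B α i := hB α i v hv
    _ ≤ |B α i| := le_abs_self _
    _ ≤ ∑ i ∈ Finset.range (k + 1), |B α i| :=
        Finset.single_le_sum (f := fun i => |B α i|) (fun i _ => abs_nonneg _)
          (Finset.mem_range.mpr (by omega))
    _ ≤ ∑ α, ∑ i ∈ Finset.range (k + 1), |B α i| :=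
        Finset.single_le_sum (f := fun α => ∑ i ∈ Finset.range (k + 1), |B α i|)
          (fun α _ => Finset.sum_nonneg fun i _ => abs_nonneg _) (Finset.mem_univ α)

/-- a general bound of the norm of a field in terms of its derivatives in the charts, with the
right scaling -/
theorem fieldNorm_le (hn : 1 ≤ n) {s p : ℝ} (hp : 1 ≤ p) (hs : 0 ≤ s) {R : ℝ} (hR : 0 ≤ R) :
    ∃ C : ℝ, 0 ≤ C ∧ ∀ (M l : ℝ) (X : Sph n → Amb n), SmoothField X → 0 ≤ M → 0 < l → l ≤ 1 →
      (∀ α, ∃ c : Euc n, ∀ v, ‖v‖ ≤ 𝒜.inner → X (𝒜.exp α v) ≠ 0 → ‖v - c‖ ≤ R * l) →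
      (∀ α, ∀ j ≤ ⌊s⌋₊ + 1, ∀ v, ‖v‖ ≤ 𝒜.inner →
        ‖iteratedFDeriv ℝ j (fun v => X (𝒜.exp α v)) v‖ ≤ M * l ^ (1 - (j : ℝ))) →
      𝒜.fieldNorm s p X ≤ ENNReal.ofReal (C * M * l ^ (1 - s + n / p)) := by
  obtain ⟨C0, hC0, hsob⟩ := sobolevNorm_le hn hp hs hR
  obtain ⟨B, hB0, hB⟩ := 𝒜.exists_coef_bound (⌊s⌋₊ + 1)
  set k := ⌊s⌋₊ with hk
  set N : ℝ := (Fintype.card 𝒜.ι : ℝ) with hN
  refine ⟨Real.sqrt N * (C0 * (2 ^ (k + 1) * B)), by positivity, ?_⟩
  intro M l X hX hM hl hl1 hsupp hder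
  have hopen : IsOpen (Metric.ball (0 : Euc n) 𝒜.radius) := Metric.isOpen_ball
  have hterm : ∀ α, sobolevNorm s p (𝒜.comp α X) ≤
      ENNReal.ofReal (C0 * (2 ^ (k + 1) * B * M) * l ^ (1 - s + n / p)) := by
    intro α
    obtain ⟨c, hc⟩ := hsupp α
    apply hsob (2 ^ (k + 1) * B * M) l (𝒜.comp α X) c (by positivity) hl hl1 (𝒜.contDiff_comp hX α)
    · intro x hx
      by_cases hxi : 𝒜.inner < ‖x‖
      · exact 𝒜.comp_eq_zero X α hxi
      · have hxi' := not_lt.mp hxi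
        have hX0 : X (𝒜.exp α x) = 0 := by
          by_contra hne
          have := hc x hxi' hne
          linarith
        rw [𝒜.comp_eq_coef hX.2 α (lt_of_le_of_lt hxi' 𝒜.inner_lt), hX0, map_zero]
    · intro j hj x
      by_cases hxi : 𝒜.inner < ‖x‖
      · have h0 : iteratedFDeriv ℝ j (𝒜.comp α X) x = 0 := by
          apply iteratedFDeriv_eq_zero_of_far (c := 0) (r := 𝒜.inner)
          · intro y hy
            exact 𝒜.comp_eq_zero X α (by simpa using hy)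
          · simpa using hxi
        rw [h0, norm_zero]
        positivity
      · have hxi' := not_lt.mp hxi
        have hxr : x ∈ Metric.ball (0 : Euc n) 𝒜.radius := by
          simpa using lt_of_le_of_lt hxi' 𝒜.inner_lt
        have hXs : ContDiff ℝ ∞ (fun v => X (𝒜.exp α v)) := 𝒜.contDiff_comp_exp hX.1 α
        have hev : 𝒜.comp α X =ᶠ[𝓝 x] fun v =>
            ((ContinuousLinearMap.id ℝ (Amb n →L[ℝ] Euc n)) (𝒜.coef α v)) (X (𝒜.exp α v)) := by
          filter_upwards [hopen.mem_nhds hxr] with w hw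
          exact 𝒜.comp_eq_coef hX.2 α (by simpa using hw)
        rw [(hev.iteratedFDeriv ℝ j).eq_of_nhds]
        rw [← iteratedFDerivWithin_of_isOpen (𝕜 := ℝ) j hopen hxr]
        refine (ContinuousLinearMap.norm_iteratedFDerivWithin_le_of_bilinear
          (ContinuousLinearMap.id ℝ (Amb n →L[ℝ] Euc n))
          ((𝒜.contDiffOn_coef α).mono (Metric.ball_subset_ball 𝒜.radius_lt.le)) hXs.contDiffOn
          hopen.uniqueDiffOn hxr (n := j) (by exact_mod_cast le_top)).trans ?_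
        have hid : ‖ContinuousLinearMap.id ℝ (Amb n →L[ℝ] Euc n)‖ ≤ 1 :=
          ContinuousLinearMap.norm_id_le
        have hsum : ∑ i ∈ Finset.range (j + 1), (j.choose i : ℝ) *
            ‖iteratedFDerivWithin ℝ i (𝒜.coef α) (Metric.ball 0 𝒜.radius) x‖ *
            ‖iteratedFDerivWithin ℝ (j - i) (fun v => X (𝒜.exp α v))
              (Metric.ball 0 𝒜.radius) x‖ ≤
            ∑ i ∈ Finset.range (j + 1), (j.choose i : ℝ) * (B * (M * l ^ (1 - (j : ℝ)))) := by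
          apply Finset.sum_le_sum
          intro i hi
          have hi' : i ≤ j := by simpa [Nat.lt_succ_iff] using hi
          rw [mul_assoc]
          apply mul_le_mul_of_nonneg_left _ (by positivity)
          apply mul_le_mul (hB α i (by omega) x hxi') _ (norm_nonneg _) hB0
          rw [iteratedFDerivWithin_of_isOpen (𝕜 := ℝ) (j - i) hopen hxr]
          refine (hder α (j - i) (by omega) x hxi').trans ?_
          apply mul_le_mul_of_nonneg_left _ hM
          apply Real.rpow_le_rpow_of_exponent_ge hl hl1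
          rw [Nat.cast_sub hi']
          have : (0 : ℝ) ≤ i := Nat.cast_nonneg i
          linarith
        have hnn : (0 : ℝ) ≤ ∑ i ∈ Finset.range (j + 1), (j.choose i : ℝ) *
            ‖iteratedFDerivWithin ℝ i (𝒜.coef α) (Metric.ball 0 𝒜.radius) x‖ *
            ‖iteratedFDerivWithin ℝ (j - i) (fun v => X (𝒜.exp α v))
              (Metric.ball 0 𝒜.radius) x‖ := by positivity
        refine (mul_le_of_le_one_left hnn hid).trans (hsum.trans ?_)
        rw [← Finset.sum_mul, ← Nat.cast_sum, Nat.sum_range_choose]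
        push_cast
        have h2 : (2 : ℝ) ^ j ≤ 2 ^ (k + 1) := pow_le_pow_right₀ (by norm_num) hj
        calc (2 : ℝ) ^ j * (B * (M * l ^ (1 - (j : ℝ))))
            ≤ 2 ^ (k + 1) * (B * (M * l ^ (1 - (j : ℝ)))) :=
              mul_le_mul_of_nonneg_right h2 (by positivity)
          _ = 2 ^ (k + 1) * B * M * l ^ (1 - (j : ℝ)) := by ring
  set a : ℝ := C0 * (2 ^ (k + 1) * B * M) * l ^ (1 - s + n / p) with ha
  have ha0 : 0 ≤ a := by positivity
  unfold fieldNorm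
  have hsum : ∑ α, sobolevNorm s p (𝒜.comp α X) ^ 2 ≤ ENNReal.ofReal (N * a ^ 2) := by
    calc ∑ α, sobolevNorm s p (𝒜.comp α X) ^ 2 ≤ ∑ _α : 𝒜.ι, ENNReal.ofReal a ^ 2 := by
          apply Finset.sum_le_sum
          intro α _
          exact pow_le_pow_left' (hterm α) 2
      _ = ENNReal.ofReal (N * a ^ 2) := by
          have hN0 : (0 : ℝ) ≤ N := by positivity
          rw [Finset.sum_const, Finset.card_univ, nsmul_eq_mul, ENNReal.ofReal_mul (p := N) hN0,
            ENNReal.ofReal_pow ha0, hN]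
          simp
  refine (ENNReal.rpow_le_rpow hsum (by norm_num)).trans ?_
  rw [ENNReal.ofReal_rpow_of_nonneg (by positivity) (by norm_num)]
  apply ENNReal.ofReal_le_ofReal
  rw [← Real.sqrt_eq_rpow, Real.sqrt_mul (by positivity), Real.sqrt_sq ha0, ha]
  apply le_of_eq
  ring

end ChartData

end Pool.Agent.Helper76.SobDiff
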