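import Pool.Agent.Helper76.SobDiff.Inverse
import Pool.Agent.Helper76.SobDiff.FieldNorm

/-!
# Smooth families of diffeomorphisms and their velocity fields
-/

open scoped Manifold ContDiff ENNReal RealInnerProductSpace Topology
open MeasureTheory Set Filter

noncomputable section

namespace Pool.Agent.Helper76.SobDiff

variable {n : ℕ}
variable {P Q : Type*} [NormedAddCommGroup P] [NormedSpace ℝ P] [NormedAddCommGroup Q]
  [NormedSpace ℝ Q]

/-- composition of diffeomorphisms -/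
def cmp (a b : Diffeo n) : Diffeo n := b.trans a

@[simp] lemma cmp_apply (a b : Diffeo n) (x : Sph n) : cmp a b x = a (b x) := rfl
@[simp] lemma cmp_symm_apply (a b : Diffeo n) (x : Sph n) :
    (cmp a b).symm x = b.symm (a.symm x) := rfl
@[simp] lemma one_apply (x : Sph n) : Diffeo.one n x = x := rfl
@[simp] lemma one_symm_apply (x : Sph n) : (Diffeo.one n).symm x = x := rfl

/-- smooth families of diffeomorphisms -/
def SmoothFam (γ : P → Diffeo n) : Prop :=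
  ContMDiff (𝓘(ℝ, P).prod (𝓡 n)) (𝓡 n) ∞ (fun q : P × Sph n => γ q.1 q.2)

lemma SmoothFam.comp {γ δ : P → Diffeo n} (hγ : SmoothFam γ) (hδ : SmoothFam δ) :
    SmoothFam (fun p => cmp (γ p) (δ p)) := by
  have h1 : ContMDiff (𝓘(ℝ, P).prod (𝓡 n)) (𝓘(ℝ, P).prod (𝓡 n)) ∞
      (fun q : P × Sph n => (q.1, δ q.1 q.2)) := contMDiff_fst.prodMk hδ
  exact ContMDiff.comp (g := fun q : P × Sph n => γ q.1 q.2) hγ h1

lemma SmoothFam.symm [CompleteSpace P] {γ : P → Diffeo n} (hγ : SmoothFam γ) :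
    SmoothFam (fun p => (γ p).symm) := contMDiff_symm_param hγ

lemma SmoothFam.reparam {γ : P → Diffeo n} (hγ : SmoothFam γ) {f : Q → P}
    (hf : ContDiff ℝ ∞ f) : SmoothFam (fun q => γ (f q)) := by
  have h1 : ContMDiff (𝓘(ℝ, Q).prod (𝓡 n)) (𝓘(ℝ, P).prod (𝓡 n)) ∞
      (fun q : Q × Sph n => (f q.1, q.2)) :=
    (hf.contMDiff.comp contMDiff_fst).prodMk contMDiff_snd
  exact ContMDiff.comp (g := fun q : P × Sph n => γ q.1 q.2) hγ h1

lemma SmoothFam.const (a : Diffeo n) : SmoothFam (fun _ : P => a) :=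
  a.contMDiff.comp contMDiff_snd

/-- velocity field of a family over `ℝ` -/
def vel (γ : ℝ → Diffeo n) (t : ℝ) (y : Sph n) : Amb n :=
  deriv (fun τ => (γ τ ((γ t).symm y) : Amb n)) t

/-- ambient form of a family -/
def amb (γ : P → Diffeo n) (q : P × Amb n) : Amb n := (γ q.1 (nrm q.2) : Amb n)

lemma contDiffAt_amb {γ : P → Diffeo n} (hγ : SmoothFam γ) (p : P) {x : Amb n} (hx : x ≠ 0) :
    ContDiffAt ℝ ∞ (amb γ) (p, x) :=
  contDiffAt_ambient (contMDiff_sph_iff.mp hγ) hx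

lemma hasDerivAt_fam {γ : ℝ → Diffeo n} (hγ : SmoothFam γ) (t : ℝ) (x : Sph n) :
    HasDerivAt (fun τ => (γ τ x : Amb n)) (fderiv ℝ (amb γ) (t, (x : Amb n)) (1, 0)) t := by
  have h1 : HasFDerivAt (amb γ) (fderiv ℝ (amb γ) (t, (x : Amb n))) (t, (x : Amb n)) :=
    ((contDiffAt_amb hγ t (coe_sph_ne_zero x)).differentiableAt (by simp)).hasFDerivAt
  have h2 : HasDerivAt (fun τ : ℝ => (τ, (x : Amb n))) (1, 0) t :=
    (hasDerivAt_id t).prodMk (hasDerivAt_const t _)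
  have h3 := h1.comp_hasDerivAt t h2
  refine h3.congr_of_eventuallyEq (Eventually.of_forall fun τ => ?_)
  simp [amb]

lemma vel_eq {γ : ℝ → Diffeo n} (hγ : SmoothFam γ) (t : ℝ) (y : Sph n) :
    vel γ t y = fderiv ℝ (amb γ) (t, ((γ t).symm y : Amb n)) (1, 0) :=
  (hasDerivAt_fam hγ t _).deriv

lemma hasDerivAt_vel {γ : ℝ → Diffeo n} (hγ : SmoothFam γ) (t : ℝ) (x : Sph n) :
    HasDerivAt (fun τ => (γ τ x : Amb n)) (vel γ t (γ t x)) t := by
  rw [vel_eq hγ]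
  have : (γ t).symm (γ t x) = x := (γ t).symm_apply_apply x
  rw [this]
  exact hasDerivAt_fam hγ t x

lemma contMDiff_vel {γ : ℝ → Diffeo n} (hγ : SmoothFam γ) :
    ContMDiff (𝓘(ℝ, ℝ).prod (𝓡 n)) 𝓘(ℝ, Amb n) ∞ (fun q : ℝ × Sph n => vel γ q.1 q.2) := by
  refine contMDiff_of_ambient
    (g := fun q : ℝ × Amb n => fderiv ℝ (amb γ) (q.1, ((γ q.1).symm (nrm q.2) : Amb n)) (1, 0))
    ?_ ?_
  · intro t x
    have h1 : ContDiffAt ℝ ∞ (fun q : ℝ × Amb n => ((γ q.1).symm (nrm q.2) : Amb n))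
        (t, (x : Amb n)) := contDiffAt_ambient (contMDiff_sph_iff.mp hγ.symm) (coe_sph_ne_zero x)
    have h2 : ContDiffAt ℝ ∞ (fun q : ℝ × Amb n => (q.1, ((γ q.1).symm (nrm q.2) : Amb n)))
        (t, (x : Amb n)) := contDiffAt_fst.prodMk h1
    have h3 : ContDiffAt ℝ ∞ (fderiv ℝ (amb γ))
        (t, ((γ t).symm (nrm (x : Amb n)) : Amb n)) :=
      (contDiffAt_amb hγ t (coe_sph_ne_zero _)).fderiv_right (m := ∞) (by simp)
    have h4 := ContDiffAt.comp (g := fderiv ℝ (amb γ))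
      (f := fun q : ℝ × Amb n => (q.1, ((γ q.1).symm (nrm q.2) : Amb n))) (t, (x : Amb n)) h3 h2
    exact h4.clm_apply contDiffAt_const
  · intro t x
    rw [vel_eq hγ, nrm_coe]

/-- curves in the sphere have tangent velocity -/
lemma inner_deriv_eq_zero {c : ℝ → Sph n} {c' : Amb n} {t : ℝ}
    (h : HasDerivAt (fun τ => (c τ : Amb n)) c' t) : ⟪(c t : Amb n), c'⟫ = 0 := by
  have h1 : HasDerivAt (fun τ => ⟪(c τ : Amb n), (c τ : Amb n)⟫) _ t := h.inner ℝ h
  have h2 : (fun τ => ⟪(c τ : Amb n), (c τ : Amb n)⟫) = fun _ => (1 : ℝ) := by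
    funext τ
    rw [real_inner_self_eq_norm_sq, norm_coe_sph]; norm_num
  rw [h2] at h1
  have h3 := h1.unique (hasDerivAt_const t (1 : ℝ))
  rw [real_inner_comm (c t : Amb n) c'] at h3
  have h5 : ⟪c', (c t : Amb n)⟫ = ⟪(c t : Amb n), c'⟫ := real_inner_comm _ _
  linarith

lemma smoothField_vel {γ : ℝ → Diffeo n} (hγ : SmoothFam γ) (t : ℝ) : SmoothField (vel γ t) := by
  constructor
  · have h1 : ContMDiff (𝓡 n) (𝓘(ℝ, ℝ).prod (𝓡 n)) ∞ (fun y : Sph n => (t, y)) :=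
      contMDiff_const.prodMk contMDiff_id
    exact (contMDiff_vel hγ).comp h1
  · intro y
    have h := hasDerivAt_vel hγ t ((γ t).symm y)
    have h2 := inner_deriv_eq_zero (c := fun τ => γ τ ((γ t).symm y)) h
    have h3 : γ t ((γ t).symm y) = y := (γ t).apply_symm_apply y
    rwa [h3] at h2

end Pool.Agent.Helper76.SobDiff
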