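import Pool.Agent.Helper76.SobDiff.Bridge

/-!
# Joint smoothness of the inverse of a smooth family of diffeomorphisms
-/

open scoped Manifold ContDiff ENNReal RealInnerProductSpace Topology
open MeasureTheory Set

noncomputable section

set_option linter.unusedSectionVars false

namespace Pool.Agent.Helper76.SobDiff

section general

variable {P X Y : Type*} [NormedAddCommGroup P] [NormedSpace ℝ P] [CompleteSpace P]
  [NormedAddCommGroup X] [NormedSpace ℝ X] [CompleteSpace X]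
  [NormedAddCommGroup Y] [NormedSpace ℝ Y]

lemma contDiffAt_of_leftInverse {f : X → Y} {g : Y → X} {a : X} {e : X ≃L[ℝ] Y}
    (hf : ContDiffAt ℝ ∞ f a) (hf' : HasFDerivAt f (e : X →L[ℝ] Y) a)
    (hg : ∀ᶠ x in 𝓝 a, g (f x) = x) : ContDiffAt ℝ ∞ g (f a) := by
  have hn : (∞ : WithTop ℕ∞) ≠ 0 := by simp
  have h1 := hf.to_localInverse hf' hn
  have h2 := (hf.hasStrictFDerivAt' hf' hn).localInverse_unique hg
  exact h1.congr_of_eventuallyEq h2

lemma contDiffAt_param_leftInverse {f : P × X → Y} {g : P × Y → X} {p0 : P} {x0 : X}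
    {e : X ≃L[ℝ] Y} (hf : ContDiffAt ℝ ∞ f (p0, x0))
    (he : HasFDerivAt (fun x => f (p0, x)) (e : X →L[ℝ] Y) x0)
    (hg : ∀ᶠ q in 𝓝 (p0, x0), g (q.1, f q) = q.2) :
    ContDiffAt ℝ ∞ g (p0, f (p0, x0)) := by
  have hn : (∞ : WithTop ℕ∞) ≠ 0 := by simp
  set D := fderiv ℝ f (p0, x0) with hD
  have hfd : HasFDerivAt f D (p0, x0) := (hf.differentiableAt hn).hasFDerivAt
  have hslice : HasFDerivAt (fun x => f (p0, x)) (D.comp (ContinuousLinearMap.inr ℝ P X)) x0 :=
    hfd.comp x0 (hasFDerivAt_prodMk_right p0 x0)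
  have hDe : D.comp (ContinuousLinearMap.inr ℝ P X) = (e : X →L[ℝ] Y) := hslice.unique he
  set A : P →L[ℝ] Y := D.comp (ContinuousLinearMap.inl ℝ P X) with hA
  have hDdec : ∀ q : P × X, D q = A q.1 + e q.2 := by
    intro q
    have h1 : D q = D (q.1, 0) + D (0, q.2) := by
      rw [← map_add]; simp
    have h2 : D (0, q.2) = e q.2 := by
      have := congrArg (fun T : X →L[ℝ] Y => T q.2) hDe
      simpa using this
    rw [h1, h2]
    rfl
  let L1 : P × X →L[ℝ] P × Y := (ContinuousLinearMap.fst ℝ P X).prod D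
  let L2 : P × Y →L[ℝ] P × X :=
    (ContinuousLinearMap.fst ℝ P Y).prod
      ((e.symm : Y →L[ℝ] X).comp
        (ContinuousLinearMap.snd ℝ P Y - A.comp (ContinuousLinearMap.fst ℝ P Y)))
  let L : (P × X) ≃L[ℝ] (P × Y) := ContinuousLinearEquiv.equivOfInverse L1 L2
    (by
      intro q
      apply Prod.ext
      · rfl
      · change e.symm (D q - A q.1) = q.2
        rw [hDdec]; simp)
    (by
      intro q
      apply Prod.ext
      · rfl
      · change D (q.1, e.symm (q.2 - A q.1)) = q.2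
        rw [hDdec]; simp)
  have hΦ : ContDiffAt ℝ ∞ (fun q : P × X => (q.1, f q)) (p0, x0) := contDiffAt_fst.prodMk hf
  have hΦ' : HasFDerivAt (fun q : P × X => (q.1, f q)) (L : P × X →L[ℝ] P × Y) (p0, x0) :=
    hasFDerivAt_fst.prodMk hfd
  have hg' : ∀ᶠ q in 𝓝 (p0, x0), (fun z : P × Y => (z.1, g z)) ((fun q : P × X => (q.1, f q)) q) = q := by
    filter_upwards [hg] with q hq
    exact Prod.ext rfl hq
  have h := contDiffAt_of_leftInverse (g := fun z : P × Y => (z.1, g z)) hΦ hΦ' hg'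
  exact h.snd

end general

variable {n : ℕ}
variable {P : Type*} [NormedAddCommGroup P] [NormedSpace ℝ P] [CompleteSpace P]

/-- degree one homogeneous extension -/
def homExt (f : P × Sph n → Sph n) (q : P × Amb n) : Amb n :=
  ‖q.2‖ • (f (q.1, nrm q.2) : Amb n)

lemma contDiffAt_homExt {f : P × Sph n → Sph n}
    (hf : ContMDiff (𝓘(ℝ, P).prod (𝓡 n)) (𝓡 n) ∞ f) {p : P} {x : Amb n} (hx : x ≠ 0) :
    ContDiffAt ℝ ∞ (homExt f) (p, x) := by
  unfold homExt
  apply ContDiffAt.fun_smul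
  · exact (contDiffAt_norm ℝ (x := ((p, x) : P × Amb n).2) hx).comp (p, x) contDiffAt_snd
  · exact contDiffAt_ambient (contMDiff_sph_iff.mp hf) hx

lemma homExt_ne_zero (f : P × Sph n → Sph n) {q : P × Amb n} (hq : q.2 ≠ 0) :
    homExt f q ≠ 0 := by
  unfold homExt
  exact smul_ne_zero (norm_ne_zero_iff.mpr hq) (coe_sph_ne_zero _)

lemma norm_homExt (f : P × Sph n → Sph n) (q : P × Amb n) : ‖homExt f q‖ = ‖q.2‖ := by
  unfold homExt
  rw [norm_smul, norm_coe_sph]
  simp

lemma nrm_homExt (f : P × Sph n → Sph n) {q : P × Amb n} (hq : q.2 ≠ 0) :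
    nrm (homExt f q) = f (q.1, nrm q.2) := by
  unfold homExt
  exact nrm_smul_coe (norm_pos_iff.mpr hq) _

lemma homExt_coe (f : P × Sph n → Sph n) (p : P) (x : Sph n) :
    homExt f (p, (x : Amb n)) = f (p, x) := by
  unfold homExt
  simp

lemma homExt_homExt {f g : P × Sph n → Sph n} (h : ∀ p x, g (p, f (p, x)) = x)
    {q : P × Amb n} (hq : q.2 ≠ 0) : homExt g (q.1, homExt f q) = q.2 := by
  have h1 : homExt g (q.1, homExt f q) =
      ‖homExt f q‖ • (g (q.1, nrm (homExt f q)) : Amb n) := rfl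
  rw [h1, norm_homExt, nrm_homExt f hq, h, norm_smul_nrm hq]

theorem contMDiff_symm_param {γ : P → Diffeo n}
    (hγ : ContMDiff (𝓘(ℝ, P).prod (𝓡 n)) (𝓡 n) ∞ (fun q : P × Sph n => γ q.1 q.2)) :
    ContMDiff (𝓘(ℝ, P).prod (𝓡 n)) (𝓡 n) ∞ (fun q : P × Sph n => (γ q.1).symm q.2) := by
  set f : P × Sph n → Sph n := fun q => γ q.1 q.2 with hf
  set g : P × Sph n → Sph n := fun q => (γ q.1).symm q.2 with hg
  rw [contMDiff_sph_iff]
  refine contMDiff_of_ambient (g := homExt g) ?_ (fun p x => (homExt_coe g p x).symm)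
  intro p0 y0
  have hgf : ∀ p x, g (p, f (p, x)) = x := fun p x => (γ p).symm_apply_apply x
  have hfg : ∀ p x, f (p, g (p, x)) = x := fun p x => (γ p).apply_symm_apply x
  set x0 : Sph n := g (p0, y0) with hx0
  have hfx0 : f (p0, x0) = y0 := hfg p0 y0
  have hfsm : ContDiffAt ℝ ∞ (homExt f) (p0, (x0 : Amb n)) :=
    contDiffAt_homExt hγ (coe_sph_ne_zero x0)
  -- the two slices
  set F : Amb n → Amb n := fun x => homExt f (p0, x) with hF
  set G : Amb n → Amb n := fun y => homExt g (p0, y) with hG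
  have hFsm : ContDiffAt ℝ ∞ F (x0 : Amb n) :=
    hfsm.comp (x0 : Amb n) (contDiffAt_const.prodMk contDiffAt_id)
  have hGsm : ContDiffAt ℝ ∞ G (y0 : Amb n) := by
    have h1 : ContMDiff (𝓘(ℝ, P).prod (𝓡 n)) (𝓡 n) ∞
        (fun q : P × Sph n => (γ p0).symm q.2) := (γ p0).symm.contMDiff.comp contMDiff_snd
    have h2 := contDiffAt_homExt h1 (p := p0) (coe_sph_ne_zero y0)
    exact h2.comp (y0 : Amb n) (contDiffAt_const.prodMk contDiffAt_id)
  have hFx0 : F (x0 : Amb n) = y0 := by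
    change homExt f (p0, (x0 : Amb n)) = y0
    rw [homExt_coe, hfx0]
  have hGy0 : G (y0 : Amb n) = x0 := by
    change homExt g (p0, (y0 : Amb n)) = x0
    rw [homExt_coe]
  have hn : (∞ : WithTop ℕ∞) ≠ 0 := by simp
  have hFd := (hFsm.differentiableAt hn).hasFDerivAt
  have hGd := (hGsm.differentiableAt hn).hasFDerivAt
  have hGF : (G ∘ F) =ᶠ[𝓝 (x0 : Amb n)] id := by
    filter_upwards [isOpen_compl_singleton.mem_nhds (coe_sph_ne_zero x0)] with x hx
    exact homExt_homExt hgf (q := (p0, x)) hx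
  have hFG : (F ∘ G) =ᶠ[𝓝 (y0 : Amb n)] id := by
    filter_upwards [isOpen_compl_singleton.mem_nhds (coe_sph_ne_zero y0)] with x hx
    exact homExt_homExt hfg (q := (p0, x)) hx
  have e1 : (fderiv ℝ G (y0 : Amb n)).comp (fderiv ℝ F (x0 : Amb n)) =
      ContinuousLinearMap.id ℝ (Amb n) := by
    have h1 : HasFDerivAt (G ∘ F) ((fderiv ℝ G (y0 : Amb n)).comp (fderiv ℝ F (x0 : Amb n)))
        (x0 : Amb n) := by
      apply HasFDerivAt.comp
      · rw [hFx0]; exact hGd
      · exact hFd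
    exact h1.unique ((hasFDerivAt_id (x0 : Amb n)).congr_of_eventuallyEq hGF)
  have e2 : (fderiv ℝ F (x0 : Amb n)).comp (fderiv ℝ G (y0 : Amb n)) =
      ContinuousLinearMap.id ℝ (Amb n) := by
    have h1 : HasFDerivAt (F ∘ G) ((fderiv ℝ F (x0 : Amb n)).comp (fderiv ℝ G (y0 : Amb n)))
        (y0 : Amb n) := by
      apply HasFDerivAt.comp
      · rw [hGy0]; exact hFd
      · exact hGd
    exact h1.unique ((hasFDerivAt_id (y0 : Amb n)).congr_of_eventuallyEq hFG)
  let e : Amb n ≃L[ℝ] Amb n := ContinuousLinearEquiv.equivOfInverse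
    (fderiv ℝ F (x0 : Amb n)) (fderiv ℝ G (y0 : Amb n))
    (fun v => by simpa using congrArg (fun T : Amb n →L[ℝ] Amb n => T v) e1)
    (fun v => by simpa using congrArg (fun T : Amb n →L[ℝ] Amb n => T v) e2)
  have hev : ∀ᶠ q in 𝓝 (p0, (x0 : Amb n)), homExt g (q.1, homExt f q) = q.2 := by
    have hopen : IsOpen {q : P × Amb n | q.2 ≠ 0} := isOpen_ne_fun continuous_snd continuous_const
    filter_upwards [hopen.mem_nhds (coe_sph_ne_zero x0)] with q hq
    exact homExt_homExt hgf hq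
  have := contDiffAt_param_leftInverse (e := e) hfsm hFd hev
  rw [homExt_coe, hfx0] at this
  exact this

end Pool.Agent.Helper76.SobDiff
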