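import Pool.Agent.Helper76.SobDiff.Defs

/-!
# The Gagliardo kernel and scaled bounds of the Sobolev norm
-/

open scoped Manifold ContDiff ENNReal RealInnerProductSpace
open MeasureTheory Set

noncomputable section

namespace Pool.Agent.Helper76.SobDiff

/-- the truncated kernel -/
def ker (n : ℕ) (p σ l : ℝ) (z : Euc n) : ℝ :=
  (min (2 * l) ‖z‖) ^ p * ‖z‖ ^ (-((n : ℝ) + σ * p))

lemma ker_nonneg (n : ℕ) (p σ l : ℝ) (hl : 0 ≤ l) (z : Euc n) : 0 ≤ ker n p σ l z := by
  unfold ker; positivity

lemma measurable_ker (n : ℕ) (p σ l : ℝ) : Measurable (ker n p σ l) := by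
  unfold ker
  apply Measurable.mul
  · apply Measurable.pow_const
    exact measurable_const.min measurable_norm
  · exact measurable_norm.pow_const _

lemma integrable_ker_one {n : ℕ} (hn : 1 ≤ n) {p σ : ℝ} (hp : 0 < p) (h0 : 0 < σ) (h1 : σ < 1) :
    Integrable (ker n p σ 1) := by
  have hfin : Module.finrank ℝ (Euc n) = n := by simp
  have hball : IntegrableOn (ker n p σ 1) (Metric.ball 0 1) := by
    refine integrableOn_ball_of_norm_le_rpow (C := 1) (α := n - (1 - σ) * p) (by rw [hfin]; exact hn)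
      ?_ ?_ (measurable_ker n p σ 1).aestronglyMeasurable
    · rw [hfin]
      have : 0 < (1 - σ) * p := mul_pos (by linarith) hp
      linarith
    · rw [ae_restrict_iff' measurableSet_ball]
      refine Filter.Eventually.of_forall fun z hz => ?_
      rw [Real.norm_of_nonneg (ker_nonneg n p σ 1 zero_le_one z), one_mul]
      have hz' : ‖z‖ < 1 := by simpa using hz
      rcases eq_or_ne z 0 with rfl | hz0
      · simp only [ker, norm_zero]
        rw [min_eq_right (by norm_num), Real.zero_rpow hp.ne', zero_mul]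
        positivity
      · have hzpos : 0 < ‖z‖ := norm_pos_iff.mpr hz0
        unfold ker
        rw [min_eq_right (by linarith), ← Real.rpow_add hzpos]
        apply le_of_eq
        congr 1
        ring
  have hcompl : IntegrableOn (ker n p σ 1) (Metric.ball 0 1)ᶜ := by
    have hr : (Module.finrank ℝ (Euc n) : ℝ) < n + σ * p := by
      rw [hfin]; have := mul_pos h0 hp; linarith
    have hint := (integrable_one_add_norm (μ := (volume : Measure (Euc n))) hr).const_mul
      (2 ^ p * 2 ^ ((n : ℝ) + σ * p))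
    refine Integrable.mono' (hint.integrableOn (s := (Metric.ball 0 1)ᶜ))
      (measurable_ker n p σ 1).aestronglyMeasurable ?_
    rw [ae_restrict_iff' measurableSet_ball.compl]
    refine Filter.Eventually.of_forall fun z hz => ?_
    rw [Real.norm_of_nonneg (ker_nonneg n p σ 1 zero_le_one z)]
    have hz' : 1 ≤ ‖z‖ := by simpa using hz
    have hzpos : 0 < ‖z‖ := by linarith
    unfold ker
    rw [mul_assoc]
    gcongr
    · norm_num
    · rw [Real.rpow_neg hzpos.le, Real.rpow_neg (by positivity)]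
      have h2 : (1 + ‖z‖) ^ ((n : ℝ) + σ * p) ≤ 2 ^ ((n : ℝ) + σ * p) * ‖z‖ ^ ((n : ℝ) + σ * p) := by
        rw [← Real.mul_rpow (by norm_num) hzpos.le]
        apply Real.rpow_le_rpow (by positivity) (by linarith)
        have := mul_pos h0 hp
        positivity
      have hA : 0 < ‖z‖ ^ ((n : ℝ) + σ * p) := Real.rpow_pos_of_pos hzpos _
      have hB : 0 < (1 + ‖z‖) ^ ((n : ℝ) + σ * p) := Real.rpow_pos_of_pos (by positivity) _
      rw [inv_eq_one_div, ← div_eq_mul_inv, div_le_div_iff₀ hA hB]
      linarith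
  have := hball.union hcompl
  rwa [union_compl_self, integrableOn_univ] at this

lemma ker_smul {n : ℕ} {p σ l : ℝ} (hl : 0 < l) (z : Euc n) :
    ker n p σ l (l • z) = l ^ (p - ((n : ℝ) + σ * p)) * ker n p σ 1 z := by
  unfold ker
  rw [norm_smul, Real.norm_of_nonneg hl.le]
  have : min (2 * l) (l * ‖z‖) = l * min (2 * 1) ‖z‖ := by
    rw [mul_min_of_nonneg _ _ hl.le]; ring_nf
  rw [this, Real.mul_rpow hl.le (by positivity), Real.mul_rpow hl.le (by positivity),
    Real.rpow_sub hl, Real.rpow_neg hl.le, div_eq_mul_inv]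
  ring

lemma integrable_ker {n : ℕ} (hn : 1 ≤ n) {p σ l : ℝ} (hp : 0 < p) (h0 : 0 < σ) (h1 : σ < 1)
    (hl : 0 < l) : Integrable (ker n p σ l) := by
  have h : Integrable (fun z : Euc n => ker n p σ l (l • z)) := by
    simp_rw [ker_smul hl]
    exact (integrable_ker_one hn hp h0 h1).const_mul _
  exact (integrable_comp_smul_iff volume (ker n p σ l) hl.ne').mp h

lemma integral_ker {n : ℕ} {p σ l : ℝ} (hl : 0 < l) :
    ∫ z, ker n p σ l z = l ^ ((1 - σ) * p) * ∫ z, ker n p σ 1 z := by
  have h := Measure.integral_comp_smul_of_nonneg (volume : Measure (Euc n)) (ker n p σ l) l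
    (hR := hl.le)
  simp_rw [ker_smul hl] at h
  rw [integral_const_mul] at h
  have hfin : Module.finrank ℝ (Euc n) = n := by simp
  rw [hfin, smul_eq_mul] at h
  have hpow : 0 < l ^ n := pow_pos hl n
  have : ∫ z, ker n p σ l z = l ^ n * (l ^ (p - ((n : ℝ) + σ * p)) * ∫ z, ker n p σ 1 z) := by
    rw [h]; field_simp
  rw [this, ← mul_assoc, ← Real.rpow_natCast l n, ← Real.rpow_add hl]
  congr 2
  ring

end Pool.Agent.Helper76.SobDiff
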