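import Pool.Agent.Helper76.SobDiff.Contraction

/-!
# Finiteness of the diameter
-/

open scoped Manifold ContDiff ENNReal RealInnerProductSpace Topology
open MeasureTheory Set Filter

noncomputable section

namespace Pool.Agent.Helper76.SobDiff

variable {n : ℕ}

/-- hemisphere data: the conclusion of the contraction theorem for one pole -/
structure Contr (𝒜 : ChartData n) (s p : ℝ) (v : Sph n) where
  h : ℝ
  C : ℝ
  Φ : ℕ → Diffeo n
  h_pos : 0 < h
  C_nonneg : 0 ≤ C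
  cost : ∀ J, HasCost 𝒜 s p (Φ J) C
  apply_eq : ∀ (J : ℕ) (x : Sph n), ⟪(v : Amb n), (x : Amb n)⟫ ≤ 0 → Φ J x = dilS v (J * h) x

lemma exists_contr (𝒜 : ChartData n) (hn : 1 ≤ n) {s p : ℝ} (hp : 1 ≤ p) (hs : 0 ≤ s)
    (hsp : s < 1 + n / p) (v : Sph n) : Nonempty (Contr 𝒜 s p v) := by
  obtain ⟨h, C, Φ, h1, h2, h3, h4⟩ := exists_contraction 𝒜 hn hp hs hsp v
  exact ⟨⟨h, C, Φ, h1, h2, h3, h4⟩⟩

/-- conjugation by the contraction is conjugation by the dilation, for diffeomorphisms supported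
in the lower hemisphere -/
lemma conj_eq {𝒜 : ChartData n} {s p : ℝ} {v : Sph n} (E : Contr 𝒜 s p v) (J : ℕ)
    {γ : ℝ → Diffeo n} (hfix : ∀ t (x : Sph n), 0 ≤ ⟪(v : Amb n), (x : Amb n)⟫ → γ t x = x) :
    cmp (E.Φ J) (cmp (γ 1) (E.Φ J).symm) = conjFam v (J * E.h) γ 1 := by
  apply Diffeomorph.ext
  intro x
  unfold conjFam
  rw [cmp_apply, cmp_apply, cmp_apply, cmp_apply]
  set z := (E.Φ J).symm x with hz
  have hzx : E.Φ J z = x := (E.Φ J).apply_symm_apply x
  set ψ := γ 1 with hψ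
  set D := dil v (J * E.h) with hD
  by_cases hH : ⟪(v : Amb n), (z : Amb n)⟫ ≤ 0
  · have h1 : D z = x := by
      rw [← hzx, E.apply_eq J z hH]
      rfl
    have h2 : D.symm x = z := by rw [← h1, D.symm_apply_apply]
    rw [h2]
    have h3 : ⟪(v : Amb n), (ψ z : Amb n)⟫ ≤ 0 := by
      by_contra hcon
      push Not at hcon
      have h4 := hfix 1 (ψ z) hcon.le
      have h5 : ψ z = z := ψ.injective h4
      rw [h5] at hcon
      linarith
    rw [E.apply_eq J _ h3]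
    rfl
  · push Not at hH
    rw [hfix 1 z hH.le, hzx]
    have h1 : 0 ≤ ⟪(v : Amb n), (D.symm x : Amb n)⟫ := by
      by_contra hcon
      push Not at hcon
      have h2 : E.Φ J (D.symm x) = x := by
        rw [E.apply_eq J _ hcon.le]
        exact D.apply_symm_apply x
      have h3 : D.symm x = z := (E.Φ J).injective (h2.trans hzx.symm)
      rw [h3] at hcon
      linarith
    rw [hfix 1 _ h1, D.apply_symm_apply]

/-- diffeomorphisms supported in the lower hemisphere have uniformly bounded cost -/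
theorem hemisphere_cost {𝒜 : ChartData n} (hn : 1 ≤ n) {s p : ℝ} (hp : 1 ≤ p) (hs : 0 ≤ s)
    (hsp : s < 1 + n / p) {v : Sph n} (E : Contr 𝒜 s p v)
    {γ : ℝ → Diffeo n} (hγ : SmoothFam γ) (h0 : γ 0 = Diffeo.one n)
    (hfix : ∀ t (x : Sph n), 0 ≤ ⟪(v : Amb n), (x : Amb n)⟫ → γ t x = x) :
    HasCost 𝒜 s p (γ 1) (2 * E.C + 1) := by
  have hp0 : 0 < p := by linarith
  have hpole : ∀ t, γ t v = v := fun t => hfix t v (by rw [inner_self_sph]; norm_num)
  obtain ⟨M, hM0, hM⟩ := 𝒜.scaled_bound v hn hp hs hγ (R := 2) (by norm_num)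
    (fun t w hw => vel_eq_zero_of_fixed (fun τ => hfix τ _ (inner_sig_nonneg hw)) t) hpole
  set δ : ℝ := 1 - s + n / p with hδ
  have hδ0 : 0 < δ := by rw [hδ]; linarith
  set q : ℝ := Real.exp (-(E.h * δ)) with hq
  have hq0 : 0 < q := Real.exp_pos _
  have hq1 : q < 1 := by
    rw [hq, Real.exp_lt_one_iff]
    have : 0 < E.h * δ := mul_pos E.h_pos hδ0
    linarith
  obtain ⟨J, hJ⟩ := exists_pow_lt_of_lt_one (show (0 : ℝ) < 1 / (M + 1) by positivity) hq1
  have hstep : HasCost 𝒜 s p (conjFam v (J * E.h) γ 1) 1 := by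
    apply hasCost_of_bound (smoothFam_conjFam v _ hγ) (conjFam_zero v _ h0) zero_le_one
    intro t ht
    have hr : 0 ≤ (J : ℝ) * E.h := mul_nonneg (Nat.cast_nonneg _) E.h_pos.le
    have hle : Real.exp (-((J : ℝ) * E.h)) * 2 ≤ 4 := by
      have := Real.exp_le_one_iff.mpr (show -((J : ℝ) * E.h) ≤ 0 by linarith)
      linarith
    refine (hM _ hr hle t ht).trans ?_
    rw [exp_neg_mul_rpow]
    apply ENNReal.ofReal_le_ofReal
    have h1 : M * q ^ J ≤ M * (1 / (M + 1)) := mul_le_mul_of_nonneg_left hJ.le hM0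
    have h2 : M * (1 / (M + 1)) ≤ 1 := by
      rw [mul_one_div, div_le_one (by positivity)]
      linarith
    exact h1.trans h2
  rw [← conj_eq E J hfix] at hstep
  have h1 := ((E.cost J).symm hp0).comp hp0 (hstep.comp hp0 (E.cost J))
  have h2 : cmp (E.Φ J).symm (cmp (cmp (E.Φ J) (cmp (γ 1) (E.Φ J).symm)) (E.Φ J)) = γ 1 := by
    apply Diffeomorph.ext
    intro x
    simp only [cmp_apply, Diffeomorph.symm_apply_apply]
  rw [h2] at h1
  exact h1.mono (by linarith)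

/-- diffeomorphisms that are the identity near `v` have uniformly bounded cost -/
theorem nearId_cost {𝒜 : ChartData n} (hn : 1 ≤ n) {s p : ℝ} (hp : 1 ≤ p) (hs : 0 ≤ s)
    (hsp : s < 1 + n / p) {v u : Sph n} (huv : (u : Amb n) = -(v : Amb n))
    (E : Contr 𝒜 s p v) (F : Contr 𝒜 s p u) {ψ : Diffeo n} (hψ : NearId v ψ) :
    HasCost 𝒜 s p ψ (2 * F.C + (2 * E.C + 1)) := by
  have hp0 : 0 < p := by linarith
  obtain ⟨γ, hγ, h0, h1, U, hU, hUfix⟩ := hψ
  obtain ⟨ε, hε, hball⟩ := Metric.mem_nhds_iff.mp hU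
  set q : ℝ := Real.exp (-F.h) with hq
  have hq1 : q < 1 := by
    rw [hq, Real.exp_lt_one_iff]
    have := F.h_pos
    linarith
  have hq0 : 0 < q := Real.exp_pos _
  obtain ⟨J, hJ⟩ := exists_pow_lt_of_lt_one (show (0 : ℝ) < ε / 2 by positivity) hq1
  have hin : ∀ x : Sph n, 0 ≤ ⟪(v : Amb n), (x : Amb n)⟫ → F.Φ J x ∈ U := by
    intro x hx
    have hx' : ⟪(u : Amb n), (x : Amb n)⟫ ≤ 0 := by
      rw [huv, inner_neg_left]
      linarith
    apply hball
    rw [Metric.mem_ball, Subtype.dist_eq, dist_eq_norm, F.apply_eq J x hx']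
    have h2 := dist_dilS_le hx' (J * F.h)
    rw [huv, neg_neg] at h2
    refine lt_of_le_of_lt h2 ?_
    have h3 : Real.exp (-((J : ℝ) * F.h)) = q ^ J := by
      rw [hq, ← Real.exp_nat_mul]
      congr 1
      ring
    rw [h3]
    linarith
  set γ' : ℝ → Diffeo n := fun t => cmp (F.Φ J).symm (cmp (γ t) (F.Φ J)) with hγ'
  have hs' : SmoothFam γ' := (SmoothFam.const _).comp (hγ.comp (SmoothFam.const _))
  have h0' : γ' 0 = Diffeo.one n := by
    apply Diffeomorph.ext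
    intro x
    rw [hγ']
    simp only [h0, cmp_apply, one_apply, Diffeomorph.symm_apply_apply]
  have hfix' : ∀ t (x : Sph n), 0 ≤ ⟪(v : Amb n), (x : Amb n)⟫ → γ' t x = x := by
    intro t x hx
    rw [hγ']
    simp only [cmp_apply]
    rw [hUfix t _ (hin x hx), Diffeomorph.symm_apply_apply]
  have hc := hemisphere_cost hn hp hs hsp E hs' h0' hfix'
  have h2 := (F.cost J).comp hp0 (hc.comp hp0 ((F.cost J).symm hp0))
  have h3 : cmp (F.Φ J) (cmp (γ' 1) (F.Φ J).symm) = ψ := by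
    apply Diffeomorph.ext
    intro x
    rw [hγ']
    simp only [cmp_apply, Diffeomorph.apply_symm_apply, h1]
  rw [h3] at h2
  exact h2.mono (by linarith)

/-- the uniform bound of the cost -/
theorem uniform_cost (𝒜 : ChartData n) (hn : 2 ≤ n) {s p : ℝ} (hp : 1 ≤ p) (hs : 0 ≤ s)
    (hsp : s < 1 + n / p) : ∃ C : ℝ, ∀ γ : ℝ → Diffeo n, SmoothFam γ → γ 0 = Diffeo.one n →
      HasCost 𝒜 s p (γ 1) C := by
  have hp0 : 0 < p := by linarith
  have hn1 : 1 ≤ n := by omega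
  set v : Sph n := basePt n with hv
  set u : Sph n := ⟨-(v : Amb n), by simp⟩ with hu
  obtain ⟨E⟩ := exists_contr 𝒜 hn1 hp hs hsp v
  obtain ⟨F⟩ := exists_contr 𝒜 hn1 hp hs hsp u
  obtain ⟨C, hC0, hC⟩ := exists_rot 𝒜 hn1 hp hs
  refine ⟨(C + (2 * F.C + (2 * E.C + 1)) + C) + (2 * F.C + (2 * E.C + 1)), ?_⟩
  intro γ hγ h0
  obtain ⟨y0, a, b, ha, hb, hab⟩ := fragmentation hn hγ h0 v
  have ca := nearId_cost hn1 hp hs hsp (u := u) rfl E F ha
  obtain ⟨r, hr, cr⟩ := hC v y0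
  have hb' := hb.conj r.symm
  have hry : r.symm y0 = v := by rw [← hr, r.symm_apply_apply]
  rw [hry] at hb'
  have cb' := nearId_cost hn1 hp hs hsp (u := u) rfl E F hb'
  have cb := cr.comp hp0 (cb'.comp hp0 (cr.symm hp0))
  have hbe : cmp r (cmp (cmp r.symm (cmp b r.symm.symm)) r.symm) = b := by
    apply Diffeomorph.ext
    intro x
    simp only [cmp_apply]
    rw [Diffeomorph.apply_symm_apply]
    congr 1
    exact r.apply_symm_apply x
  rw [hbe] at cb
  rw [hab]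
  exact (cb.comp hp0 ca).mono (by linarith)

/-- paths can be made globally smooth -/
lemma exists_global {φ : ℝ → Diffeo n} (hφ : IsPath φ) :
    SmoothFam (fun t => φ (Real.smoothTransition t)) := by
  have h1 : ContMDiff (𝓘(ℝ, ℝ).prod (𝓡 n)) (𝓘(ℝ, ℝ).prod (𝓡 n)) ∞
      (fun q : ℝ × Sph n => (Real.smoothTransition q.1, q.2)) :=
    (contDiff_smoothTransition.contMDiff.comp contMDiff_fst).prodMk contMDiff_snd
  have h2 : ContMDiffOn (𝓘(ℝ, ℝ).prod (𝓡 n)) (𝓡 n) ∞
      (fun q : ℝ × Sph n => φ (Real.smoothTransition q.1) q.2) univ := by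
    refine ContMDiffOn.comp (g := fun q : ℝ × Sph n => φ q.1 q.2) hφ h1.contMDiffOn ?_
    intro q _
    exact ⟨⟨Real.smoothTransition.nonneg _, Real.smoothTransition.le_one _⟩, mem_univ _⟩
  exact contMDiffOn_univ.mp h2

theorem diam_lt_top (𝒜 : ChartData n) (hn : 2 ≤ n) {s p : ℝ} (hp : 1 ≤ p) (hs : 0 ≤ s)
    (hsp : s < 1 + n / p) : 𝒜.diam s p < ⊤ := by
  obtain ⟨C, hC⟩ := uniform_cost 𝒜 hn hp hs hsp
  unfold ChartData.diam
  refine lt_of_le_of_lt (iSup₂_le (a := ENNReal.ofReal C) ?_) ENNReal.ofReal_lt_top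
  rintro ψ ⟨φ, hφ, h0, h1⟩
  have h2 := hC (fun t => φ (Real.smoothTransition t)) (exists_global hφ) (by
    simp only [Real.smoothTransition.zero, h0])
  simp only [Real.smoothTransition.one, h1] at h2
  exact h2.dist_le

end Pool.Agent.Helper76.SobDiff
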