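import Pool.Agent.Helper76.SobDiff.Defs

/-!
# Chart data exist
-/

open scoped Manifold ContDiff ENNReal RealInnerProductSpace Topology
open MeasureTheory Set Filter

noncomputable section

namespace Pool.Agent.Helper76.SobDiff

/-- The sphere `S^n` admits chart data as in `ChartData`, with balls of radius one. -/
theorem nonempty_chartData (n : ℕ) : Nonempty (ChartData n) := by
  have hfact : Fact (Module.finrank ℝ (Amb n) = n + 1) := ⟨by simp⟩
  have hne : ∀ x : Sph n, (x : Amb n) ≠ 0 := by
    intro x h
    have := norm_coe_sph x
    rw [h, norm_zero] at this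
    exact zero_ne_one this
  have hopen : ∀ x : Sph n, IsOpen (geodBall x 1) := by
    intro x
    have h1 : geodBall x 1 = {y : Sph n | Real.arccos ⟪(x : Amb n), (y : Amb n)⟫ < 1} := by
      ext y
      unfold geodBall InnerProductGeometry.angle
      simp only [mem_ofPred_eq]
      rw [norm_coe_sph, norm_coe_sph, mul_one, div_one]
    rw [h1]
    have h2 : Continuous fun y : Sph n => ⟪(x : Amb n), (y : Amb n)⟫ :=
      continuous_const.inner continuous_subtype_val
    exact isOpen_lt (Real.continuous_arccos.comp h2) continuous_const
  have hself : ∀ x : Sph n, x ∈ geodBall x 1 := by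
    intro x
    unfold geodBall
    simp only [mem_ofPred_eq]
    rw [InnerProductGeometry.angle_self (hne x)]
    exact one_pos
  obtain ⟨t, ht⟩ := isCompact_univ.elim_nhds_subcover (fun x : Sph n => geodBall x 1)
    (fun x _ => (hopen x).mem_nhds (hself x))
  obtain ⟨ρ, hρ⟩ := SmoothPartitionOfUnity.exists_isSubordinate (𝓡 n) (s := (univ : Set (Sph n)))
    isClosed_univ (fun x : t => geodBall (x : Sph n) 1) (fun x => hopen _) (by
      intro y _
      have := ht.2 (mem_univ y)
      simpa using this)
  exact ⟨{
    ι := t
    fintype := inferInstance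
    centre := fun x => x
    radius := 1
    radius_pos := one_pos
    radius_lt := by linarith [Real.pi_gt_three]
    frame := fun x => (ℝ ∙ ((x : Sph n) : Amb n))ᗮ.subtypeₗᵢ.comp
      ((OrthonormalBasis.fromOrthogonalSpanSingleton n (hne (x : Sph n))).repr.symm).toLinearIsometry
    frame_orth := fun x v => Submodule.mem_orthogonal_singleton_iff_inner_right.mp
      ((OrthonormalBasis.fromOrthogonalSpanSingleton n (hne (x : Sph n))).repr.symm v).2
    ρ := ρ
    subordinate := hρ }⟩

end Pool.Agent.Helper76.SobDiff
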