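import Pool.Agent.Helper76.SobDiff.Dilation

/-!
# Velocity fields of conjugated families
-/

open scoped Manifold ContDiff ENNReal RealInnerProductSpace Topology
open MeasureTheory Set Filter

noncomputable section

namespace Pool.Agent.Helper76.SobDiff

variable {n : ℕ}

section general

variable {X Y : Type*} [NormedAddCommGroup X] [NormedSpace ℝ X] [NormedAddCommGroup Y]
  [NormedSpace ℝ Y]

lemma exists_bound_iter {f : X → Y} {Ω K : Set X} (hΩ : IsOpen Ω) (hf : ContDiffOn ℝ ∞ f Ω)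
    (hK : IsCompact K) (hsub : K ⊆ Ω) (k : ℕ) :
    ∃ B : ℝ, 0 ≤ B ∧ ∀ i ≤ k, ∀ x ∈ K, ‖iteratedFDerivWithin ℝ i f Ω x‖ ≤ B := by
  have h : ∀ i : ℕ, ∃ B : ℝ, ∀ x ∈ K, ‖iteratedFDerivWithin ℝ i f Ω x‖ ≤ B := fun i =>
    hK.exists_bound_of_continuousOn
      ((hf.continuousOn_iteratedFDerivWithin (m := i) (by exact_mod_cast le_top)
        hΩ.uniqueDiffOn).mono hsub)
  choose B hB using h
  refine ⟨∑ i ∈ Finset.range (k + 1), |B i|, by positivity, fun i hi x hx => ?_⟩
  exact (hB i x hx).trans ((le_abs_self _).trans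
    (Finset.single_le_sum (f := fun i => |B i|) (fun i _ => abs_nonneg _)
      (Finset.mem_range.mpr (by omega))))

end general

/-- the velocity field in stereographic coordinates -/
def eta (v : Sph n) (γ : ℝ → Diffeo n) (q : ℝ × W v) : W v :=
  fderiv ℝ (ster v) (sig v q.2 : Amb n) (vel γ q.1 (sig v q.2))

lemma contDiff_sig (v : Sph n) : ContDiff ℝ ∞ (fun w : W v => (sig v w : Amb n)) :=
  (contDiff_stereoInvFunAux (m := ∞) (v := (v : Amb n))).comp
    ((ℝ ∙ (v : Amb n))ᗮ.subtypeL.contDiff)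

lemma isOpen_ster (v : Sph n) : IsOpen {x : Amb n | innerSL ℝ (v : Amb n) x ≠ (1 : ℝ)} :=
  isOpen_ne_fun (innerSL ℝ (v : Amb n)).continuous continuous_const

lemma contDiffOn_ster (v : Sph n) :
    ContDiffOn ℝ ∞ (ster v) {x : Amb n | innerSL ℝ (v : Amb n) x ≠ (1 : ℝ)} :=
  contDiffOn_stereoToFun

lemma sig_mem (v : Sph n) (w : W v) :
    (sig v w : Amb n) ∈ {x : Amb n | innerSL ℝ (v : Amb n) x ≠ (1 : ℝ)} := by
  simp only [mem_ofPred_eq, innerSL_apply_apply]
  rw [inner_sig]
  have h2 : 0 < ‖w‖ ^ 2 + 4 := by positivity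
  intro h
  rw [div_eq_iff h2.ne'] at h
  linarith

lemma contDiffAt_ster (v : Sph n) (w : W v) : ContDiffAt ℝ ∞ (ster v) (sig v w : Amb n) :=
  (contDiffOn_ster v).contDiffAt ((isOpen_ster v).mem_nhds (sig_mem v w))

lemma contDiff_eta (v : Sph n) {γ : ℝ → Diffeo n} (hγ : SmoothFam γ) :
    ContDiff ℝ ∞ (eta v γ) := by
  rw [contDiff_iff_contDiffAt]
  rintro ⟨t, w⟩
  have h1 : ContDiffAt ℝ ∞ (fderiv ℝ (ster v)) (sig v w : Amb n) :=
    (contDiffAt_ster v w).fderiv_right (m := ∞) (by simp)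
  have h2 : ContDiffAt ℝ ∞ (fun q : ℝ × W v => (sig v q.2 : Amb n)) (t, w) :=
    ((contDiff_sig v).comp contDiff_snd).contDiffAt
  have h3 : ContDiffAt ℝ ∞ (fun q : ℝ × W v => fderiv ℝ (ster v) (sig v q.2 : Amb n)) (t, w) :=
    ContDiffAt.comp (g := fderiv ℝ (ster v)) (f := fun q : ℝ × W v => (sig v q.2 : Amb n))
      (t, w) h1 h2
  have h4 : ContDiffAt ℝ ∞ (fun q : ℝ × Amb n => vel γ q.1 (nrm q.2)) (t, (sig v w : Amb n)) :=
    contDiffAt_ambient (contMDiff_vel hγ) (coe_sph_ne_zero _)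
  have h5 := ContDiffAt.comp (g := fun q : ℝ × Amb n => vel γ q.1 (nrm q.2))
    (f := fun q : ℝ × W v => (q.1, (sig v q.2 : Amb n))) (t, w) h4 (contDiffAt_fst.prodMk h2)
  have h6 : ContDiffAt ℝ ∞ (fun q : ℝ × W v => vel γ q.1 (sig v q.2)) (t, w) := by
    refine h5.congr_of_eventuallyEq (Eventually.of_forall fun q => ?_)
    simp only [Function.comp_apply, nrm_coe]
  exact h3.clm_apply h6

/-- the conjugate of a family by a dilation -/
def conjFam (v : Sph n) (r : ℝ) (γ : ℝ → Diffeo n) (t : ℝ) : Diffeo n :=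
  cmp (dil v r) (cmp (γ t) (dil v r).symm)

lemma smoothFam_conjFam (v : Sph n) (r : ℝ) {γ : ℝ → Diffeo n} (hγ : SmoothFam γ) :
    SmoothFam (conjFam v r γ) :=
  (SmoothFam.const _).comp (hγ.comp (SmoothFam.const _))

lemma conjFam_zero (v : Sph n) (r : ℝ) {γ : ℝ → Diffeo n} (h : γ 0 = Diffeo.one n) :
    conjFam v r γ 0 = Diffeo.one n := by
  apply Diffeomorph.ext
  intro x
  unfold conjFam
  rw [h]
  exact (dil v r).apply_symm_apply x

lemma vel_conjFam (v : Sph n) (r : ℝ) {γ : ℝ → Diffeo n} (hγ : SmoothFam γ) (t : ℝ) (y : W v) :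
    vel (conjFam v r γ) t (sig v y) =
      fderiv ℝ (fun w : W v => (sig v w : Amb n)) y
        (Real.exp (-r) • eta v γ (t, (Real.exp (-r))⁻¹ • y)) := by
  have hl := Real.exp_pos (-r)
  set l := Real.exp (-r) with hldef
  set z : W v := l⁻¹ • y with hz
  have hlz : l • z = y := by rw [hz, smul_smul, mul_inv_cancel₀ hl.ne', one_smul]
  have hinv : (dil v r).symm (sig v y) = sig v z := by
    rw [dil_symm_apply, dilS_sig, neg_neg, hz, hldef, ← Real.exp_neg, neg_neg]
  set x0 : Sph n := (γ t).symm (sig v z) with hx0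
  have hct : γ t x0 = sig v z := (γ t).apply_symm_apply _
  -- the curve
  have hc : HasDerivAt (fun τ => (γ τ x0 : Amb n)) (vel γ t (sig v z)) t := by
    have := hasDerivAt_vel hγ t x0
    rwa [hct] at this
  -- in the chart
  have hw : HasDerivAt (fun τ => ster v (γ τ x0 : Amb n)) (eta v γ (t, z)) t := by
    have h1 : HasFDerivAt (ster v) (fderiv ℝ (ster v) (sig v z : Amb n)) (γ t x0 : Amb n) := by
      rw [hct]
      exact ((contDiffAt_ster v z).differentiableAt (by simp)).hasFDerivAt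
    exact h1.comp_hasDerivAt t hc
  have hwt : ster v (γ t x0 : Amb n) = z := by rw [hct, ster_sig]
  have hw2 : HasDerivAt (fun τ => l • ster v (γ τ x0 : Amb n)) (l • eta v γ (t, z)) t :=
    hw.const_smul l
  have hs : HasFDerivAt (fun w : W v => (sig v w : Amb n))
      (fderiv ℝ (fun w : W v => (sig v w : Amb n)) y) (l • ster v (γ t x0 : Amb n)) := by
    rw [hwt, hlz]
    exact (((contDiff_sig v).differentiable (by simp)).differentiableAt).hasFDerivAt
  have h3 := hs.comp_hasDerivAt t hw2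
  -- identification of the curve
  have hev : (fun τ => (conjFam v r γ τ ((conjFam v r γ t).symm (sig v y)) : Amb n)) =ᶠ[𝓝 t]
      ((fun w : W v => (sig v w : Amb n)) ∘ fun τ => l • ster v (γ τ x0 : Amb n)) := by
    have hcont : ContinuousAt (fun τ => γ τ x0) t := by
      have h1 : Continuous (fun q : ℝ × Sph n => γ q.1 q.2) := ContMDiff.continuous hγ
      exact (h1.comp (continuous_id.prodMk continuous_const)).continuousAt
    have hne : ∀ᶠ τ in 𝓝 t, γ τ x0 ≠ v := by
      apply hcont.eventually_ne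
      rw [hct]
      exact sig_ne v z
    filter_upwards [hne] with τ hτ
    have e1 : (conjFam v r γ t).symm (sig v y) = (dil v r) x0 := by
      unfold conjFam
      rw [cmp_symm_apply, cmp_symm_apply, hinv]
      rfl
    have e2 : conjFam v r γ τ ((dil v r) x0) = dil v r (γ τ x0) := by
      unfold conjFam
      rw [cmp_apply, cmp_apply, (dil v r).symm_apply_apply]
    rw [e1, e2]
    simp only [Function.comp_apply]
    nth_rewrite 1 [← sig_ster v hτ]
    rw [dil_apply, dilS_sig]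
  exact (h3.congr_of_eventuallyEq hev).deriv

lemma vel_conjFam_pole (v : Sph n) (r : ℝ) {γ : ℝ → Diffeo n} (hpole : ∀ t, γ t v = v) (t : ℝ) :
    vel (conjFam v r γ) t v = 0 := by
  have h : ∀ τ, conjFam v r γ τ v = v := by
    intro τ
    unfold conjFam
    rw [cmp_apply, cmp_apply, dil_symm_apply, dilS_pole, hpole, dil_apply, dilS_pole]
  have h2 : (conjFam v r γ t).symm v = v := by
    have h3 := (conjFam v r γ t).symm_apply_apply v
    rwa [h t] at h3
  unfold vel
  rw [h2]
  simp only [h]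
  simp

end Pool.Agent.Helper76.SobDiff
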