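import Pool.Agent.Helper76.SobDiff.Scaled

/-!
# The norm of the velocity of a conjugated family
-/

open scoped Manifold ContDiff ENNReal RealInnerProductSpace Topology
open MeasureTheory Set Filter

noncomputable section

namespace Pool.Agent.Helper76.SobDiff

variable {n : ℕ}

section slices

variable {X Y : Type*} [NormedAddCommGroup X] [NormedSpace ℝ X] [NormedAddCommGroup Y]
  [NormedSpace ℝ Y]

lemma norm_iteratedFDeriv_slice_le {η : ℝ × X → Y} (hη : ContDiff ℝ ∞ η) (t : ℝ) (z : X) (i : ℕ) :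
    ‖iteratedFDeriv ℝ i (fun z => η (t, z)) z‖ ≤ ‖iteratedFDeriv ℝ i η (t, z)‖ := by
  set g : ℝ × X → Y := fun q => η (q + (t, 0)) with hg
  have hgs : ContDiff ℝ ∞ g := hη.comp (contDiff_id.add contDiff_const)
  have h1 : (fun z => η (t, z)) = g ∘ (ContinuousLinearMap.inr ℝ ℝ X) := by
    funext z
    simp [hg]
  have h2 := (ContinuousLinearMap.inr ℝ ℝ X).iteratedFDeriv_comp_right hgs z (i := i)
    (by exact_mod_cast le_top)
  rw [h1, h2]
  refine (ContinuousMultilinearMap.norm_compContinuousLinearMap_le _ _).trans ?_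
  have h3 : ‖ContinuousLinearMap.inr ℝ ℝ X‖ ≤ 1 := by
    apply ContinuousLinearMap.opNorm_le_bound _ zero_le_one
    intro x
    simp
  have h4 : ∏ _i : Fin i, ‖ContinuousLinearMap.inr ℝ ℝ X‖ ≤ 1 := by
    rw [Finset.prod_const]
    exact pow_le_one₀ (norm_nonneg _) h3
  have h5 : iteratedFDeriv ℝ i g ((ContinuousLinearMap.inr ℝ ℝ X) z) =
      iteratedFDeriv ℝ i η (t, z) := by
    rw [hg, iteratedFDeriv_comp_add_right]
    simp
  rw [h5]
  exact mul_le_of_le_one_right (norm_nonneg _) h4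

end slices

lemma eta_eq_zero {v : Sph n} {γ : ℝ → Diffeo n} {R : ℝ}
    (hsupp : ∀ t (w : W v), R ≤ ‖w‖ → vel γ t (sig v w) = 0) (t : ℝ) {z : W v} (hz : R ≤ ‖z‖) :
    eta v γ (t, z) = 0 := by
  unfold eta
  simp only
  rw [hsupp t z hz, map_zero]

lemma exists_eta_bound {v : Sph n} {γ : ℝ → Diffeo n} (hγ : SmoothFam γ) {R : ℝ}
    (hsupp : ∀ t (w : W v), R ≤ ‖w‖ → vel γ t (sig v w) = 0) (k : ℕ) :
    ∃ B : ℝ, 0 ≤ B ∧ ∀ t ∈ Icc (0 : ℝ) 1, ∀ z : W v, ∀ i ≤ k,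
      ‖iteratedFDeriv ℝ i (fun z => eta v γ (t, z)) z‖ ≤ B := by
  have hη := contDiff_eta v hγ
  have hK : IsCompact (Icc (0 : ℝ) 1 ×ˢ Metric.closedBall (0 : W v) R) :=
    isCompact_Icc.prod (isCompact_closedBall _ _)
  obtain ⟨B, hB0, hB⟩ := exists_bound_iter isOpen_univ hη.contDiffOn hK (subset_univ _) k
  refine ⟨B, hB0, fun t ht z i hi => ?_⟩
  by_cases hz : ‖z‖ ≤ R
  · refine (norm_iteratedFDeriv_slice_le hη t z i).trans ?_
    have := hB i hi (t, z) ⟨ht, by simpa using hz⟩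
    rwa [iteratedFDerivWithin_univ] at this
  · have hz' : R < ‖z‖ := not_le.mp hz
    have hev : (fun z => eta v γ (t, z)) =ᶠ[𝓝 z] fun _ => 0 := by
      filter_upwards [(isOpen_lt continuous_const continuous_norm).mem_nhds hz'] with y hy
      exact eta_eq_zero hsupp t (le_of_lt hy)
    rw [(hev.iteratedFDeriv ℝ i).eq_of_nhds]
    simpa using hB0

lemma exists_sig_lipschitz (v : Sph n) : ∃ L : ℝ, 0 ≤ L ∧ ∀ y y' : W v, ‖y‖ ≤ 4 → ‖y'‖ ≤ 4 →
    ‖(sig v y : Amb n) - sig v y'‖ ≤ L * ‖y - y'‖ := by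
  have hd : Differentiable ℝ (fun w : W v => (sig v w : Amb n)) :=
    (contDiff_sig v).differentiable (by simp)
  have hcont : Continuous (fderiv ℝ (fun w : W v => (sig v w : Amb n))) :=
    (contDiff_sig v).continuous_fderiv (by simp)
  obtain ⟨L, hL⟩ := (isCompact_closedBall (0 : W v) 4).exists_bound_of_continuousOn
    (f := fderiv ℝ (fun w : W v => (sig v w : Amb n))) hcont.continuousOn
  refine ⟨|L|, abs_nonneg L, fun y y' hy hy' => ?_⟩
  refine Convex.norm_image_sub_le_of_norm_fderiv_le (𝕜 := ℝ)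
    (f := fun w : W v => (sig v w : Amb n)) (s := Metric.closedBall (0 : W v) 4)
    (fun z _ => hd z) (fun z hz => (hL z hz).trans (le_abs_self L)) (convex_closedBall _ _)
    (by simpa using hy') (by simpa using hy)

namespace ChartData

variable (𝒜 : ChartData n) (v : Sph n) (α : 𝒜.ι)

/-- the part of the chart domain that avoids the pole -/
def Om : Set (Euc n) := {w | ⟪(v : Amb n), (𝒜.exp α w : Amb n)⟫ < 1}

/-- a compact part of the chart domain -/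
def Ka : Set (Euc n) := {w | ‖w‖ ≤ 𝒜.inner ∧ ⟪(v : Amb n), (𝒜.exp α w : Amb n)⟫ ≤ 3 / 5}

lemma contDiff_coe_exp : ContDiff ℝ ∞ (fun w => (𝒜.exp α w : Amb n)) :=
  contDiff_expMap (𝒜.centre α) (𝒜.frame α)

lemma continuous_inner_exp : Continuous fun w => ⟪(v : Amb n), (𝒜.exp α w : Amb n)⟫ :=
  continuous_const.inner (𝒜.contDiff_coe_exp α).continuous

lemma isOpen_Om : IsOpen (𝒜.Om v α) :=
  isOpen_lt (𝒜.continuous_inner_exp v α) continuous_const

lemma isCompact_Ka : IsCompact (𝒜.Ka v α) := by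
  have h1 : IsClosed {w : Euc n | ⟪(v : Amb n), (𝒜.exp α w : Amb n)⟫ ≤ 3 / 5} :=
    isClosed_le (𝒜.continuous_inner_exp v α) continuous_const
  have h2 : 𝒜.Ka v α = Metric.closedBall 0 𝒜.inner ∩
      {w : Euc n | ⟪(v : Amb n), (𝒜.exp α w : Amb n)⟫ ≤ 3 / 5} := by
    ext w
    simp [Ka]
  rw [h2]
  exact (isCompact_closedBall _ _).inter_right h1

lemma Ka_subset : 𝒜.Ka v α ⊆ 𝒜.Om v α := by
  intro w hw
  have := hw.2
  unfold Om
  simp only [mem_ofPred_eq]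
  linarith

/-- the transition from the exponential chart to stereographic coordinates -/
def tau (w : Euc n) : W v := ster v (𝒜.exp α w : Amb n)

lemma contDiffOn_tau : ContDiffOn ℝ ∞ (𝒜.tau v α) (𝒜.Om v α) := by
  refine (contDiffOn_ster v).comp (𝒜.contDiff_coe_exp α).contDiffOn ?_
  intro w hw
  simp only [mem_ofPred_eq, innerSL_apply_apply]
  exact ne_of_lt hw

/-- the differential of stereographic projection in the chart -/
def Aa (w : Euc n) : W v →L[ℝ] Amb n :=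
  fderiv ℝ (fun w' : W v => (sig v w' : Amb n)) (𝒜.tau v α w)

lemma contDiffOn_Aa : ContDiffOn ℝ ∞ (𝒜.Aa v α) (𝒜.Om v α) :=
  ((contDiff_sig v).fderiv_right (m := ∞) (by simp)).comp_contDiffOn (𝒜.contDiffOn_tau v α)

lemma exp_ne_pole {w : Euc n} (hw : w ∈ 𝒜.Om v α) : 𝒜.exp α w ≠ v := by
  intro h
  have h1 : ⟪(v : Amb n), (𝒜.exp α w : Amb n)⟫ < 1 := hw
  rw [h, inner_self_sph] at h1
  exact lt_irrefl _ h1

lemma sig_tau {w : Euc n} (hw : w ∈ 𝒜.Om v α) : sig v (𝒜.tau v α w) = 𝒜.exp α w :=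
  sig_ster v (𝒜.exp_ne_pole v α hw)

lemma norm_tau_le {w : Euc n} (hw : w ∈ 𝒜.Om v α)
    (h : ⟪(v : Amb n), (𝒜.exp α w : Amb n)⟫ ≤ 3 / 5) : ‖𝒜.tau v α w‖ ≤ 4 := by
  rw [← 𝒜.sig_tau v α hw, inner_sig] at h
  have h2 : 0 < ‖𝒜.tau v α w‖ ^ 2 + 4 := by positivity
  rw [div_le_iff₀ h2] at h
  nlinarith [norm_nonneg (𝒜.tau v α w)]

lemma four_le_norm_tau {w : Euc n} (hw : w ∈ 𝒜.Om v α)
    (h : 3 / 5 < ⟪(v : Amb n), (𝒜.exp α w : Amb n)⟫) : 4 ≤ ‖𝒜.tau v α w‖ := by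
  rw [← 𝒜.sig_tau v α hw, inner_sig] at h
  have h2 : 0 < ‖𝒜.tau v α w‖ ^ 2 + 4 := by positivity
  rw [lt_div_iff₀ h2] at h
  nlinarith [norm_nonneg (𝒜.tau v α w)]

end ChartData

end Pool.Agent.Helper76.SobDiff
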