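import Pool.Agent.Helper76.SobDiff.ScaledBound

/-!
# The norm of the velocity of a conjugated family: the main estimate
-/

open scoped Manifold ContDiff ENNReal RealInnerProductSpace Topology Nat
open MeasureTheory Set Filter

noncomputable section

namespace Pool.Agent.Helper76.SobDiff

variable {n : ℕ}

section generic

variable {X Y Z : Type*} [NormedAddCommGroup X] [NormedSpace ℝ X] [NormedAddCommGroup Y]
  [NormedSpace ℝ Y] [NormedAddCommGroup Z] [NormedSpace ℝ Z]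

lemma norm_iter_clm_apply_le {Ω : Set X} (hΩ : IsOpen Ω) {A : X → (Y →L[ℝ] Z)} {G : X → Y}
    {f : X → Z} (hA : ContDiffOn ℝ ∞ A Ω) (hG : ContDiffOn ℝ ∞ G Ω) {w : X} (hw : w ∈ Ω)
    (hf : ∀ w' ∈ Ω, f w' = A w' (G w')) {j : ℕ} {CA CG : ℝ} (hCA0 : 0 ≤ CA)
    (hCA : ∀ i ≤ j, ‖iteratedFDerivWithin ℝ i A Ω w‖ ≤ CA)
    (hCG : ∀ i ≤ j, ‖iteratedFDerivWithin ℝ i G Ω w‖ ≤ CG) :
    ‖iteratedFDeriv ℝ j f w‖ ≤ 2 ^ j * (CA * CG) := by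
  have hev : f =ᶠ[𝓝 w] fun w => ((ContinuousLinearMap.id ℝ (Y →L[ℝ] Z)) (A w)) (G w) := by
    filter_upwards [hΩ.mem_nhds hw] with w' hw'
    exact hf w' hw'
  rw [(hev.iteratedFDeriv ℝ j).eq_of_nhds, ← iteratedFDerivWithin_of_isOpen (𝕜 := ℝ) j hΩ hw]
  refine (ContinuousLinearMap.norm_iteratedFDerivWithin_le_of_bilinear
    (ContinuousLinearMap.id ℝ (Y →L[ℝ] Z)) hA hG
    hΩ.uniqueDiffOn hw (n := j) (by exact_mod_cast le_top)).trans ?_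
  have hid : ‖ContinuousLinearMap.id ℝ (Y →L[ℝ] Z)‖ ≤ 1 := ContinuousLinearMap.norm_id_le
  have hnn : (0 : ℝ) ≤ ∑ i ∈ Finset.range (j + 1), (j.choose i : ℝ) *
      ‖iteratedFDerivWithin ℝ i A Ω w‖ *
      ‖iteratedFDerivWithin ℝ (j - i) G Ω w‖ := by positivity
  refine (mul_le_of_le_one_left hnn hid).trans ?_
  have hterm : ∀ i ∈ Finset.range (j + 1), (j.choose i : ℝ) *
      ‖iteratedFDerivWithin ℝ i A Ω w‖ * ‖iteratedFDerivWithin ℝ (j - i) G Ω w‖ ≤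
      (j.choose i : ℝ) * (CA * CG) := by
    intro i hi
    have hi' : i ≤ j := by simpa [Nat.lt_succ_iff] using hi
    rw [mul_assoc]
    apply mul_le_mul_of_nonneg_left _ (by positivity)
    exact mul_le_mul (hCA i hi') (hCG _ (by omega)) (norm_nonneg _) hCA0
  refine (Finset.sum_le_sum hterm).trans (le_of_eq ?_)
  rw [← Finset.sum_mul, ← Nat.cast_sum, Nat.sum_range_choose]
  push_cast
  rfl

/-- the arithmetic of the derivative bound -/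
lemma scaled_arith {k j : ℕ} (hj : j ≤ k) {l Cη CA D CG : ℝ} (hl : 0 < l) (hl1 : l ≤ 1)
    (hCη0 : 0 ≤ Cη) (hCA0 : 0 ≤ CA) (hD1 : 1 ≤ D)
    (hCG : CG = (k ! : ℝ) * Cη * D ^ k * (l * (l⁻¹) ^ j)) :
    2 ^ j * (CA * CG) ≤ 2 ^ k * CA * (k ! : ℝ) * Cη * D ^ k * l ^ (1 - (j : ℝ)) := by
  have h2 : (2 : ℝ) ^ j ≤ 2 ^ k := pow_le_pow_right₀ (by norm_num) hj
  have hD0 : 0 ≤ D := by linarith
  have hpow : l * (l⁻¹) ^ j = l ^ (1 - (j : ℝ)) := by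
    rw [Real.rpow_sub hl, Real.rpow_one, Real.rpow_natCast, inv_pow, div_eq_mul_inv]
  rw [hCG, hpow]
  calc (2 : ℝ) ^ j * (CA * ((k ! : ℝ) * Cη * D ^ k * l ^ (1 - (j : ℝ))))
      ≤ 2 ^ k * (CA * ((k ! : ℝ) * Cη * D ^ k * l ^ (1 - (j : ℝ)))) :=
        mul_le_mul_of_nonneg_right h2 (by positivity)
    _ = 2 ^ k * CA * (k ! : ℝ) * Cη * D ^ k * l ^ (1 - (j : ℝ)) := by ring

lemma scaled_arith2 {k j i : ℕ} (hj : j ≤ k) (hi : i ≤ j) {l Cη D : ℝ} (hl : 0 < l) (hl1 : l ≤ 1)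
    (hCη0 : 0 ≤ Cη) (hD1 : 1 ≤ D) :
    (i ! : ℝ) * (l * Cη) * (D / l) ^ i ≤ (k ! : ℝ) * Cη * D ^ k * (l * (l⁻¹) ^ j) := by
  have h1 : ((i ! : ℕ) : ℝ) ≤ (k ! : ℝ) := by
    exact_mod_cast Nat.factorial_le (by omega)
  have h2 : D ^ i ≤ D ^ k := pow_le_pow_right₀ hD1 (by omega)
  have hli : 1 ≤ l⁻¹ := (one_le_inv₀ hl).mpr hl1
  have h3 : (l⁻¹) ^ i ≤ (l⁻¹) ^ j := pow_le_pow_right₀ hli (by omega)
  have hD0 : 0 ≤ D := by linarith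
  calc ((i ! : ℕ) : ℝ) * (l * Cη) * (D / l) ^ i
      = ((i ! : ℕ) : ℝ) * Cη * D ^ i * (l * (l⁻¹) ^ i) := by
        rw [div_eq_mul_inv, mul_pow]; ring
    _ ≤ (k ! : ℝ) * Cη * D ^ k * (l * (l⁻¹) ^ j) := by
        gcongr

end generic

namespace ChartData

variable (𝒜 : ChartData n) (v : Sph n) (α : 𝒜.ι)

lemma vel_exp_eq (r : ℝ) {γ : ℝ → Diffeo n} (hγ : SmoothFam γ) (t : ℝ) {w : Euc n}
    (hw : w ∈ 𝒜.Om v α) :
    vel (conjFam v r γ) t (𝒜.exp α w) =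
      𝒜.Aa v α w (Real.exp (-r) • eta v γ (t, (Real.exp (-r))⁻¹ • 𝒜.tau v α w)) := by
  rw [← 𝒜.sig_tau v α hw, vel_conjFam v r hγ]
  rfl

lemma vel_exp_eq_zero {r : ℝ} {γ : ℝ → Diffeo n} (hγ : SmoothFam γ) {R : ℝ}
    (hsupp : ∀ t (w : W v), R ≤ ‖w‖ → vel γ t (sig v w) = 0) (hpole : ∀ t, γ t v = v)
    (hrR : Real.exp (-r) * R ≤ 4) (t : ℝ) {w : Euc n}
    (hw : 3 / 5 < ⟪(v : Amb n), (𝒜.exp α w : Amb n)⟫) :
    vel (conjFam v r γ) t (𝒜.exp α w) = 0 := by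
  have hl := Real.exp_pos (-r)
  by_cases hm : w ∈ 𝒜.Om v α
  · rw [𝒜.vel_exp_eq v α r hγ t hm]
    have h4 := 𝒜.four_le_norm_tau v α hm hw
    have h5 : R ≤ ‖(Real.exp (-r))⁻¹ • 𝒜.tau v α w‖ := by
      rw [norm_smul, norm_inv, Real.norm_of_nonneg hl.le, ← div_eq_inv_mul, le_div_iff₀ hl]
      linarith
    rw [eta_eq_zero hsupp t h5, smul_zero, map_zero]
  · have h1 : 1 ≤ ⟪(v : Amb n), (𝒜.exp α w : Amb n)⟫ := not_lt.mp hm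
    have h2 : ⟪(v : Amb n), (𝒜.exp α w : Amb n)⟫ = 1 :=
      le_antisymm (inner_bounds v (𝒜.exp α w)).2 h1
    have h3 : v = 𝒜.exp α w := (sphere_ext_iff v (𝒜.exp α w)).mpr h2
    rw [← h3]
    exact vel_conjFam_pole v r hpole t

lemma norm_tau_lt_of_ne {r : ℝ} {γ : ℝ → Diffeo n} (hγ : SmoothFam γ) {R : ℝ}
    (hsupp : ∀ t (w : W v), R ≤ ‖w‖ → vel γ t (sig v w) = 0) (hpole : ∀ t, γ t v = v)
    (hrR : Real.exp (-r) * R ≤ 4) (t : ℝ) {w : Euc n}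
    (hne : vel (conjFam v r γ) t (𝒜.exp α w) ≠ 0) :
    w ∈ 𝒜.Om v α ∧ ‖𝒜.tau v α w‖ ≤ Real.exp (-r) * R ∧ ‖𝒜.tau v α w‖ ≤ 4 := by
  have hl := Real.exp_pos (-r)
  have h1 : ⟪(v : Amb n), (𝒜.exp α w : Amb n)⟫ ≤ 3 / 5 := by
    by_contra hcon
    exact hne (𝒜.vel_exp_eq_zero v α hγ hsupp hpole hrR t (not_le.mp hcon))
  have hm : w ∈ 𝒜.Om v α := by
    unfold Om
    simp only [mem_ofPred_eq]
    linarith
  refine ⟨hm, ?_, 𝒜.norm_tau_le v α hm h1⟩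
  by_contra hcon
  push Not at hcon
  apply hne
  rw [𝒜.vel_exp_eq v α r hγ t hm]
  have h5 : R ≤ ‖(Real.exp (-r))⁻¹ • 𝒜.tau v α w‖ := by
    rw [norm_smul, norm_inv, Real.norm_of_nonneg hl.le, ← div_eq_inv_mul, le_div_iff₀ hl]
    linarith
  rw [eta_eq_zero hsupp t h5, smul_zero, map_zero]

/-- derivative bound of the inner factor -/
lemma norm_G_le {γ : ℝ → Diffeo n} (hγ : SmoothFam γ) {k : ℕ} {Cη D l : ℝ}
    (hCη : ∀ t ∈ Icc (0 : ℝ) 1, ∀ z : W v, ∀ i ≤ k,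
      ‖iteratedFDeriv ℝ i (fun z => eta v γ (t, z)) z‖ ≤ Cη)
    (hD1 : 1 ≤ D) {w : Euc n} (hw : w ∈ 𝒜.Om v α)
    (hD : ∀ i ≤ k, ‖iteratedFDerivWithin ℝ i (𝒜.tau v α) (𝒜.Om v α) w‖ ≤ D)
    (hl : 0 < l) (hl1 : l ≤ 1) {t : ℝ} (ht : t ∈ Icc (0 : ℝ) 1) {j : ℕ} (hj : j ≤ k) :
    ‖iteratedFDerivWithin ℝ j (fun w => l • eta v γ (t, l⁻¹ • 𝒜.tau v α w)) (𝒜.Om v α) w‖ ≤
      (j ! : ℝ) * (l * Cη) * (D / l) ^ j := by
  have hη : ContDiff ℝ ∞ (fun z => eta v γ (t, z)) :=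
    (contDiff_eta v hγ).comp (contDiff_const.prodMk contDiff_id)
  have hg : ContDiff ℝ ∞ (fun z => l • eta v γ (t, z)) := contDiff_const.fun_smul hη
  have hf : ContDiffOn ℝ ∞ (fun w => l⁻¹ • 𝒜.tau v α w) (𝒜.Om v α) :=
    contDiffOn_const.fun_smul (𝒜.contDiffOn_tau v α)
  have hopen := 𝒜.isOpen_Om v α
  refine norm_iteratedFDerivWithin_comp_le (g := fun z => l • eta v γ (t, z))
    (f := fun w => l⁻¹ • 𝒜.tau v α w) (t := univ) (N := ∞) hg.contDiffOn hf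
    (by exact_mod_cast le_top) uniqueDiffOn_univ hopen.uniqueDiffOn (mapsTo_univ _ _) hw ?_ ?_
  · intro i hi
    rw [iteratedFDerivWithin_univ, iteratedFDeriv_const_smul_apply'
      (hη.contDiffAt.of_le (by exact_mod_cast le_top)), norm_smul, Real.norm_of_nonneg hl.le]
    exact mul_le_mul_of_nonneg_left (hCη t ht _ i (hi.trans hj)) hl.le
  · intro i hi1 hi
    have hcs := iteratedFDerivWithin_const_smul_apply (i := i) (a := l⁻¹)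
      (((𝒜.contDiffOn_tau v α).of_le (by exact_mod_cast le_top)) w hw) hopen.uniqueDiffOn hw
    change ‖iteratedFDerivWithin ℝ i (l⁻¹ • 𝒜.tau v α) (𝒜.Om v α) w‖ ≤ _
    rw [hcs, norm_smul, norm_inv, Real.norm_of_nonneg hl.le]
    have hDl : 1 ≤ D / l := by
      rw [le_div_iff₀ hl]; linarith
    calc l⁻¹ * ‖iteratedFDerivWithin ℝ i (𝒜.tau v α) (𝒜.Om v α) w‖ ≤ l⁻¹ * D :=
          mul_le_mul_of_nonneg_left (hD i (hi.trans hj)) (by positivity)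
      _ = (D / l) ^ 1 := by rw [pow_one]; ring
      _ ≤ (D / l) ^ i := pow_le_pow_right₀ hDl hi1

lemma contDiffOn_G {γ : ℝ → Diffeo n} (hγ : SmoothFam γ) (l t : ℝ) :
    ContDiffOn ℝ ∞ (fun w => l • eta v γ (t, l⁻¹ • 𝒜.tau v α w)) (𝒜.Om v α) := by
  have hη : ContDiff ℝ ∞ (fun z => eta v γ (t, z)) :=
    (contDiff_eta v hγ).comp (contDiff_const.prodMk contDiff_id)
  have h2 : ContDiffOn ℝ ∞ (fun w => l⁻¹ • 𝒜.tau v α w) (𝒜.Om v α) :=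
    contDiffOn_const.fun_smul (𝒜.contDiffOn_tau v α)
  exact contDiffOn_const.fun_smul (hη.comp_contDiffOn h2)

/-- derivative bound of the velocity in the chart -/
lemma norm_vel_exp_le {γ : ℝ → Diffeo n} (hγ : SmoothFam γ) {k : ℕ} {Cη CA D r : ℝ} (hr : 0 ≤ r)
    (hCη0 : 0 ≤ Cη) (hCA0 : 0 ≤ CA)
    (hCη : ∀ t ∈ Icc (0 : ℝ) 1, ∀ z : W v, ∀ i ≤ k,
      ‖iteratedFDeriv ℝ i (fun z => eta v γ (t, z)) z‖ ≤ Cη)
    (hD1 : 1 ≤ D) {w : Euc n} (hw : w ∈ 𝒜.Om v α)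
    (hD : ∀ i ≤ k, ‖iteratedFDerivWithin ℝ i (𝒜.tau v α) (𝒜.Om v α) w‖ ≤ D)
    (hCA : ∀ i ≤ k, ‖iteratedFDerivWithin ℝ i (𝒜.Aa v α) (𝒜.Om v α) w‖ ≤ CA)
    {t : ℝ} (ht : t ∈ Icc (0 : ℝ) 1) {j : ℕ} (hj : j ≤ k) :
    ‖iteratedFDeriv ℝ j (fun w => vel (conjFam v r γ) t (𝒜.exp α w)) w‖ ≤
      2 ^ k * CA * (k ! : ℝ) * Cη * D ^ k * Real.exp (-r) ^ (1 - (j : ℝ)) := by
  have hl := Real.exp_pos (-r)
  have hl1 : Real.exp (-r) ≤ 1 := Real.exp_le_one_iff.mpr (by linarith)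
  have key := norm_iter_clm_apply_le (f := fun w => vel (conjFam v r γ) t (𝒜.exp α w))
    (𝒜.isOpen_Om v α) (𝒜.contDiffOn_Aa v α)
    (𝒜.contDiffOn_G v α hγ (Real.exp (-r)) t) hw
    (fun w' hw' => 𝒜.vel_exp_eq v α r hγ t hw') (j := j) (CA := CA)
    (CG := (k ! : ℝ) * Cη * D ^ k * (Real.exp (-r) * ((Real.exp (-r))⁻¹) ^ j)) hCA0
    (fun i hi => hCA i (hi.trans hj))
    (fun i hi => (𝒜.norm_G_le v α hγ hCη hD1 hw hD hl hl1 ht (hi.trans hj)).trans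
      (scaled_arith2 hj hi hl hl1 hCη0 hD1))
  exact key.trans (scaled_arith hj hl hl1 hCη0 hCA0 hD1 rfl)

theorem scaled_bound (hn : 1 ≤ n) {s p : ℝ} (hp : 1 ≤ p) (hs : 0 ≤ s)
    {γ : ℝ → Diffeo n} (hγ : SmoothFam γ) {R : ℝ} (hR : 0 ≤ R)
    (hsupp : ∀ t (w : W v), R ≤ ‖w‖ → vel γ t (sig v w) = 0) (hpole : ∀ t, γ t v = v) :
    ∃ M : ℝ, 0 ≤ M ∧ ∀ r, 0 ≤ r → Real.exp (-r) * R ≤ 4 → ∀ t ∈ Icc (0 : ℝ) 1,
      𝒜.fieldNorm s p (vel (conjFam v r γ) t) ≤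
        ENNReal.ofReal (M * Real.exp (-r) ^ (1 - s + n / p)) := by
  set k := ⌊s⌋₊ + 1 with hk
  obtain ⟨Cη, hCη0, hCη⟩ := exists_eta_bound hγ hsupp k
  obtain ⟨L, hL0, hL⟩ := exists_sig_lipschitz v
  obtain ⟨c, hc, hlow⟩ := expMap_lower (n := n) (𝒜.inner_lt.trans 𝒜.radius_lt)
  set R' : ℝ := c⁻¹ * (L * (2 * R)) with hR'
  have hR'0 : 0 ≤ R' := by positivity
  obtain ⟨CG, hCG0, hfield⟩ := 𝒜.fieldNorm_le hn hp hs hR'0
  have hDb : ∀ α : 𝒜.ι, ∃ B : ℝ, 0 ≤ B ∧ ∀ i ≤ k, ∀ w ∈ 𝒜.Ka v α,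
      ‖iteratedFDerivWithin ℝ i (𝒜.tau v α) (𝒜.Om v α) w‖ ≤ B := fun α =>
    exists_bound_iter (𝒜.isOpen_Om v α) (𝒜.contDiffOn_tau v α) (𝒜.isCompact_Ka v α)
      (𝒜.Ka_subset v α) k
  have hAb : ∀ α : 𝒜.ι, ∃ B : ℝ, 0 ≤ B ∧ ∀ i ≤ k, ∀ w ∈ 𝒜.Ka v α,
      ‖iteratedFDerivWithin ℝ i (𝒜.Aa v α) (𝒜.Om v α) w‖ ≤ B := fun α =>
    exists_bound_iter (𝒜.isOpen_Om v α) (𝒜.contDiffOn_Aa v α) (𝒜.isCompact_Ka v α)
      (𝒜.Ka_subset v α) k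
  choose BD hBD0 hBD using hDb
  choose BA hBA0 hBA using hAb
  set D : ℝ := 1 + ∑ α, BD α with hD
  set CA : ℝ := ∑ α, BA α with hCA
  have hD1 : 1 ≤ D := by
    have : 0 ≤ ∑ α, BD α := Finset.sum_nonneg fun α _ => hBD0 α
    linarith
  have hCA0 : 0 ≤ CA := Finset.sum_nonneg fun α _ => hBA0 α
  have hDα : ∀ α, BD α ≤ D := fun α => by
    have := Finset.single_le_sum (f := BD) (fun β _ => hBD0 β) (Finset.mem_univ α)
    linarith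
  have hAα : ∀ α, BA α ≤ CA := fun α =>
    Finset.single_le_sum (f := BA) (fun β _ => hBA0 β) (Finset.mem_univ α)
  set M' : ℝ := 2 ^ k * CA * (k ! : ℝ) * Cη * D ^ k with hM'
  have hM'0 : 0 ≤ M' := by positivity
  refine ⟨CG * M', by positivity, ?_⟩
  intro r hr hrR t ht
  have hl := Real.exp_pos (-r)
  have hl1 : Real.exp (-r) ≤ 1 := Real.exp_le_one_iff.mpr (by linarith)
  apply hfield M' (Real.exp (-r)) _ (smoothField_vel (smoothFam_conjFam v r hγ) t) hM'0 hl hl1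
  · intro α
    by_cases hex : ∃ w0 : Euc n, ‖w0‖ ≤ 𝒜.inner ∧ vel (conjFam v r γ) t (𝒜.exp α w0) ≠ 0
    · obtain ⟨w0, hw0, hne0⟩ := hex
      refine ⟨w0, fun w hw hne => ?_⟩
      obtain ⟨m0, t0, f0⟩ := 𝒜.norm_tau_lt_of_ne v α hγ hsupp hpole hrR t hne0
      obtain ⟨m1, t1, f1⟩ := 𝒜.norm_tau_lt_of_ne v α hγ hsupp hpole hrR t hne
      have h1 := hlow (𝒜.centre α) (𝒜.frame α) (𝒜.frame_orth α) w w0 hw hw0
      have h2 := hL (𝒜.tau v α w) (𝒜.tau v α w0) f1 f0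
      rw [𝒜.sig_tau v α m1, 𝒜.sig_tau v α m0, coe_exp, coe_exp] at h2
      have h3 : ‖𝒜.tau v α w - 𝒜.tau v α w0‖ ≤ 2 * (Real.exp (-r) * R) := by
        refine (norm_sub_le _ _).trans ?_
        linarith
      have h4 : c * ‖w - w0‖ ≤ L * (2 * (Real.exp (-r) * R)) :=
        h1.trans (h2.trans (mul_le_mul_of_nonneg_left h3 hL0))
      rw [hR']
      calc ‖w - w0‖ = c⁻¹ * (c * ‖w - w0‖) := by field_simp
        _ ≤ c⁻¹ * (L * (2 * (Real.exp (-r) * R))) :=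
            mul_le_mul_of_nonneg_left h4 (by positivity)
        _ = c⁻¹ * (L * (2 * R)) * Real.exp (-r) := by ring
    · push Not at hex
      exact ⟨0, fun w hw hne => absurd (hex w hw) hne⟩
  · intro α j hj w hw
    by_cases hin : ⟪(v : Amb n), (𝒜.exp α w : Amb n)⟫ ≤ 3 / 5
    · have hwK : w ∈ 𝒜.Ka v α := ⟨hw, hin⟩
      exact 𝒜.norm_vel_exp_le v α hγ hr hCη0 hCA0 hCη hD1 (𝒜.Ka_subset v α hwK)
        (fun i hi => (hBD α i hi w hwK).trans (hDα α))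
        (fun i hi => (hBA α i hi w hwK).trans (hAα α)) ht hj
    · have hin' := not_le.mp hin
      have hopen : IsOpen {w : Euc n | 3 / 5 < ⟪(v : Amb n), (𝒜.exp α w : Amb n)⟫} :=
        isOpen_lt continuous_const (𝒜.continuous_inner_exp v α)
      have hev : (fun w => vel (conjFam v r γ) t (𝒜.exp α w)) =ᶠ[𝓝 w] fun _ => 0 := by
        filter_upwards [hopen.mem_nhds hin'] with w' hw'
        exact 𝒜.vel_exp_eq_zero v α hγ hsupp hpole hrR t hw'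
      rw [(hev.iteratedFDeriv ℝ j).eq_of_nhds]
      have : 0 ≤ M' * Real.exp (-r) ^ (1 - (j : ℝ)) := by positivity
      simpa using this

end ChartData

end Pool.Agent.Helper76.SobDiff
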