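import Pool.Agent.Helper76.SobDiff.Family

/-!
# Time cut-offs of smooth families
-/

open scoped Manifold ContDiff ENNReal RealInnerProductSpace Topology
open MeasureTheory Set Filter

noncomputable section

set_option linter.unusedSectionVars false

namespace Pool.Agent.Helper76.SobDiff

variable {n : ℕ}

section mkfam

variable {P : Type*} [NormedAddCommGroup P] [NormedSpace ℝ P] [CompleteSpace P]

theorem exists_smoothFam {F : P × Sph n → Sph n}
    (hF : ContMDiff (𝓘(ℝ, P).prod (𝓡 n)) (𝓡 n) ∞ F)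
    (hbij : ∀ p, Function.Bijective (fun x => F (p, x)))
    (hder : ∀ (p : P) (x : Sph n), ∃ e : Amb n ≃L[ℝ] Amb n,
      HasFDerivAt (fun z => homExt F (p, z)) (e : Amb n →L[ℝ] Amb n) (x : Amb n)) :
    ∃ θ : P → Diffeo n, SmoothFam θ ∧ ∀ p x, θ p x = F (p, x) := by
  let E : P → (Sph n ≃ Sph n) := fun p => Equiv.ofBijective _ (hbij p)
  set g : P × Sph n → Sph n := fun q => (E q.1).symm q.2 with hg
  have hgF : ∀ p x, g (p, F (p, x)) = x := fun p x => (E p).symm_apply_apply x
  have hFg : ∀ p x, F (p, g (p, x)) = x := fun p x => (E p).apply_symm_apply x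
  have hgs : ContMDiff (𝓘(ℝ, P).prod (𝓡 n)) (𝓡 n) ∞ g := by
    rw [contMDiff_sph_iff]
    refine contMDiff_of_ambient (g := homExt g) ?_ (fun p x => (homExt_coe g p x).symm)
    intro p0 y0
    set x0 : Sph n := g (p0, y0) with hx0
    obtain ⟨e, he⟩ := hder p0 x0
    have hev : ∀ᶠ q in 𝓝 (p0, (x0 : Amb n)), homExt g (q.1, homExt F q) = q.2 := by
      have hopen : IsOpen {q : P × Amb n | q.2 ≠ 0} :=
        isOpen_ne_fun continuous_snd continuous_const
      filter_upwards [hopen.mem_nhds (coe_sph_ne_zero x0)] with q hq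
      exact homExt_homExt hgF hq
    have := contDiffAt_param_leftInverse (contDiffAt_homExt hF (coe_sph_ne_zero x0)) he hev
    rw [homExt_coe, hFg] at this
    exact this
  have hslice : ∀ p : P, ContMDiff (𝓡 n) (𝓘(ℝ, P).prod (𝓡 n)) ∞ (fun y : Sph n => (p, y)) :=
    fun p => contMDiff_const.prodMk contMDiff_id
  let θ : P → Diffeo n := fun p =>
    { toEquiv := E p
      contMDiff_toFun := hF.comp (hslice p)
      contMDiff_invFun := hgs.comp (hslice p) }
  exact ⟨θ, hF, fun p x => rfl⟩

lemma lipschitz_of_homogeneous {h : Amb n → Amb n} {K : ℝ}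
    (hh : ∀ c : ℝ, 0 < c → ∀ x, h (c • x) = c • h x)
    (hd : ∀ x, x ≠ 0 → DifferentiableAt ℝ h x) (hb : ∀ x, x ≠ 0 → ‖fderiv ℝ h x‖ ≤ K)
    (x y : Amb n) : ‖h x - h y‖ ≤ K * ‖x - y‖ := by
  have hseg : ∀ x y : Amb n, (0 : Amb n) ∉ segment ℝ x y → ‖h x - h y‖ ≤ K * ‖x - y‖ := by
    intro x y h0
    refine Convex.norm_image_sub_le_of_norm_fderiv_le (𝕜 := ℝ) (s := segment ℝ x y)
      (fun z hz => hd z ?_) (fun z hz => hb z ?_) (convex_segment x y)
      (right_mem_segment ℝ x y) (left_mem_segment ℝ x y)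
    · rintro rfl; exact h0 hz
    · rintro rfl; exact h0 hz
  have h00 : h 0 = 0 := by
    have := hh 2 (by norm_num) 0
    rw [smul_zero, two_smul] at this
    simpa using this
  have hnorm : ∀ x : Amb n, ‖h x‖ ≤ K * ‖x‖ := by
    intro x
    rcases eq_or_ne x 0 with rfl | hx
    · simp [h00]
    · have hns : (0 : Amb n) ∉ segment ℝ x ((1 / 2 : ℝ) • x) := by
        rintro ⟨a, b, ha, hb', hab, h⟩
        rw [smul_smul, ← add_smul, smul_eq_zero] at h
        rcases h with h | h
        · linarith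
        · exact hx h
      have h1 := hseg x ((1 / 2 : ℝ) • x) hns
      rw [hh (1 / 2) (by norm_num)] at h1
      have e1 : ∀ z : Amb n, z - (1 / 2 : ℝ) • z = (1 / 2 : ℝ) • z := by
        intro z
        nth_rewrite 1 [← one_smul ℝ z]
        rw [← sub_smul]; norm_num
      rw [e1, e1, norm_smul, norm_smul] at h1
      norm_num at h1
      linarith
  by_cases h0 : (0 : Amb n) ∈ segment ℝ x y
  · have h1 := dist_add_dist_of_mem_segment h0
    rw [dist_zero_right, dist_zero_left, dist_eq_norm] at h1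
    calc ‖h x - h y‖ ≤ ‖h x‖ + ‖h y‖ := norm_sub_le _ _
      _ ≤ K * ‖x‖ + K * ‖y‖ := add_le_add (hnorm x) (hnorm y)
      _ = K * ‖x - y‖ := by rw [← h1]; ring
  · exact hseg x y h0

lemma homExt_smul (F : P × Sph n → Sph n) (p : P) {c : ℝ} (hc : 0 < c) (x : Amb n) :
    homExt F (p, c • x) = c • homExt F (p, x) := by
  unfold homExt
  simp only
  rw [nrm_smul hc, norm_smul, Real.norm_of_nonneg hc.le, smul_smul]

lemma near_id {F : P × Sph n → Sph n} {p : P}
    (hd : ∀ x : Amb n, x ≠ 0 → DifferentiableAt ℝ (fun z => homExt F (p, z)) x)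
    (hb : ∀ x : Amb n, x ≠ 0 → ‖fderiv ℝ (fun z => homExt F (p, z)) x -
      ContinuousLinearMap.id ℝ (Amb n)‖ ≤ 1 / 2) :
    Function.Bijective (fun x => F (p, x)) ∧ ∀ x : Sph n, ∃ e : Amb n ≃L[ℝ] Amb n,
      HasFDerivAt (fun z => homExt F (p, z)) (e : Amb n →L[ℝ] Amb n) (x : Amb n) := by
  set G : Amb n → Amb n := fun z => homExt F (p, z) with hG
  have hlip : ∀ x y, ‖(G x - x) - (G y - y)‖ ≤ 1 / 2 * ‖x - y‖ := by
    apply lipschitz_of_homogeneous (h := fun z => G z - z)
    · intro c hc x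
      rw [hG]
      simp only
      rw [homExt_smul F p hc, smul_sub]
    · intro x hx
      exact (hd x hx).sub differentiableAt_id
    · intro x hx
      rw [fderiv_fun_sub (hd x hx) differentiableAt_fun_id]
      simpa using hb x hx
  have happ : ApproximatesLinearOn G
      ((ContinuousLinearEquiv.refl ℝ (Amb n) : Amb n ≃L[ℝ] Amb n) : Amb n →L[ℝ] Amb n)
      univ (1 / 2 : NNReal) := by
    intro x _ y _
    have := hlip x y
    have e : G x - G y - ((ContinuousLinearEquiv.refl ℝ (Amb n) : Amb n ≃L[ℝ] Amb n) :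
        Amb n →L[ℝ] Amb n) (x - y) = (G x - x) - (G y - y) := by
      simp only [ContinuousLinearEquiv.coe_refl, ContinuousLinearMap.coe_id', id]
      abel
    rw [e]
    simpa using this
  refine ⟨⟨?_, ?_⟩, ?_⟩
  · intro x y hxy
    have h1 : G (x : Amb n) = G (y : Amb n) := by
      change homExt F (p, (x : Amb n)) = homExt F (p, (y : Amb n))
      rw [homExt_coe, homExt_coe]
      exact congrArg _ hxy
    have h2 := hlip x y
    rw [h1] at h2
    have h3 : ‖(G (y : Amb n) - (x : Amb n)) - (G (y : Amb n) - (y : Amb n))‖ =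
        ‖(x : Amb n) - (y : Amb n)‖ := by
      rw [← norm_neg]
      congr 1
      abel
    rw [h3] at h2
    have h4 : ‖(x : Amb n) - (y : Amb n)‖ = 0 := by
      have := norm_nonneg ((x : Amb n) - (y : Amb n))
      linarith
    exact Subtype.ext (sub_eq_zero.mp (norm_eq_zero.mp h4))
  · intro y
    have hsurj : Function.Surjective G := by
      apply happ.surjective
      by_cases hs : Subsingleton (Amb n)
      · exact Or.inl hs
      · right
        rw [not_subsingleton_iff_nontrivial] at hs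
        have : ‖(((ContinuousLinearEquiv.refl ℝ (Amb n)).symm : Amb n ≃L[ℝ] Amb n) :
            Amb n →L[ℝ] Amb n)‖₊ = 1 := by
          apply NNReal.eq
          simp
        rw [this]
        rw [inv_one]
        norm_num [NNReal.half_lt_self]
    obtain ⟨x, hx⟩ := hsurj (y : Amb n)
    have hnx : ‖x‖ = 1 := by
      have h1 := norm_homExt F (p, x)
      change homExt F (p, x) = y at hx
      rw [hx, norm_coe_sph] at h1
      exact h1.symm
    refine ⟨⟨x, by simpa using hnx⟩, ?_⟩
    apply Subtype.ext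
    have := homExt_coe F p (⟨x, by simpa using hnx⟩ : Sph n)
    simp only at this ⊢
    rw [← this]
    exact hx
  · intro x
    have hx0 := coe_sph_ne_zero x
    set D : Amb n →L[ℝ] Amb n := fderiv ℝ G (x : Amb n) - ContinuousLinearMap.id ℝ (Amb n) with hD
    have hDn : ‖-D‖ < 1 := by
      rw [norm_neg]
      exact lt_of_le_of_lt (hb x hx0) (by norm_num)
    refine ⟨ContinuousLinearEquiv.ofUnit (Units.oneSub (-D) hDn), ?_⟩
    have h1 : ((ContinuousLinearEquiv.ofUnit (Units.oneSub (-D) hDn) : Amb n ≃L[ℝ] Amb n) :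
        Amb n →L[ℝ] Amb n) = fderiv ℝ G (x : Amb n) := by
      apply ContinuousLinearMap.ext
      intro v
      change ((Units.oneSub (-D) hDn : (Amb n →L[ℝ] Amb n)ˣ) : Amb n →L[ℝ] Amb n) v = _
      rw [Units.val_oneSub]
      simp [hD]
    rw [h1]
    exact (hd x hx0).hasFDerivAt

end mkfam

end Pool.Agent.Helper76.SobDiff
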