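import Pool.Agent.Helper76.SobDiff.Kernel

/-!
# Scaled bounds of the Sobolev norm
-/

open scoped Manifold ContDiff ENNReal RealInnerProductSpace
open MeasureTheory Set

noncomputable section

namespace Pool.Agent.Helper76.SobDiff

lemma iteratedFDeriv_eq_zero_of_far {n : ℕ} {f : Euc n → Euc n} {c : Euc n} {r : ℝ}
    (h : ∀ x, r < ‖x - c‖ → f x = 0) (j : ℕ) {x : Euc n} (hx : r < ‖x - c‖) :
    iteratedFDeriv ℝ j f x = 0 := by
  have hopen : IsOpen {y : Euc n | r < ‖y - c‖} :=
    isOpen_lt continuous_const (by fun_prop)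
  have hev : f =ᶠ[nhds x] fun _ => 0 :=
    Filter.eventuallyEq_of_mem (hopen.mem_nhds hx) fun y hy => h y hy
  have := hev.iteratedFDeriv ℝ j
  rw [this.eq_of_nhds]
  simp

/-- volume of the unit ball -/
def omega (n : ℕ) : ℝ := (volume (Metric.ball (0 : Euc n) 1)).toReal

lemma omega_nonneg (n : ℕ) : 0 ≤ omega n := ENNReal.toReal_nonneg

lemma volume_closedBall_eq {n : ℕ} (c : Euc n) {r : ℝ} (hr : 0 ≤ r) :
    volume (Metric.closedBall c r) = ENNReal.ofReal (r ^ n * omega n) := by
  rw [Measure.addHaar_closedBall volume c hr, omega, ENNReal.ofReal_mul (by positivity),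
    ENNReal.ofReal_toReal (measure_ball_lt_top).ne]
  simp

lemma lintegral_bound_of_support {n : ℕ} {F : Type*} [NormedAddCommGroup F] {p : ℝ} (hp : 0 < p)
    {g : Euc n → F} {c : Euc n} {r K : ℝ} (hr : 0 ≤ r) (hK : 0 ≤ K)
    (h0 : ∀ x, r < ‖x - c‖ → g x = 0) (hb : ∀ x, ‖g x‖ ≤ K) :
    ∫⁻ x, ‖g x‖ₑ ^ p ≤ ENNReal.ofReal (K ^ p * (r ^ n * omega n)) := by
  calc ∫⁻ x, ‖g x‖ₑ ^ p
      ≤ ∫⁻ x, (Metric.closedBall c r).indicator (fun _ => ENNReal.ofReal (K ^ p)) x := by
        apply lintegral_mono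
        intro x
        by_cases hx : x ∈ Metric.closedBall c r
        · simp only [indicator_of_mem hx]
          rw [← ENNReal.ofReal_rpow_of_nonneg hK hp.le]
          apply ENNReal.rpow_le_rpow _ hp.le
          rw [← ofReal_norm]
          exact ENNReal.ofReal_le_ofReal (hb x)
        · simp only [indicator_of_notMem hx]
          have : r < ‖x - c‖ := by
            simpa [dist_eq_norm] using hx
          rw [h0 x this]
          simp [hp]
    _ = ENNReal.ofReal (K ^ p * (r ^ n * omega n)) := by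
        rw [lintegral_indicator Metric.isClosed_closedBall.measurableSet, lintegral_const,
          Measure.restrict_apply_univ, volume_closedBall_eq c hr,
          ← ENNReal.ofReal_mul (by positivity)]

lemma lintegral_conv_left {n : ℕ} {B : Set (Euc n)} (hBm : MeasurableSet B) {k : Euc n → ℝ≥0∞}
    (hkm : Measurable k) :
    ∫⁻ x, ∫⁻ y, B.indicator (1 : Euc n → ℝ≥0∞) x * k (x - y) = volume B * ∫⁻ z, k z := by
  have : ∀ x : Euc n, ∫⁻ y, B.indicator (1 : Euc n → ℝ≥0∞) x * k (x - y) =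
      B.indicator (1 : Euc n → ℝ≥0∞) x * ∫⁻ z, k z := by
    intro x
    have hm : Measurable fun y => k (x - y) := hkm.comp (measurable_const.sub measurable_id)
    rw [lintegral_const_mul _ hm]
    congr 1
    exact lintegral_sub_left_eq_self (fun z => k z) x
  simp_rw [this]
  rw [lintegral_mul_const _ (measurable_one.indicator hBm), lintegral_indicator_one hBm]

lemma lintegral_conv_right {n : ℕ} {B : Set (Euc n)} (hBm : MeasurableSet B) {k : Euc n → ℝ≥0∞}
    (hkm : Measurable k) :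
    ∫⁻ x, ∫⁻ y, B.indicator (1 : Euc n → ℝ≥0∞) y * k (x - y) = volume B * ∫⁻ z, k z := by
  have hmeas2 : Measurable (Function.uncurry fun (x y : Euc n) =>
      B.indicator (1 : Euc n → ℝ≥0∞) y * k (x - y)) := by
    apply Measurable.mul
    · exact (measurable_one.indicator hBm).comp measurable_snd
    · exact hkm.comp (measurable_fst.sub measurable_snd)
  rw [lintegral_lintegral_swap hmeas2.aemeasurable]
  have : ∀ y : Euc n, ∫⁻ x, B.indicator (1 : Euc n → ℝ≥0∞) y * k (x - y) =
      B.indicator (1 : Euc n → ℝ≥0∞) y * ∫⁻ z, k z := by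
    intro y
    have hm : Measurable fun x => k (x - y) := hkm.comp (measurable_id.sub measurable_const)
    rw [lintegral_const_mul _ hm]
    congr 1
    exact lintegral_sub_right_eq_self (fun z => k z) y
  simp_rw [this]
  rw [lintegral_mul_const _ (measurable_one.indicator hBm), lintegral_indicator_one hBm]

lemma lintegral_conv_add {n : ℕ} {B : Set (Euc n)} (hBm : MeasurableSet B) {k : Euc n → ℝ≥0∞}
    (hkm : Measurable k) :
    ∫⁻ x, ∫⁻ y, (B.indicator (1 : Euc n → ℝ≥0∞) x * k (x - y) +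
      B.indicator (1 : Euc n → ℝ≥0∞) y * k (x - y)) = 2 * (volume B * ∫⁻ z, k z) := by
  have hmeas1 : Measurable (Function.uncurry fun (x y : Euc n) =>
      B.indicator (1 : Euc n → ℝ≥0∞) x * k (x - y)) := by
    apply Measurable.mul
    · exact (measurable_one.indicator hBm).comp measurable_fst
    · exact hkm.comp (measurable_fst.sub measurable_snd)
  have h1 : ∀ x : Euc n, ∫⁻ y, (B.indicator (1 : Euc n → ℝ≥0∞) x * k (x - y) +
      B.indicator (1 : Euc n → ℝ≥0∞) y * k (x - y)) =
      (∫⁻ y, B.indicator (1 : Euc n → ℝ≥0∞) x * k (x - y)) +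
        ∫⁻ y, B.indicator (1 : Euc n → ℝ≥0∞) y * k (x - y) := by
    intro x
    have hm : Measurable fun y => B.indicator (1 : Euc n → ℝ≥0∞) x * k (x - y) :=
      measurable_const.mul (hkm.comp (measurable_const.sub measurable_id))
    exact lintegral_add_left hm _
  simp_rw [h1]
  have hm2 : Measurable fun x : Euc n =>
      ∫⁻ y, B.indicator (1 : Euc n → ℝ≥0∞) x * k (x - y) := Measurable.lintegral_prod_right hmeas1
  rw [lintegral_add_left hm2, lintegral_conv_left hBm hkm, lintegral_conv_right hBm hkm, two_mul]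

lemma gagliardo_pointwise {n : ℕ} {F : Type*} [NormedAddCommGroup F] {p σ : ℝ}
    (hp : 0 < p) {g : Euc n → F} {K l : ℝ} (hK : 0 ≤ K) (hl : 0 < l)
    (hb : ∀ x, ‖g x‖ ≤ K * l) (hlip : ∀ x y, ‖g x - g y‖ ≤ K * ‖x - y‖) (x y : Euc n) :
    ‖g x - g y‖ₑ ^ p / ‖x - y‖ₑ ^ ((n : ℝ) + σ * p) ≤
      ENNReal.ofReal (K ^ p * ker n p σ l (x - y)) := by
  rcases eq_or_ne x y with rfl | hxy
  · simp [hp]
  · have hpos : 0 < ‖x - y‖ := norm_pos_iff.mpr (sub_ne_zero.mpr hxy)
    have e1 : ‖g x - g y‖ ≤ K * min (2 * l) ‖x - y‖ := by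
      rw [mul_min_of_nonneg _ _ hK]
      apply le_min
      · calc ‖g x - g y‖ ≤ ‖g x‖ + ‖g y‖ := norm_sub_le _ _
          _ ≤ K * l + K * l := add_le_add (hb x) (hb y)
          _ = K * (2 * l) := by ring
      · exact hlip x y
    have e2 : ‖g x - g y‖ ^ p ≤ K ^ p * (min (2 * l) ‖x - y‖) ^ p := by
      rw [← Real.mul_rpow hK (by positivity)]
      exact Real.rpow_le_rpow (norm_nonneg _) e1 hp.le
    rw [← ofReal_norm, ← ofReal_norm, ENNReal.ofReal_rpow_of_nonneg (norm_nonneg _) hp.le,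
      ENNReal.ofReal_rpow_of_pos hpos, ← ENNReal.ofReal_div_of_pos (by positivity)]
    apply ENNReal.ofReal_le_ofReal
    unfold ker
    rw [Real.rpow_neg hpos.le, ← mul_assoc, ← div_eq_mul_inv]
    gcongr

lemma gagliardo_bound {n : ℕ} (hn : 1 ≤ n) {F : Type*} [NormedAddCommGroup F] {p σ : ℝ}
    (hp : 0 < p) (h0 : 0 < σ) (h1 : σ < 1)
    {g : Euc n → F} {c : Euc n} {r K l : ℝ} (hr : 0 ≤ r) (hK : 0 ≤ K) (hl : 0 < l)
    (hsupp : ∀ x, r < ‖x - c‖ → g x = 0) (hb : ∀ x, ‖g x‖ ≤ K * l)
    (hlip : ∀ x y, ‖g x - g y‖ ≤ K * ‖x - y‖) :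
    ∫⁻ x, ∫⁻ y, ‖g x - g y‖ₑ ^ p / ‖x - y‖ₑ ^ ((n : ℝ) + σ * p) ≤
      ENNReal.ofReal (2 * (r ^ n * omega n) *
        (K ^ p * (l ^ ((1 - σ) * p) * ∫ z, ker n p σ 1 z))) := by
  have hBm : MeasurableSet (Metric.closedBall c r) := Metric.isClosed_closedBall.measurableSet
  have hkm : Measurable fun z => ENNReal.ofReal (K ^ p * ker n p σ l z) :=
    (measurable_const.mul (measurable_ker n p σ l)).ennreal_ofReal
  have hkint : ∫⁻ z, ENNReal.ofReal (K ^ p * ker n p σ l z) =
      ENNReal.ofReal (K ^ p * (l ^ ((1 - σ) * p) * ∫ z, ker n p σ 1 z)) := by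
    rw [← integral_ker hl, ← integral_const_mul]
    rw [ofReal_integral_eq_lintegral_ofReal]
    · exact (integrable_ker hn hp h0 h1 hl).const_mul _
    · exact Filter.Eventually.of_forall fun z =>
        mul_nonneg (by positivity) (ker_nonneg n p σ l hl.le z)
  have hpt : ∀ x y, ‖g x - g y‖ₑ ^ p / ‖x - y‖ₑ ^ ((n : ℝ) + σ * p) ≤
      (Metric.closedBall c r).indicator (1 : Euc n → ℝ≥0∞) x *
        ENNReal.ofReal (K ^ p * ker n p σ l (x - y)) +
      (Metric.closedBall c r).indicator (1 : Euc n → ℝ≥0∞) y *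
        ENNReal.ofReal (K ^ p * ker n p σ l (x - y)) := by
    intro x y
    have key := gagliardo_pointwise (σ := σ) hp hK hl hb hlip x y
    by_cases hx : x ∈ Metric.closedBall c r
    · simp only [indicator_of_mem hx, Pi.one_apply, one_mul]
      exact key.trans le_self_add
    · by_cases hy : y ∈ Metric.closedBall c r
      · simp only [indicator_of_notMem hx, indicator_of_mem hy, Pi.one_apply, one_mul, zero_mul,
          zero_add]
        exact key
      · have hx' : g x = 0 := hsupp x (by simpa [dist_eq_norm] using hx)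
        have hy' : g y = 0 := hsupp y (by simpa [dist_eq_norm] using hy)
        rw [hx', hy']
        simp [hp]
  refine (lintegral_mono fun x => lintegral_mono fun y => hpt x y).trans ?_
  rw [lintegral_conv_add hBm hkm, hkint, volume_closedBall_eq c hr, ← mul_assoc]
  have hω := omega_nonneg n
  rw [ENNReal.ofReal_mul (p := 2 * (r ^ n * omega n)) (by positivity),
    ENNReal.ofReal_mul (p := 2) (by norm_num)]
  simp

end Pool.Agent.Helper76.SobDiff
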