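import Pool.Agent.Helper76.SobDiff.SmallTime

/-!
# Time cut-offs of smooth families: the small time theorem
-/

open scoped Manifold ContDiff ENNReal RealInnerProductSpace Topology
open MeasureTheory Set Filter

noncomputable section

namespace Pool.Agent.Helper76.SobDiff

variable {n : ℕ}

/-- the time cut-off map -/
def cutMap (γ : ℝ → Diffeo n) (κ : Sph n → ℝ) (q : (ℝ × ℝ) × Sph n) : Sph n :=
  γ (q.1.1 + q.1.2 * κ q.2) ((γ q.1.1).symm q.2)

lemma contMDiff_cutMap {γ : ℝ → Diffeo n} (hγ : SmoothFam γ) {κ : Sph n → ℝ}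
    (hκ : ContMDiff (𝓡 n) 𝓘(ℝ, ℝ) ∞ κ) :
    ContMDiff (𝓘(ℝ, ℝ × ℝ).prod (𝓡 n)) (𝓡 n) ∞ (cutMap γ κ) := by
  have h1 : ContMDiff (𝓘(ℝ, ℝ × ℝ).prod (𝓡 n)) 𝓘(ℝ, ℝ) ∞
      (fun q : (ℝ × ℝ) × Sph n => q.1.1) :=
    (contDiff_fst.contMDiff).comp contMDiff_fst
  have h2 : ContMDiff (𝓘(ℝ, ℝ × ℝ).prod (𝓡 n)) 𝓘(ℝ, ℝ) ∞
      (fun q : (ℝ × ℝ) × Sph n => q.1.2) :=
    (contDiff_snd.contMDiff).comp contMDiff_fst
  have h3 : ContMDiff (𝓘(ℝ, ℝ × ℝ).prod (𝓡 n)) 𝓘(ℝ, ℝ) ∞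
      (fun q : (ℝ × ℝ) × Sph n => κ q.2) := hκ.comp contMDiff_snd
  have h4 : ContMDiff (𝓘(ℝ, ℝ × ℝ).prod (𝓡 n)) 𝓘(ℝ, ℝ) ∞
      (fun q : (ℝ × ℝ) × Sph n => q.1.1 + q.1.2 * κ q.2) := by
    have hg : ContDiff ℝ ∞ (fun z : ℝ × ℝ × ℝ => z.1 + z.2.1 * z.2.2) := by fun_prop
    have h5 := h1.prodMk_space (h2.prodMk_space h3)
    exact hg.contMDiff.comp h5
  have h6 : ContMDiff (𝓘(ℝ, ℝ × ℝ).prod (𝓡 n)) (𝓡 n) ∞
      (fun q : (ℝ × ℝ) × Sph n => (γ q.1.1).symm q.2) := by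
    have h7 : ContMDiff (𝓘(ℝ, ℝ × ℝ).prod (𝓡 n)) (𝓘(ℝ, ℝ).prod (𝓡 n)) ∞
        (fun q : (ℝ × ℝ) × Sph n => (q.1.1, q.2)) := h1.prodMk contMDiff_snd
    exact ContMDiff.comp (g := fun q : ℝ × Sph n => (γ q.1).symm q.2) hγ.symm h7
  exact ContMDiff.comp (g := fun q : ℝ × Sph n => γ q.1 q.2) hγ (h4.prodMk h6)

lemma fderiv_slice {P : Type*} [NormedAddCommGroup P] [NormedSpace ℝ P] [CompleteSpace P] {F : P × Sph n → Sph n}
    (hF : ContMDiff (𝓘(ℝ, P).prod (𝓡 n)) (𝓡 n) ∞ F) (p : P) {x : Amb n} (hx : x ≠ 0) :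
    HasFDerivAt (fun z => homExt F (p, z))
      ((fderiv ℝ (homExt F) (p, x)).comp (ContinuousLinearMap.inr ℝ P (Amb n))) x := by
  have h1 : HasFDerivAt (homExt F) (fderiv ℝ (homExt F) (p, x)) (p, x) :=
    ((contDiffAt_homExt hF hx).differentiableAt (by simp)).hasFDerivAt
  exact h1.comp x (hasFDerivAt_prodMk_right p x)

theorem small_time {γ : ℝ → Diffeo n} (hγ : SmoothFam γ) {κ : Sph n → ℝ}
    (hκ : ContMDiff (𝓡 n) 𝓘(ℝ, ℝ) ∞ κ) :
    ∃ h0 : ℝ, 0 < h0 ∧ ∀ h, 0 ≤ h → h < h0 → ∀ t ∈ Icc (0 : ℝ) 1,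
      ∃ θ : ℝ → Diffeo n, SmoothFam θ ∧
        ∀ σ x, θ σ x = γ (t + h * Real.smoothTransition σ * κ x) ((γ t).symm x) := by
  have hF := contMDiff_cutMap hγ hκ
  set F := cutMap γ κ with hFdef
  set D : (ℝ × ℝ) × Amb n → (Amb n →L[ℝ] Amb n) := fun q =>
    (fderiv ℝ (homExt F) q).comp (ContinuousLinearMap.inr ℝ (ℝ × ℝ) (Amb n)) -
      ContinuousLinearMap.id ℝ (Amb n) with hD
  have hopen0 : IsOpen {q : (ℝ × ℝ) × Amb n | q.2 ≠ 0} :=
    isOpen_ne_fun continuous_snd continuous_const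
  have hDcont : ContinuousOn D {q : (ℝ × ℝ) × Amb n | q.2 ≠ 0} := by
    intro q hq
    apply ContinuousAt.continuousWithinAt
    have h1 : ContinuousAt (fderiv ℝ (homExt F)) q := by
      have h2 : ContDiffAt ℝ ∞ (homExt F) (q.1, q.2) := contDiffAt_homExt hF hq
      exact (h2.fderiv_right (m := 0) (by simp)).continuousAt
    exact ((continuousAt_id.clm_comp continuousAt_const).comp h1).sub continuousAt_const
  set U : Set ((ℝ × ℝ) × Amb n) := {q | q.2 ≠ 0} ∩ D ⁻¹' (Metric.ball 0 (1 / 2)) with hU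
  have hUopen : IsOpen U := hDcont.isOpen_inter_preimage hopen0 Metric.isOpen_ball
  -- at `s = 0` the family is the identity
  have hzero : ∀ t : ℝ, ∀ x : Amb n, x ≠ 0 → D ((t, 0), x) = 0 := by
    intro t x hx
    have h1 := fderiv_slice hF (t, (0 : ℝ)) hx
    have h2 : HasFDerivAt (fun z => homExt F ((t, (0 : ℝ)), z))
        (ContinuousLinearMap.id ℝ (Amb n)) x := by
      refine (hasFDerivAt_id x).congr_of_eventuallyEq ?_
      filter_upwards [isOpen_compl_singleton.mem_nhds hx] with z hz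
      have hz' : z ≠ 0 := hz
      have : F ((t, (0 : ℝ)), nrm z) = nrm z := by
        rw [hFdef]
        unfold cutMap
        simp
      unfold homExt
      simp only
      rw [this, norm_smul_nrm hz']
      rfl
    have h3 := h1.unique h2
    rw [hD]
    simp only
    rw [h3, sub_self]
  have hsub : (Icc (0 : ℝ) 1 ×ˢ ({0} : Set ℝ)) ×ˢ (Metric.sphere (0 : Amb n) 1) ⊆ U := by
    rintro ⟨⟨t, s⟩, x⟩ ⟨⟨_, hs⟩, hx⟩
    have hs' : s = 0 := hs
    have hx0 : x ≠ 0 := by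
      rintro rfl
      simp at hx
    refine ⟨hx0, ?_⟩
    simp only [mem_preimage]
    rw [hs', hzero t x hx0]
    simp
  obtain ⟨u, v, hu, hv, hsu, hsv, huv⟩ := generalized_tube_lemma
    (isCompact_Icc.prod isCompact_singleton) (isCompact_sphere (0 : Amb n) 1) hUopen hsub
  obtain ⟨u1, u2, hu1, hu2, hsu1, hsu2, huu⟩ := generalized_tube_lemma
    (isCompact_Icc (a := (0 : ℝ)) (b := 1)) (isCompact_singleton (x := (0 : ℝ))) hu hsu
  obtain ⟨h0, hh0, hball⟩ := Metric.isOpen_iff.mp hu2 0 (hsu2 rfl)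
  refine ⟨h0, hh0, ?_⟩
  intro h hh hhlt t ht
  set f : ℝ → ℝ × ℝ := fun σ => (t, h * Real.smoothTransition σ) with hf
  have hfs : ContDiff ℝ ∞ f :=
    contDiff_const.prodMk (contDiff_const.mul (Real.smoothTransition.contDiff (n := ⊤)))
  have hfu : ∀ σ, f σ ∈ u := by
    intro σ
    apply huu
    refine ⟨hsu1 ht, hball ?_⟩
    rw [Metric.mem_ball, dist_zero_right, Real.norm_eq_abs, abs_of_nonneg
      (mul_nonneg hh (Real.smoothTransition.nonneg σ))]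
    calc h * Real.smoothTransition σ ≤ h * 1 :=
          mul_le_mul_of_nonneg_left (Real.smoothTransition.le_one σ) hh
      _ < h0 := by linarith
  -- the bound away from the sphere, by homogeneity
  have hbound : ∀ σ, ∀ x : Amb n, x ≠ 0 → ‖fderiv ℝ (fun z => homExt F (f σ, z)) x -
      ContinuousLinearMap.id ℝ (Amb n)‖ ≤ 1 / 2 := by
    intro σ x hx
    have hxn : 0 < ‖x‖ := norm_pos_iff.mpr hx
    set y : Amb n := ‖x‖⁻¹ • x with hy
    have hyn : ‖y‖ = 1 := by rw [hy, norm_smul, norm_inv, norm_norm, inv_mul_cancel₀ hxn.ne']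
    have hy0 : y ≠ 0 := by
      intro h; rw [h, norm_zero] at hyn; exact zero_ne_one hyn
    have hxy : x = ‖x‖ • y := by rw [hy, smul_smul, mul_inv_cancel₀ hxn.ne', one_smul]
    have hhom : fderiv ℝ (fun z => homExt F (f σ, z)) x =
        fderiv ℝ (fun z => homExt F (f σ, z)) y := by
      have h1 : (fun z => homExt F (f σ, ‖x‖ • z)) = fun z => ‖x‖ • homExt F (f σ, z) := by
        funext z
        exact homExt_smul F (f σ) hxn z
      have h2 : HasFDerivAt (fun z => homExt F (f σ, ‖x‖ • z))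
          ((fderiv ℝ (fun z => homExt F (f σ, z)) x).comp
            (‖x‖ • ContinuousLinearMap.id ℝ (Amb n))) y := by
        have h3 : HasFDerivAt (fun z => homExt F (f σ, z))
            (fderiv ℝ (fun z => homExt F (f σ, z)) x) (‖x‖ • y) := by
          rw [← hxy]
          exact (fderiv_slice hF (f σ) hx).differentiableAt.hasFDerivAt
        have h4 : HasFDerivAt (fun z : Amb n => ‖x‖ • z)
            (‖x‖ • ContinuousLinearMap.id ℝ (Amb n)) y := (hasFDerivAt_id y).const_smul ‖x‖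
        exact h3.comp y h4
      have h5 : HasFDerivAt (fun z => ‖x‖ • homExt F (f σ, z))
          (‖x‖ • fderiv ℝ (fun z => homExt F (f σ, z)) y) y :=
        ((fderiv_slice hF (f σ) hy0).differentiableAt.hasFDerivAt).const_smul ‖x‖
      rw [h1] at h2
      have h6 := h2.unique h5
      apply ContinuousLinearMap.ext
      intro w
      have h7 := congrArg (fun T : Amb n →L[ℝ] Amb n => ‖x‖⁻¹ • T w) h6
      simpa [smul_smul, inv_mul_cancel₀ hxn.ne'] using h7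
    rw [hhom, (fderiv_slice hF (f σ) hy0).fderiv]
    have hmem : (f σ, y) ∈ U := huv ⟨hfu σ, hsv (by simpa using hyn)⟩
    have := hmem.2
    simp only [mem_preimage, Metric.mem_ball, dist_zero_right] at this
    exact this.le
  have hnear : ∀ σ, Function.Bijective (fun x => F (f σ, x)) ∧
      ∀ x : Sph n, ∃ e : Amb n ≃L[ℝ] Amb n,
        HasFDerivAt (fun z => homExt F (f σ, z)) (e : Amb n →L[ℝ] Amb n) (x : Amb n) :=
    fun σ => near_id (fun x hx => (fderiv_slice hF (f σ) hx).differentiableAt) (hbound σ)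
  have hFf : ContMDiff (𝓘(ℝ, ℝ).prod (𝓡 n)) (𝓡 n) ∞ (fun q : ℝ × Sph n => F (f q.1, q.2)) := by
    have h1 : ContMDiff (𝓘(ℝ, ℝ).prod (𝓡 n)) (𝓘(ℝ, ℝ × ℝ).prod (𝓡 n)) ∞
        (fun q : ℝ × Sph n => (f q.1, q.2)) :=
      (hfs.contMDiff.comp contMDiff_fst).prodMk contMDiff_snd
    exact hF.comp h1
  obtain ⟨θ, hθ1, hθ2⟩ := exists_smoothFam hFf (fun σ => (hnear σ).1)
    (fun σ x => (hnear σ).2 x)
  exact ⟨θ, hθ1, fun σ x => hθ2 σ x⟩

end Pool.Agent.Helper76.SobDiff
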