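import Pool.Agent.Helper76.SobDiff.Defs

/-!
# Smoothness of `cos ‖v‖` and `sinc ‖v‖`
-/

open scoped Manifold ContDiff ENNReal RealInnerProductSpace Topology
open MeasureTheory Set Filter

noncomputable section

namespace Pool.Agent.Helper76.SobDiff

lemma contDiff_of_series (c : ℕ → ℝ) (h0 : ∀ k, c k ≠ 0)
    (hc : Tendsto (fun k ↦ ‖c k.succ‖ / ‖c k‖) atTop (𝓝 0)) :
    ContDiff ℝ ∞ (FormalMultilinearSeries.ofScalarsSum (E := ℝ) c) := by
  have hr := FormalMultilinearSeries.ofScalars_radius_eq_top_of_tendsto ℝ c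
    (Eventually.of_forall h0) hc
  have h1 := (FormalMultilinearSeries.ofScalars ℝ c).hasFPowerSeriesOnBall (by rw [hr]; exact ENNReal.zero_lt_top)
  have h2 := h1.analyticOnNhd
  rw [hr] at h2
  have h3 : AnalyticOnNhd ℝ (FormalMultilinearSeries.ofScalars ℝ c).sum univ := by
    intro x _
    exact h2 x (by simp)
  exact h3.contDiff

/-- the coefficients of `cos √t` -/
def cosCoef (k : ℕ) : ℝ := (-1) ^ k / (2 * k).factorial

/-- the coefficients of `sinc √t` -/
def sincCoef (k : ℕ) : ℝ := (-1) ^ k / (2 * k + 1).factorial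

lemma contDiff_cosSum : ContDiff ℝ ∞ (FormalMultilinearSeries.ofScalarsSum (E := ℝ) cosCoef) := by
  apply contDiff_of_series
  · intro k
    unfold cosCoef
    positivity
  · have h : ∀ k : ℕ, ‖cosCoef k.succ‖ / ‖cosCoef k‖ = ((2 * k + 1 : ℕ) : ℝ)⁻¹ * ((2 * k + 2 : ℕ) : ℝ)⁻¹ := by
      intro k
      unfold cosCoef
      have : 2 * k.succ = (2 * k + 1) + 1 := by omega
      rw [this, Nat.factorial_succ, Nat.factorial_succ]
      simp only [norm_div, norm_pow, norm_neg, norm_one, one_pow, Nat.cast_mul, norm_mul,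
        Real.norm_natCast]
      have h1 : ((2 * k).factorial : ℝ) ≠ 0 := by positivity
      field_simp
    simp_rw [h]
    have h1 : Tendsto (fun k : ℕ => ((2 * k + 1 : ℕ) : ℝ)⁻¹) atTop (𝓝 0) := by
      apply tendsto_inv_atTop_zero.comp
      apply tendsto_natCast_atTop_atTop.comp
      exact tendsto_atTop_mono (fun k => by simp only [id]; omega) tendsto_id
    have h2 : Tendsto (fun k : ℕ => ((2 * k + 2 : ℕ) : ℝ)⁻¹) atTop (𝓝 0) := by
      apply tendsto_inv_atTop_zero.comp
      apply tendsto_natCast_atTop_atTop.comp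
      exact tendsto_atTop_mono (fun k => by simp only [id]; omega) tendsto_id
    simpa using h1.mul h2

lemma contDiff_sincSum : ContDiff ℝ ∞ (FormalMultilinearSeries.ofScalarsSum (E := ℝ) sincCoef) := by
  apply contDiff_of_series
  · intro k
    unfold sincCoef
    positivity
  · have h : ∀ k : ℕ, ‖sincCoef k.succ‖ / ‖sincCoef k‖ = ((2 * k + 2 : ℕ) : ℝ)⁻¹ * ((2 * k + 3 : ℕ) : ℝ)⁻¹ := by
      intro k
      unfold sincCoef
      have : 2 * k.succ + 1 = (2 * k + 1 + 1) + 1 := by omega
      rw [this, Nat.factorial_succ, Nat.factorial_succ]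
      simp only [norm_div, norm_pow, norm_neg, norm_one, one_pow, Nat.cast_mul, norm_mul,
        Real.norm_natCast]
      have h1 : ((2 * k + 1).factorial : ℝ) ≠ 0 := by positivity
      field_simp
    simp_rw [h]
    have h1 : Tendsto (fun k : ℕ => ((2 * k + 2 : ℕ) : ℝ)⁻¹) atTop (𝓝 0) := by
      apply tendsto_inv_atTop_zero.comp
      apply tendsto_natCast_atTop_atTop.comp
      exact tendsto_atTop_mono (fun k => by simp only [id]; omega) tendsto_id
    have h2 : Tendsto (fun k : ℕ => ((2 * k + 3 : ℕ) : ℝ)⁻¹) atTop (𝓝 0) := by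
      apply tendsto_inv_atTop_zero.comp
      apply tendsto_natCast_atTop_atTop.comp
      exact tendsto_atTop_mono (fun k => by simp only [id]; omega) tendsto_id
    simpa using h1.mul h2

lemma cos_eq_cosSum (r : ℝ) :
    Real.cos r = FormalMultilinearSeries.ofScalarsSum (E := ℝ) cosCoef (r ^ 2) := by
  rw [FormalMultilinearSeries.ofScalars_sum_eq, ← (Real.hasSum_cos r).tsum_eq]
  apply tsum_congr
  intro k
  unfold cosCoef
  rw [smul_eq_mul, ← pow_mul]
  ring

lemma sinc_eq_sincSum (r : ℝ) :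
    Real.sinc r = FormalMultilinearSeries.ofScalarsSum (E := ℝ) sincCoef (r ^ 2) := by
  rw [FormalMultilinearSeries.ofScalars_sum_eq]
  rcases eq_or_ne r 0 with rfl | hr
  · rw [Real.sinc_zero, tsum_eq_single 0]
    · simp [sincCoef]
    · intro k hk
      simp [hk]
  · rw [Real.sinc_of_ne_zero hr, ← (Real.hasSum_sin r).tsum_eq, ← tsum_div_const]
    apply tsum_congr
    intro k
    unfold sincCoef
    rw [smul_eq_mul, ← pow_mul]
    field_simp
    try ring

lemma contDiff_cos_norm {n : ℕ} : ContDiff ℝ ∞ (fun v : Euc n => Real.cos ‖v‖) := by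
  have : (fun v : Euc n => Real.cos ‖v‖) =
      fun v => FormalMultilinearSeries.ofScalarsSum (E := ℝ) cosCoef (‖v‖ ^ 2) := by
    funext v
    exact cos_eq_cosSum _
  rw [this]
  exact contDiff_cosSum.comp (contDiff_norm_sq ℝ)

lemma contDiff_sinc_norm {n : ℕ} : ContDiff ℝ ∞ (fun v : Euc n => Real.sinc ‖v‖) := by
  have : (fun v : Euc n => Real.sinc ‖v‖) =
      fun v => FormalMultilinearSeries.ofScalarsSum (E := ℝ) sincCoef (‖v‖ ^ 2) := by
    funext v
    exact sinc_eq_sincSum _
  rw [this]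
  exact contDiff_sincSum.comp (contDiff_norm_sq ℝ)

lemma contDiff_expMap {n : ℕ} (x : Sph n) (e : Euc n →ₗᵢ[ℝ] Amb n) :
    ContDiff ℝ ∞ (expMap x e) := by
  unfold expMap
  apply ContDiff.add
  · exact contDiff_cos_norm.smul contDiff_const
  · exact contDiff_sinc_norm.smul e.toContinuousLinearMap.contDiff

end Pool.Agent.Helper76.SobDiff
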